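import Pool.Agent.H583.GD.B
import Pool.Graph.R_pool_sql_team_seeded_707910d6.T2H20.AH.Gh

/-!
The rational numbers `y` for which the triple `(y, 1, y + 1)` has a denominator with a given radical and
another member with a small radical, of all heights.
-/

set_option autoImplicit false

namespace Pool.Agent.H583.PD

open Finset Pool.Agent.T2H20.ABC Pool.Agent.T2H20.AH Pool.Agent.H785R2.ABC Pool.Agent.H583.SF
  Pool.Agent.H583.WT Pool.Agent.H583.AL Pool.Agent.H583.AR Pool.Agent.H583.GD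

/-- the triple of a rational number, with its denominator and its numerator marked -/
lemma code {y : ℚ} (h0 : y ≠ 0) (h1 : y ≠ -1) : ∃ (q : ℕ × ℕ) (w : Fin 3 × Bool),
    0 < q.1 ∧ 0 < q.2 ∧ Nat.Coprime q.1 q.2 ∧ rad (q.1 * q.2 * (q.1 + q.2)) = zr (U y) ∧
    (∃ i j : Fin 3, i ≠ j ∧ rad (num (tri q) i) = zr y.den ∧ rad (num (tri q) j) = zr y.num) ∧
    Cc y ≤ 2 * (q.1 + q.2) ∧
    y = ((dec (q, 1, w.1, w.2)).2 : ℚ) / ((dec (q, 1, w.1, w.2)).1 : ℚ) := by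
  obtain ⟨q, c, s, hq1, hq2, hq3, hq4, ⟨i, j, hij, e1, e2⟩, hm, hq5⟩ := code_exists (den_ne y)
    (Rat.num_ne_zero.2 h0) (by rw [add_comm]; exact num_add_ne h1) (Rat.isCoprime_num_den y).symm
  refine ⟨q, (c, s), hq1, hq2, hq3, ?_, ⟨i, j, hij, e1, e2⟩, ?_, ?_⟩
  · rw [hq4]
    unfold U
    congr 1
    ring
  · unfold Cc
    omega
  · rw [hq5 1]
    push_cast
    rw [one_mul, one_mul]
    exact (Rat.num_div_den y).symm

/-- large heights -/
theorem exc (ε : ℝ) (hε : 0 < ε) : ∃ M : ℕ, ∃ C : ℝ, 1 ≤ M ∧ 0 < C ∧ ∀ X r B : ℕ, 1 ≤ X → 1 ≤ r →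
    r ≤ X → 1 ≤ B → ∀ Q : Finset ℚ, (∀ y ∈ Q, y ≠ 0 ∧ y ≠ -1 ∧ zr (U y) ≤ X ∧ zr y.den ∣ r ∧
      zr y.num ≤ B ∧ zr (U y) ^ M ≤ Cc y) → (Q.card : ℝ) ≤ C * (X : ℝ) ^ ε * Real.sqrt B := by
  classical
  obtain ⟨M, m, C, hM, hC, h⟩ := fam_exceptions (ε / 2) (by positivity)
  obtain ⟨D, hD, hd⟩ := div_pow m (ε / 2) (by positivity)
  refine ⟨M + 1, 6 * C * D, by omega, by positivity, ?_⟩
  intro X r B hX hr hrX hB Q hQ
  have hX1 : (1 : ℝ) ≤ X := by exact_mod_cast hX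
  have hX0 : (0 : ℝ) < X := by linarith
  have hex : ∀ y : ℚ, ∃ (q : ℕ × ℕ) (w : Fin 3 × Bool), y ∈ Q →
      (0 < q.1 ∧ 0 < q.2 ∧ Nat.Coprime q.1 q.2 ∧ rad (q.1 * q.2 * (q.1 + q.2)) = zr (U y) ∧
      (∃ i j : Fin 3, i ≠ j ∧ rad (num (tri q) i) = zr y.den ∧ rad (num (tri q) j) = zr y.num) ∧
      Cc y ≤ 2 * (q.1 + q.2) ∧
      y = ((dec (q, 1, w.1, w.2)).2 : ℚ) / ((dec (q, 1, w.1, w.2)).1 : ℚ)) := by
    intro y
    by_cases hy : y ∈ Q
    · obtain ⟨g1, g2, -⟩ := hQ y hy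
      obtain ⟨q, w, hqw⟩ := code g1 g2
      exact ⟨q, w, fun _ => hqw⟩
    · exact ⟨(0, 0), (0, true), fun h => absurd h hy⟩
  choose T W hTW using hex
  have h1 : Q.card ≤ 6 * (Q.image T).card := by
    apply Finset.card_le_mul_card_image
    intro t ht
    have hsub : (Q.filter fun y => T y = t) ⊆ (Finset.univ : Finset (Fin 3 × Bool)).image
        (fun w => ((dec (t, 1, w.1, w.2)).2 : ℚ) / ((dec (t, 1, w.1, w.2)).1 : ℚ)) := by
      intro y hy
      rw [mem_filter] at hy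
      rw [mem_image]
      refine ⟨W y, mem_univ _, ?_⟩
      rw [← hy.2]
      exact (hTW y hy.1).2.2.2.2.2.2.symm
    refine (card_le_card hsub).trans (Finset.card_image_le.trans ?_)
    simp
  have h2 := h X r B hX hr hB _ _ _ _ _ _ (fml_dvd (r := r) (by omega)) fml_all (Q.image T) (by
    intro t ht
    rw [mem_image] at ht
    obtain ⟨y, hy, rfl⟩ := ht
    obtain ⟨g1, g2, g3, g4, g5, g6⟩ := hQ y hy
    obtain ⟨a1, a2, a3, a4, ⟨i, j, hij, a5, a6⟩, a7, -⟩ := hTW y hy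
    refine ⟨a1, a2, a3, a4.trans_le g3, ⟨i, j, hij, ⟨?_, a6.trans_le g5⟩, ?_, trivial⟩, ?_⟩
    · rw [a5]
      exact Nat.le_of_dvd (by omega) g4
    · rw [a5]
      exact g4
    · rw [a4]
      rcases Nat.lt_or_ge (zr (U y)) 2 with hX2 | hX2
      · have : zr (U y) ≤ 1 := by omega
        calc zr (U y) ^ M ≤ 1 ^ M := Nat.pow_le_pow_left this M
          _ = 1 := one_pow _
          _ ≤ _ := by omega
      · have h4 : zr (U y) ^ M * 2 ≤ zr (U y) ^ (M + 1) := by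
          rw [pow_succ]
          exact Nat.mul_le_mul_left _ hX2
        omega)
  rw [Real.rpow_zero, one_mul, Real.rpow_one, mul_one] at h2
  have h3 := hd X r hr hrX
  calc (Q.card : ℝ) ≤ ((6 * (Q.image T).card : ℕ) : ℝ) := by exact_mod_cast h1
    _ = 6 * ((Q.image T).card : ℝ) := by push_cast; ring
    _ ≤ 6 * (C * (r.divisors.card : ℝ) ^ m * (X : ℝ) ^ (ε / 2) * Real.sqrt B) :=
        mul_le_mul_of_nonneg_left h2 (by norm_num)
    _ ≤ 6 * (C * (D * (X : ℝ) ^ (ε / 2)) * (X : ℝ) ^ (ε / 2) * Real.sqrt B) := by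
        apply mul_le_mul_of_nonneg_left _ (by norm_num)
        apply mul_le_mul_of_nonneg_right _ (Real.sqrt_nonneg _)
        apply mul_le_mul_of_nonneg_right _ (by positivity)
        exact mul_le_mul_of_nonneg_left h3 hC.le
    _ = 6 * C * D * ((X : ℝ) ^ (ε / 2) * (X : ℝ) ^ (ε / 2)) * Real.sqrt B := by ring
    _ = 6 * C * D * (X : ℝ) ^ ε * Real.sqrt B := by
        rw [← Real.rpow_add hX0, add_halves]

/-- moderate heights -/
theorem mdr (M : ℕ) (hM : 1 ≤ M) (ε : ℝ) (hε : 0 < ε) : ∃ C : ℝ, 0 < C ∧ ∀ X r B : ℕ, 1 ≤ X →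
    1 ≤ r → r ≤ X → 1 ≤ B → ∀ Q : Finset ℚ, (∀ y ∈ Q, y ≠ 0 ∧ zr y.den ∣ r ∧
      zr y.num ≤ B ∧ Cc y ≤ X ^ M) → (Q.card : ℝ) ≤ C * (X : ℝ) ^ ε * B := by
  classical
  have hM0 : (0 : ℝ) < M := by exact_mod_cast hM
  obtain ⟨D, hD, hint⟩ := ints_le (ε / (4 * M)) (by positivity)
  obtain ⟨D₂, hD₂, h2⟩ := two_pow_card 1 (ε / 2) (by positivity)
  refine ⟨D * D₂ * D, by positivity, ?_⟩
  intro X r B hX hr hrX hB Q hQ
  have hX1 : (1 : ℝ) ≤ X := by exact_mod_cast hX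
  have hX0 : (0 : ℝ) < X := by linarith
  have hN : 1 ≤ X ^ M := Nat.one_le_pow _ _ hX
  have hNε : ((X ^ M : ℕ) : ℝ) ^ (ε / (4 * M)) = (X : ℝ) ^ (ε / 4) := by
    push_cast
    rw [← Real.rpow_natCast, ← Real.rpow_mul hX0.le]
    congr 1
    field_simp
  have hV1 := hint (X ^ M) 1 hN le_rfl r.primeFactors (Q.image fun y => (y.den : ℤ)) (by
    intro v hv
    rw [mem_image] at hv
    obtain ⟨y, hy, rfl⟩ := hv
    obtain ⟨g1, g2, g3, g4⟩ := hQ y hy
    refine ⟨den_ne y, ?_, ?_⟩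
    · rw [Int.natAbs_natCast]
      exact le_trans ((le_max_right _ _).trans (le_max_left _ _)) g4
    · unfold zn nr
      rw [Finset.sdiff_eq_empty_iff_subset.2, Finset.prod_empty]
      intro p hp
      have hpp := Nat.prime_of_mem_primeFactors hp
      rw [Nat.mem_primeFactors]
      refine ⟨hpp, ?_, by omega⟩
      refine dvd_trans ?_ g2
      unfold zr rad
      exact Finset.dvd_prod_of_mem _ hp)
  have hV2 := hint (X ^ M) B hN hB ∅ (Q.image fun y => y.num) (by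
    intro v hv
    rw [mem_image] at hv
    obtain ⟨y, hy, rfl⟩ := hv
    obtain ⟨g1, g2, g3, g4⟩ := hQ y hy
    refine ⟨Rat.num_ne_zero.2 g1, ?_, ?_⟩
    · exact le_trans ((le_max_left _ _).trans (le_max_left _ _)) g4
    · exact (zn_le_zr ∅ y.num).trans g3)
  rw [Finset.card_empty, pow_zero, mul_one] at hV2
  rw [Nat.cast_one, mul_one] at hV1
  have hK := h2 X r.primeFactors (fun p hp => Nat.prime_of_mem_primeFactors hp) (by
    exact (Nat.le_of_dvd (by omega) (Nat.prod_primeFactors_dvd r)).trans hrX)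
  rw [pow_one] at hK
  have hc : Q.card ≤ (Q.image fun y => (y.den : ℤ)).card * (Q.image fun y => y.num).card := by
    rw [← Finset.card_product]
    apply Finset.card_le_card_of_injOn (fun y => ((y.den : ℤ), y.num))
    · intro y hy
      rw [Finset.mem_coe, mem_product]
      exact ⟨mem_image_of_mem _ hy, mem_image_of_mem _ hy⟩
    · intro y _ z _ hyz
      simp only [Prod.mk.injEq, Nat.cast_inj] at hyz
      exact Rat.ext hyz.2 hyz.1
  rw [hNε] at hV1 hV2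
  calc (Q.card : ℝ) ≤ (((Q.image fun y => (y.den : ℤ)).card * (Q.image fun y => y.num).card : ℕ) : ℝ) := by
        exact_mod_cast hc
    _ = ((Q.image fun y => (y.den : ℤ)).card : ℝ) * ((Q.image fun y => y.num).card : ℝ) := by
        push_cast; ring
    _ ≤ (D * 2 ^ r.primeFactors.card * (X : ℝ) ^ (ε / 4)) * (D * (X : ℝ) ^ (ε / 4) * B) :=
        mul_le_mul hV1 hV2 (Nat.cast_nonneg _) (by positivity)
    _ ≤ (D * (D₂ * (X : ℝ) ^ (ε / 2)) * (X : ℝ) ^ (ε / 4)) * (D * (X : ℝ) ^ (ε / 4) * B) := by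
        apply mul_le_mul_of_nonneg_right _ (by positivity)
        apply mul_le_mul_of_nonneg_right _ (by positivity)
        exact mul_le_mul_of_nonneg_left hK hD.le
    _ = D * D₂ * D * ((X : ℝ) ^ (ε / 2) * (X : ℝ) ^ (ε / 4) * (X : ℝ) ^ (ε / 4)) * B := by ring
    _ = _ := by
        rw [← Real.rpow_add hX0, ← Real.rpow_add hX0]
        congr 3
        ring

/-- the other member -/
lemma neg_facts (y : ℚ) : (-1 - y).num = -(y.num + y.den) ∧ (-1 - y).den = y.den := by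
  have hd : (y.den : ℚ) ≠ 0 := by exact_mod_cast y.den_pos.ne'
  have h1 : -1 - y = ((-(y.num + y.den) : ℤ) : ℚ) / ((y.den : ℤ) : ℚ) := by
    push_cast
    rw [eq_div_iff hd]
    have h2 : y * y.den = y.num := Rat.mul_den_eq_num y
    linear_combination -h2
  have hcop : Nat.Coprime (-(y.num + (y.den : ℤ))).natAbs ((y.den : ℤ)).natAbs := by
    rw [Int.natAbs_neg, ← Int.isCoprime_iff_nat_coprime]
    have h := (Rat.isCoprime_num_den y).add_mul_right_left 1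
    rw [one_mul] at h
    exact h
  have hpos : (0 : ℤ) < (y.den : ℤ) := by exact_mod_cast y.den_pos
  constructor
  · rw [h1]
    exact Rat.num_div_eq_of_coprime hpos hcop
  · have h3 := Rat.den_div_eq_of_coprime hpos hcop
    rw [← h1] at h3
    exact_mod_cast h3

lemma U_neg (y : ℚ) : U (-1 - y) = U y := by
  obtain ⟨h1, h2⟩ := neg_facts y
  unfold U
  rw [h1, h2]
  ring

lemma Cc_neg (y : ℚ) : Cc (-1 - y) = Cc y := by
  obtain ⟨h1, h2⟩ := neg_facts y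
  unfold Cc
  rw [h1, h2]
  omega

/-- **the rational numbers `y` for which the triple `(y, 1, y + 1)` has a denominator with a given
radical and another member with a small radical** -/
theorem fib (ε : ℝ) (hε : 0 < ε) : ∃ M : ℕ, ∃ C : ℝ, 1 ≤ M ∧ 0 < C ∧ ∀ X r B : ℕ, 1 ≤ X → 1 ≤ r →
    r ≤ X → 1 ≤ B → ∀ Q : Finset ℚ, (∀ y ∈ Q, y ≠ 0 ∧ y ≠ -1 ∧ zr (U y) ≤ X ∧ zr y.den ∣ r ∧
      (zr y.num ≤ B ∨ zr (y.num + y.den) ≤ B)) → (Q.card : ℝ) ≤ C * (X : ℝ) ^ ε * B ∧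
      ((∀ y ∈ Q, zr (U y) ^ M ≤ Cc y) → (Q.card : ℝ) ≤ C * (X : ℝ) ^ ε * Real.sqrt B) := by
  classical
  obtain ⟨M, C₁, hM, hC₁, h₁⟩ := exc ε hε
  obtain ⟨C₂, hC₂, h₂⟩ := mdr M hM ε hε
  refine ⟨M, 2 * (C₁ + C₂), hM, by positivity, ?_⟩
  intro X r B hX hr hrX hB Q hQ
  have hX0 : (0 : ℝ) < X := by exact_mod_cast hX
  have hB1 : (1 : ℝ) ≤ B := by exact_mod_cast hB
  have hsq : Real.sqrt B ≤ B := by
    rw [Real.sqrt_le_left (by linarith)]
    nlinarith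
  -- one of the two members
  have key : ∀ P : Finset ℚ, (∀ y ∈ P, y ≠ 0 ∧ y ≠ -1 ∧ zr (U y) ≤ X ∧ zr y.den ∣ r ∧ zr y.num ≤ B) →
      (P.card : ℝ) ≤ (C₁ + C₂) * (X : ℝ) ^ ε * B ∧
      ((∀ y ∈ P, zr (U y) ^ M ≤ Cc y) → (P.card : ℝ) ≤ (C₁ + C₂) * (X : ℝ) ^ ε * Real.sqrt B) := by
    intro P hP
    have hsqrt : (∀ y ∈ P, zr (U y) ^ M ≤ Cc y) → (P.card : ℝ) ≤ (C₁ + C₂) * (X : ℝ) ^ ε * Real.sqrt B := by
      intro hh
      refine (h₁ X r B hX hr hrX hB P (fun y hy => ?_)).trans ?_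
      · obtain ⟨g1, g2, g3, g4, g5⟩ := hP y hy
        exact ⟨g1, g2, g3, g4, g5, hh y hy⟩
      · apply mul_le_mul_of_nonneg_right _ (Real.sqrt_nonneg _)
        apply mul_le_mul_of_nonneg_right _ (by positivity)
        linarith
    refine ⟨?_, hsqrt⟩
    have e1 := h₁ X r B hX hr hrX hB (P.filter fun y => zr (U y) ^ M ≤ Cc y) (fun y hy => by
      rw [mem_filter] at hy
      obtain ⟨g1, g2, g3, g4, g5⟩ := hP y hy.1
      exact ⟨g1, g2, g3, g4, g5, hy.2⟩)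
    have e2 := h₂ X r B hX hr hrX hB (P.filter fun y => ¬ zr (U y) ^ M ≤ Cc y) (fun y hy => by
      rw [mem_filter] at hy
      obtain ⟨g1, g2, g3, g4, g5⟩ := hP y hy.1
      have h3 : zr (U y) ^ M ≤ X ^ M := Nat.pow_le_pow_left g3 M
      exact ⟨g1, g4, g5, by omega⟩)
    have e3 : (P.card : ℝ) = ((P.filter fun y => zr (U y) ^ M ≤ Cc y).card : ℝ) +
        ((P.filter fun y => ¬ zr (U y) ^ M ≤ Cc y).card : ℝ) := by
      rw [← Nat.cast_add, Finset.card_filter_add_card_filter_not]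
    rw [e3]
    calc _ ≤ C₁ * (X : ℝ) ^ ε * Real.sqrt B + C₂ * (X : ℝ) ^ ε * B := add_le_add e1 e2
      _ ≤ C₁ * (X : ℝ) ^ ε * B + C₂ * (X : ℝ) ^ ε * B := by
          gcongr
      _ = _ := by ring
  obtain ⟨P₁, hP₁⟩ : ∃ P₁, P₁ = Q.filter fun y => zr y.num ≤ B := ⟨_, rfl⟩
  obtain ⟨P₂, hP₂⟩ : ∃ P₂, P₂ = (Q.filter fun y => ¬ zr y.num ≤ B).image fun y => -1 - y := ⟨_, rfl⟩
  have hc2 : P₂.card = (Q.filter fun y => ¬ zr y.num ≤ B).card := by
    rw [hP₂]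
    apply Finset.card_image_of_injective
    intro a b hab
    simp only at hab
    linarith
  have hc : (Q.card : ℝ) = P₁.card + P₂.card := by
    rw [hc2, hP₁, ← Nat.cast_add, Finset.card_filter_add_card_filter_not]
  have k1 := key P₁ (fun y hy => by
    rw [hP₁, mem_filter] at hy
    obtain ⟨g1, g2, g3, g4, g5⟩ := hQ y hy.1
    exact ⟨g1, g2, g3, g4, hy.2⟩)
  have k2 := key P₂ (fun y hy => by
    rw [hP₂, mem_image] at hy
    obtain ⟨z, hz, rfl⟩ := hy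
    rw [mem_filter] at hz
    obtain ⟨g1, g2, g3, g4, g5⟩ := hQ z hz.1
    obtain ⟨f1, f2⟩ := neg_facts z
    refine ⟨?_, ?_, ?_, ?_, ?_⟩
    · intro h
      apply g2
      linarith
    · intro h
      apply g1
      linarith
    · rw [U_neg]
      exact g3
    · rw [f2]
      exact g4
    · rw [f1]
      have h6 := g5.resolve_left hz.2
      unfold zr at h6 ⊢
      rw [Int.natAbs_neg]
      exact h6)
  rw [hc]
  refine ⟨by linarith [k1.1, k2.1], fun hh => ?_⟩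
  have k3 := k1.2 (fun y hy => by
    rw [hP₁, mem_filter] at hy
    exact hh y hy.1)
  have k4 := k2.2 (fun y hy => by
    rw [hP₂, mem_image] at hy
    obtain ⟨z, hz, rfl⟩ := hy
    rw [mem_filter] at hz
    rw [Cc_neg, U_neg]
    exact hh z hz.1)
  linarith

end Pool.Agent.H583.PD
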