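import Pool.Agent.H583.PD.A

/-!
Configurations of integers: the number of those the differences of which have radicals in a box.
-/

set_option autoImplicit false

namespace Pool.Agent.H583.PD

open Finset Pool.Agent.T2H20.ABC Pool.Agent.T2H20.AH Pool.Agent.H785R2.ABC Pool.Agent.H583.SF
  Pool.Agent.H583.WT Pool.Agent.H583.AL Pool.Agent.H583.AR Pool.Agent.H583.GD

variable {m : ℕ}

/-- a configuration of different integers, the first one is zero, without a common divisor -/
structure Cf (x : Fin m → ℤ) : Prop where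
  inj : Function.Injective x
  zero : ∀ i : Fin m, (i : ℕ) = 0 → x i = 0
  gcd : Finset.univ.gcd x = 1

/-- the ratio of the differences -/
def yy (i j k : Fin m) (x : Fin m → ℤ) : ℚ := ((x k - x i : ℤ) : ℚ) / ((x i - x j : ℤ) : ℚ)

lemma yy_i (i j : Fin m) (x : Fin m → ℤ) : yy i j i x = 0 := by
  unfold yy
  simp

lemma yy_j {i j : Fin m} {x : Fin m → ℤ} (h : Cf x) (hij : i ≠ j) : yy i j j x = -1 := by
  unfold yy
  have h1 : ((x i - x j : ℤ) : ℚ) ≠ 0 := by
    have := sub_ne_zero.2 (fun e => hij (h.inj e))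
    exact_mod_cast this
  rw [div_eq_iff h1]
  push_cast
  ring

lemma df_ne {x : Fin m → ℤ} (h : Cf x) {i j : Fin m} (hij : i ≠ j) : x i - x j ≠ 0 :=
  sub_ne_zero.2 fun e => hij (h.inj e)

lemma yy_eq {i j k : Fin m} {x : Fin m → ℤ} (h : Cf x) (hij : i ≠ j) :
    ∃ c : ℤ, x k - x i = c * (yy i j k x).num ∧ x i - x j = c * (yy i j k x).den ∧
      x k - x j = c * ((yy i j k x).num + (yy i j k x).den) := by
  obtain ⟨c, h1, h2⟩ := Rat.exists_eq_mul_div_num_and_eq_mul_div_den (x k - x i) (df_ne h hij)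
  refine ⟨c, h1, h2, ?_⟩
  unfold yy
  rw [mul_add, ← h1, ← h2]
  ring

lemma yy_ne0 {i j k : Fin m} {x : Fin m → ℤ} (h : Cf x) (hij : i ≠ j) (hki : k ≠ i) :
    yy i j k x ≠ 0 := by
  unfold yy
  have h1 : ((x i - x j : ℤ) : ℚ) ≠ 0 := by exact_mod_cast df_ne h hij
  have h2 : ((x k - x i : ℤ) : ℚ) ≠ 0 := by exact_mod_cast df_ne h hki
  exact div_ne_zero h2 h1

lemma yy_ne1 {i j k : Fin m} {x : Fin m → ℤ} (h : Cf x) (hij : i ≠ j) (hkj : k ≠ j) :
    yy i j k x ≠ -1 := by
  intro h0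
  unfold yy at h0
  have h1 : ((x i - x j : ℤ) : ℚ) ≠ 0 := by exact_mod_cast df_ne h hij
  rw [div_eq_iff h1] at h0
  have h2 : x k - x j = 0 := by
    have : (x k : ℚ) - x j = 0 := by
      push_cast at h0
      linarith
    exact_mod_cast this
  exact df_ne h hkj h2

lemma zr_mul_le {a b : ℤ} (ha : a ≠ 0) (hb : b ≠ 0) : zr (a * b) ≤ zr a * zr b := by
  unfold zr
  rw [Int.natAbs_mul]
  exact rad_mul_le (Int.natAbs_ne_zero.2 ha) (Int.natAbs_ne_zero.2 hb)

lemma zr_sub_comm (a b : ℤ) : zr (a - b) = zr (b - a) := by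
  unfold zr
  rw [← Int.natAbs_neg, neg_sub]

lemma yy_facts {i j k : Fin m} {x : Fin m → ℤ} (h : Cf x) (hij : i ≠ j) (hki : k ≠ i) (hkj : k ≠ j) :
    zr (yy i j k x).den ∣ zr (x i - x j) ∧ zr (yy i j k x).num ≤ zr (x i - x k) ∧
    zr ((yy i j k x).num + (yy i j k x).den) ≤ zr (x j - x k) ∧
    zr (U (yy i j k x)) ≤ zr (x i - x j) * zr (x i - x k) * zr (x j - x k) := by
  obtain ⟨c, h1, h2, h3⟩ := yy_eq (k := k) h hij
  have e1 := df_ne h hij
  have e2 := df_ne h hki
  have e3 := df_ne h hkj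
  have f1 : zr (yy i j k x).den ∣ zr (x i - x j) := zr_dvd_of_dvd e1 ⟨c, by rw [h2]; ring⟩
  have f2 : zr (yy i j k x).num ≤ zr (x i - x k) := by
    rw [zr_sub_comm (x i)]
    exact zr_le_of_dvd e2 ⟨c, by rw [h1]; ring⟩
  have f3 : zr ((yy i j k x).num + (yy i j k x).den) ≤ zr (x j - x k) := by
    rw [zr_sub_comm (x j)]
    exact zr_le_of_dvd e3 ⟨c, by rw [h3]; ring⟩
  refine ⟨f1, f2, f3, ?_⟩
  have n0 := Rat.num_ne_zero.2 (yy_ne0 h hij hki)
  have n1 := den_ne (yy i j k x)
  have n2 := num_add_ne (yy_ne1 h hij hkj)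
  calc zr (U (yy i j k x)) ≤ zr ((yy i j k x).num * (yy i j k x).den) *
        zr ((yy i j k x).num + (yy i j k x).den) := zr_mul_le (mul_ne_zero n0 n1) n2
    _ ≤ (zr (yy i j k x).num * zr (yy i j k x).den) * zr ((yy i j k x).num + (yy i j k x).den) :=
        Nat.mul_le_mul_right _ (zr_mul_le n0 n1)
    _ ≤ (zr (x i - x k) * zr (x i - x j)) * zr (x j - x k) :=
        Nat.mul_le_mul (Nat.mul_le_mul f2 (Nat.le_of_dvd (zr_pos _) f1)) f3
    _ = _ := by ring

/-- the ratios determine the configuration up to the sign -/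
lemma yy_inj {i j : Fin m} {x z : Fin m → ℤ} (hx : Cf x) (hz : Cf z) (hij : i ≠ j)
    (h : ∀ k, yy i j k x = yy i j k z) : z = x ∨ z = -x := by
  have h1 : ∀ k, (x k - x i) * (z i - z j) = (z k - z i) * (x i - x j) := by
    intro k
    have h2 := h k
    unfold yy at h2
    have a1 : ((x i - x j : ℤ) : ℚ) ≠ 0 := by exact_mod_cast df_ne hx hij
    have a2 : ((z i - z j : ℤ) : ℚ) ≠ 0 := by exact_mod_cast df_ne hz hij
    rw [div_eq_div_iff a1 a2] at h2
    exact_mod_cast h2
  have hm : 0 < m := lt_of_le_of_lt (Nat.zero_le _) i.2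
  have x0 := hx.zero ⟨0, hm⟩ rfl
  have z0 := hz.zero ⟨0, hm⟩ rfl
  have h2 : ∀ k, (z i - z j) * x k = (x i - x j) * z k := by
    intro k
    have h3 := h1 k
    have h4 := h1 ⟨0, hm⟩
    rw [x0, z0] at h4
    linear_combination h3 - h4
  have g1 : Finset.univ.gcd (fun k => (z i - z j) * x k) = normalize (z i - z j) := by
    rw [Finset.gcd_mul_left, hx.gcd, mul_one]
  have g2 : Finset.univ.gcd (fun k => (x i - x j) * z k) = normalize (x i - x j) := by
    rw [Finset.gcd_mul_left, hz.gcd, mul_one]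
  have g3 : normalize (z i - z j) = normalize (x i - x j) := by
    rw [← g1, ← g2]
    congr 1
    funext k
    exact h2 k
  rw [← Int.abs_eq_normalize, ← Int.abs_eq_normalize] at g3
  have d0 := df_ne hx hij
  rcases abs_eq_abs.1 g3 with g | g
  · left
    funext k
    have h3 := h2 k
    rw [g] at h3
    exact (mul_left_cancel₀ d0 h3).symm
  · right
    funext k
    have h3 := h2 k
    rw [g] at h3
    rw [Pi.neg_apply]
    have : (x i - x j) * (z k) = (x i - x j) * (-x k) := by linear_combination -h3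
    exact mul_left_cancel₀ d0 this

/-- the bound for a ratio -/
noncomputable def bd (E : Prop) [Decidable E] (B : ℕ) : ℝ := if E then Real.sqrt B else B

open Classical in
/-- **configurations in a box** -/
theorem box (m : ℕ) (ε : ℝ) (hε : 0 < ε) : ∃ M : ℕ, ∃ C : ℝ, 1 ≤ M ∧ 0 < C ∧ ∀ X : ℕ, 1 ≤ X →
    ∀ Z : Fin m → Fin m → ℕ, (∀ a b, 1 ≤ Z a b) → ∀ i j : Fin m, i ≠ j → Z i j ≤ X →
    (∀ k, k ≠ i → k ≠ j → Z i j * Z i k * Z j k ≤ X) → ∀ K : Finset (Fin m),
    ∀ Q : Finset (Fin m → ℤ), (∀ x ∈ Q, Cf x ∧ (∀ a b, zr (x a - x b) ≤ Z a b) ∧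
      ∀ k ∈ K, k ≠ i → k ≠ j → zr (U (yy i j k x)) ^ M ≤ Cc (yy i j k x)) →
    (Q.card : ℝ) ≤ C * (X : ℝ) ^ ε * (Z i j * ∏ k ∈ univ.filter (fun k => k ≠ i ∧ k ≠ j),
      bd (k ∈ K) (min (Z i k) (Z j k))) := by
  obtain ⟨M, C₀, hM, hC₀, h₀⟩ := fib (ε / (m + 1)) (by positivity)
  refine ⟨M, 2 * (C₀ + 1) ^ m, hM, by positivity, ?_⟩
  intro X hX Z hZ i j hij hXij hX3 K Q hQ
  have hX1 : (1 : ℝ) ≤ X := by exact_mod_cast hX
  have hX0 : (0 : ℝ) < X := by linarith
  obtain ⟨G, hG⟩ : ∃ G, G = (C₀ + 1) * (X : ℝ) ^ (ε / (m + 1)) := ⟨_, rfl⟩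
  have hXe : (1 : ℝ) ≤ (X : ℝ) ^ (ε / (m + 1)) := Real.one_le_rpow hX1 (by positivity)
  have hG1 : 1 ≤ G := by rw [hG]; nlinarith
  have hGm : G ^ m ≤ (C₀ + 1) ^ m * (X : ℝ) ^ ε := by
    rw [hG, mul_pow, ← Real.rpow_natCast ((X : ℝ) ^ (ε / (m + 1))), ← Real.rpow_mul hX0.le]
    apply mul_le_mul_of_nonneg_left _ (by positivity)
    apply Real.rpow_le_rpow_of_exponent_le hX1
    rw [div_mul_eq_mul_div, div_le_iff₀ (by positivity)]
    nlinarith
  obtain ⟨P, hP⟩ : ∃ P : ℝ, P = ∏ k ∈ univ.filter (fun k => k ≠ i ∧ k ≠ j),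
      bd (k ∈ K) (min (Z i k) (Z j k)) := ⟨_, rfl⟩
  have hbd : ∀ (E : Prop) [Decidable E] (B : ℕ), 0 ≤ bd E B := by
    intro E _ B
    unfold bd
    split_ifs <;> positivity
  have hP0 : 0 ≤ P := by
    rw [hP]
    exact Finset.prod_nonneg fun k _ => hbd _ _
  -- a fixed radical
  have hr : ∀ r ∈ Icc 1 (Z i j), (((Q.filter fun x => zr (x i - x j) = r).card : ℕ) : ℝ) ≤
      2 * (G ^ m * P) := by
    intro r hr
    rw [mem_Icc] at hr
    obtain ⟨R, hR⟩ : ∃ R, R = Q.filter fun x => zr (x i - x j) = r := ⟨_, rfl⟩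
    rw [← hR]
    have hRQ : ∀ x ∈ R, x ∈ Q ∧ zr (x i - x j) = r := by
      intro x hx
      rw [hR, mem_filter] at hx
      exact hx
    -- the ratios
    have hY : ∀ k : Fin m, (((R.image (yy i j k)).card : ℕ) : ℝ) ≤
        G * (if k ≠ i ∧ k ≠ j then bd (k ∈ K) (min (Z i k) (Z j k)) else 1) := by
      intro k
      by_cases hk : k ≠ i ∧ k ≠ j
      · rw [if_pos hk]
        have hB : 1 ≤ min (Z i k) (Z j k) := le_min (hZ _ _) (hZ _ _)
        obtain ⟨q1, q2⟩ := h₀ X r (min (Z i k) (Z j k)) hX hr.1 (hr.2.trans hXij) hB (R.image (yy i j k)) (by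
          intro y hy
          rw [mem_image] at hy
          obtain ⟨x, hx, rfl⟩ := hy
          obtain ⟨b1, b2⟩ := hRQ x hx
          obtain ⟨c1, c2, c3⟩ := hQ x b1
          obtain ⟨f1, f2, f3, f4⟩ := yy_facts c1 hij hk.1 hk.2
          refine ⟨yy_ne0 c1 hij hk.1, yy_ne1 c1 hij hk.2, ?_, ?_, ?_⟩
          · exact f4.trans ((Nat.mul_le_mul (Nat.mul_le_mul (c2 i j) (c2 i k)) (c2 j k)).trans
              (hX3 k hk.1 hk.2))
          · rw [← b2]
            exact f1
          · rcases le_total (Z i k) (Z j k) with hle | hle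
            · left
              rw [min_eq_left hle]
              exact f2.trans (c2 i k)
            · right
              rw [min_eq_right hle]
              exact f3.trans (c2 j k))
        unfold bd
        split_ifs with hkK
        · refine (q2 ?_).trans ?_
          · intro y hy
            rw [mem_image] at hy
            obtain ⟨x, hx, rfl⟩ := hy
            exact (hQ x (hRQ x hx).1).2.2 k hkK hk.1 hk.2
          · rw [hG]
            apply mul_le_mul_of_nonneg_right _ (Real.sqrt_nonneg _)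
            apply mul_le_mul_of_nonneg_right _ (by positivity)
            linarith
        · refine q1.trans ?_
          rw [hG]
          apply mul_le_mul_of_nonneg_right _ (Nat.cast_nonneg _)
          apply mul_le_mul_of_nonneg_right _ (by positivity)
          linarith
      · rw [if_neg hk, mul_one]
        refine le_trans ?_ hG1
        have h1 : (R.image (yy i j k)).card ≤ 1 := by
          rw [Finset.card_le_one]
          intro a ha b hb
          rw [mem_image] at ha hb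
          obtain ⟨x, hx, rfl⟩ := ha
          obtain ⟨z, hz, rfl⟩ := hb
          have cx := (hQ x (hRQ x hx).1).1
          have cz := (hQ z (hRQ z hz).1).1
          by_cases hki : k = i
          · rw [hki, yy_i, yy_i]
          · have hkj : k = j := by
              by_contra hkj
              exact hk ⟨hki, hkj⟩
            rw [hkj, yy_j cx hij, yy_j cz hij]
        exact_mod_cast h1
    -- the configurations
    have h2 : R.card ≤ 2 * (R.image fun x k => yy i j k x).card := by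
      apply Finset.card_le_mul_card_image
      intro t ht
      rw [mem_image] at ht
      obtain ⟨x, hx, rfl⟩ := ht
      have hsub : (R.filter fun z => (fun k => yy i j k z) = fun k => yy i j k x) ⊆ {x, -x} := by
        intro z hz
        rw [mem_filter] at hz
        rw [mem_insert, mem_singleton]
        exact yy_inj (hQ x (hRQ x hx).1).1 (hQ z (hRQ z hz.1).1).1 hij
          fun k => (congrFun hz.2 k).symm
      exact (card_le_card hsub).trans Finset.card_le_two
    have h3 : (R.image fun x k => yy i j k x) ⊆ Fintype.piFinset fun k => R.image (yy i j k) := by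
      intro t ht
      rw [mem_image] at ht
      obtain ⟨x, hx, rfl⟩ := ht
      rw [Fintype.mem_piFinset]
      intro k
      exact mem_image_of_mem _ hx
    have h4 := card_le_card h3
    rw [Fintype.card_piFinset] at h4
    have h5 : ((∏ k, (R.image (yy i j k)).card : ℕ) : ℝ) ≤ G ^ m * P := by
      push_cast
      refine (Finset.prod_le_prod (fun k _ => Nat.cast_nonneg _) fun k _ => hY k).trans
        (le_of_eq ?_)
      rw [Finset.prod_mul_distrib, Finset.prod_const, Finset.card_univ, Fintype.card_fin, hP,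
        Finset.prod_filter]
    calc (R.card : ℝ) ≤ ((2 * (R.image fun x k => yy i j k x).card : ℕ) : ℝ) := by
          exact_mod_cast h2
      _ ≤ ((2 * ∏ k, (R.image (yy i j k)).card : ℕ) : ℝ) := by
          exact_mod_cast Nat.mul_le_mul_left 2 h4
      _ = 2 * ((∏ k, (R.image (yy i j k)).card : ℕ) : ℝ) := by push_cast; ring
      _ ≤ _ := mul_le_mul_of_nonneg_left h5 (by norm_num)
  have hsum : Q.card = ∑ r ∈ Icc 1 (Z i j), (Q.filter fun x => zr (x i - x j) = r).card := by
    rw [← Finset.card_eq_sum_card_fiberwise]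
    intro x hx
    rw [Finset.mem_coe] at hx
    rw [Finset.mem_coe, mem_Icc]
    exact ⟨zr_pos _, (hQ x hx).2.1 i j⟩
  rw [← hP]
  calc (Q.card : ℝ) = ∑ r ∈ Icc 1 (Z i j), (((Q.filter fun x => zr (x i - x j) = r).card : ℕ) : ℝ) := by
        rw [hsum]; push_cast; rfl
    _ ≤ ∑ r ∈ Icc 1 (Z i j), 2 * (G ^ m * P) := Finset.sum_le_sum hr
    _ = Z i j * (2 * (G ^ m * P)) := by
        rw [Finset.sum_const, Nat.card_Icc, Nat.add_sub_cancel, nsmul_eq_mul]
    _ ≤ Z i j * (2 * (((C₀ + 1) ^ m * (X : ℝ) ^ ε) * P)) := by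
        apply mul_le_mul_of_nonneg_left _ (Nat.cast_nonneg _)
        apply mul_le_mul_of_nonneg_left _ (by norm_num)
        exact mul_le_mul_of_nonneg_right hGm hP0
    _ = _ := by ring

end Pool.Agent.H583.PD
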