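import Pool.Agent.H583.PD.B

/-!
Configurations of integers: the number of those with a bounded product of the radicals of the
differences.
-/

set_option autoImplicit false

namespace Pool.Agent.H583.PD

open Finset Pool.Agent.T2H20.ABC Pool.Agent.T2H20.AH Pool.Agent.H785R2.ABC Pool.Agent.H583.SF
  Pool.Agent.H583.WT Pool.Agent.H583.AL Pool.Agent.H583.AR Pool.Agent.H583.GD

variable {m : ℕ}

/-- **a cheap pair** -/
theorem avg (hm : 2 ≤ m) (e : Fin m → Fin m → ℝ) (he0 : ∀ i j, 0 ≤ e i j)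
    (hed : ∀ i, e i i = 0) (w : Fin m → Fin m → Fin m → ℝ)
    (hw0 : ∀ i j k, 0 ≤ w i j k) (hws : ∀ i j k, w i j k = w j i k) (W : ℝ) (hW : ∀ i k, i ≠ k → ∑ j, w i j k ≤ W) :
    ∃ i j, i ≠ j ∧ e i j + ∑ k, w i j k * min (e i k) (e j k) ≤
      (1 + W) / (m * (m - 1)) * ∑ i, ∑ j, e i j := by
  classical
  obtain ⟨D, hD⟩ : ∃ D, D = ∑ i, ∑ j, e i j := ⟨_, rfl⟩
  obtain ⟨c, hc⟩ : ∃ c : ℝ, c = (1 + W) / (m * (m - 1)) := ⟨_, rfl⟩
  rw [← hD, ← hc]
  have hm2 : (2 : ℝ) ≤ m := by exact_mod_cast hm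
  obtain ⟨cost, hcost⟩ : ∃ cost : Fin m → Fin m → ℝ,
      cost = fun i j => e i j + ∑ k, w i j k * min (e i k) (e j k) := ⟨_, rfl⟩
  have hc0 : ∀ i j, 0 ≤ cost i j := by
    intro i j
    rw [hcost]
    exact add_nonneg (he0 i j) (Finset.sum_nonneg fun k _ => mul_nonneg (hw0 i j k)
      (le_min (he0 i k) (he0 j k)))
  have hS : ∑ i, ∑ j, cost i j ≤ (1 + W) * D := by
    have h1 : ∑ i, ∑ j, cost i j ≤ D + (∑ i, ∑ j, ∑ k, w i j k * e i k +
        ∑ i, ∑ j, ∑ k, w i j k * e j k) / 2 := by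
      rw [hD, hcost, ← Finset.sum_add_distrib, Finset.sum_div, ← Finset.sum_add_distrib]
      apply Finset.sum_le_sum
      intro i _
      rw [← Finset.sum_add_distrib, Finset.sum_div, ← Finset.sum_add_distrib]
      apply Finset.sum_le_sum
      intro j _
      simp only
      rw [← Finset.sum_add_distrib, Finset.sum_div]
      apply add_le_add le_rfl
      apply Finset.sum_le_sum
      intro k _
      have h2 : min (e i k) (e j k) ≤ (e i k + e j k) / 2 := by
        rcases le_total (e i k) (e j k) with h | h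
        · rw [min_eq_left h]; linarith
        · rw [min_eq_right h]; linarith
      have h3 := mul_le_mul_of_nonneg_left h2 (hw0 i j k)
      linarith
    have h2 : ∑ i, ∑ j, ∑ k, w i j k * e j k = ∑ i, ∑ j, ∑ k, w i j k * e i k := by
      rw [Finset.sum_comm]
      apply Finset.sum_congr rfl
      intro i _
      apply Finset.sum_congr rfl
      intro j _
      apply Finset.sum_congr rfl
      intro k _
      rw [hws j i k]
    have h3 : ∑ i, ∑ j, ∑ k, w i j k * e i k ≤ W * D := by
      rw [hD, Finset.mul_sum]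
      apply Finset.sum_le_sum
      intro i _
      rw [Finset.sum_comm, Finset.mul_sum]
      apply Finset.sum_le_sum
      intro k _
      rw [← Finset.sum_mul]
      by_cases hik : i = k
      · rw [hik, hed, mul_zero, mul_zero]
      · exact mul_le_mul_of_nonneg_right (hW i k hik) (he0 i k)
    rw [h2] at h1
    linarith
  by_contra hcon
  push Not at hcon
  have hlt : ∀ p ∈ (univ : Finset (Fin m)).offDiag, c * D < cost p.1 p.2 := by
    intro p hp
    rw [Finset.mem_offDiag] at hp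
    rw [hcost]
    exact hcon p.1 p.2 hp.2.2
  have hne : (univ : Finset (Fin m)).offDiag.Nonempty := by
    refine ⟨(⟨0, by omega⟩, ⟨1, by omega⟩), ?_⟩
    rw [Finset.mem_offDiag]
    refine ⟨mem_univ _, mem_univ _, ?_⟩
    intro h
    have := congrArg Fin.val h
    simp at this
  have h1 := Finset.sum_lt_sum_of_nonempty hne hlt
  have h2 : ∑ p ∈ (univ : Finset (Fin m)).offDiag, cost p.1 p.2 ≤ ∑ i, ∑ j, cost i j := by
    rw [← Fintype.sum_prod_type' (f := cost)]
    exact Finset.sum_le_sum_of_subset_of_nonneg (Finset.subset_univ _) fun p _ _ => hc0 _ _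
  rw [Finset.sum_const, Finset.offDiag_card, Finset.card_univ, Fintype.card_fin, nsmul_eq_mul,
    Nat.cast_sub (by nlinarith)] at h1
  push_cast at h1
  have h3 : ((m : ℝ) * m - m) * (c * D) = (1 + W) * D := by
    rw [hc]
    have h4 : (m : ℝ) - 1 ≠ 0 := by linarith
    have h5 : (m : ℝ) ≠ 0 := by linarith
    field_simp
  linarith

/-- the pairs -/
def prs (m : ℕ) : Finset (Fin m × Fin m) := univ.filter fun p => p.1 < p.2

/-- a double sum -/
lemma dbl (e : Fin m → Fin m → ℝ) (hes : ∀ i j, e i j = e j i) (hed : ∀ i, e i i = 0) :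
    ∑ i, ∑ j, e i j = 2 * ∑ p ∈ prs m, e p.1 p.2 := by
  classical
  rw [← Fintype.sum_prod_type' (f := e)]
  have h1 : ∑ p : Fin m × Fin m, e p.1 p.2 = ∑ p : Fin m × Fin m, (if p.1 < p.2 then e p.1 p.2 else 0) +
      ∑ p : Fin m × Fin m, (if p.2 < p.1 then e p.1 p.2 else 0) := by
    rw [← Finset.sum_add_distrib]
    apply Finset.sum_congr rfl
    intro p _
    rcases lt_trichotomy p.1 p.2 with h | h | h
    · rw [if_pos h, if_neg (not_lt.2 h.le), add_zero]
    · rw [h, if_neg (lt_irrefl _), hed, add_zero]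
    · rw [if_neg (not_lt.2 h.le), if_pos h, zero_add]
  have h2 : ∑ p : Fin m × Fin m, (if p.2 < p.1 then e p.1 p.2 else 0) =
      ∑ p : Fin m × Fin m, (if p.1 < p.2 then e p.1 p.2 else 0) := by
    rw [← Equiv.sum_comp (Equiv.prodComm (Fin m) (Fin m))]
    apply Finset.sum_congr rfl
    intro p _
    simp only [Equiv.prodComm_apply, Prod.fst_swap, Prod.snd_swap]
    rw [hes p.2 p.1]
  rw [h1, h2, prs, Finset.sum_filter]
  ring

/-- the product of the radicals of the differences -/
def pr (x : Fin m → ℤ) : ℕ := ∏ p ∈ prs m, zr (x p.1 - x p.2)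

/-- the sorted pair -/
def srt (a b : Fin m) : Fin m × Fin m := if a < b then (a, b) else (b, a)

lemma srt_mem {a b : Fin m} (h : a ≠ b) : srt a b ∈ prs m := by
  unfold srt prs
  rw [mem_filter]
  refine ⟨mem_univ _, ?_⟩
  split_ifs with h1
  · exact h1
  · exact lt_of_le_of_ne (not_lt.1 h1) (Ne.symm h)

lemma srt_val (x : Fin m → ℤ) (a b : Fin m) :
    zr (x (srt a b).1 - x (srt a b).2) = zr (x a - x b) := by
  unfold srt
  split_ifs
  · rfl
  · exact zr_sub_comm _ _

lemma srt_ne {i j k : Fin m} (hij : i ≠ j) (hik : i ≠ k) (hjk : j ≠ k) : srt i j ≠ srt i k := by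
  unfold srt
  intro h
  split_ifs at h <;> rw [Prod.mk.injEq] at h <;> obtain ⟨h1, h2⟩ := h <;> first
    | exact hjk h2 | exact hjk h1 | exact hik h1 | exact hij h1.symm

lemma srt_symm {a b : Fin m} (h : a ≠ b) : srt a b = srt b a := by
  unfold srt
  rcases lt_or_gt_of_ne h with h1 | h1
  · rw [if_pos h1, if_neg (not_lt.2 h1.le)]
  · rw [if_neg (not_lt.2 h1.le), if_pos h1]

lemma zr_le_pr (x : Fin m → ℤ) {a b : Fin m} (h : a ≠ b) : zr (x a - x b) ≤ pr x := by
  rw [← srt_val]
  exact Finset.single_le_prod' (f := fun p : Fin m × Fin m => zr (x p.1 - x p.2))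
    (fun p _ => zr_pos _) (srt_mem h)

lemma pr_pos (x : Fin m → ℤ) : 0 < pr x := Finset.prod_pos fun _ _ => zr_pos _

lemma three_le_pr (x : Fin m → ℤ) {i j k : Fin m} (hij : i ≠ j) (hik : i ≠ k) (hjk : j ≠ k) :
    zr (x i - x j) * zr (x i - x k) * zr (x j - x k) ≤ pr x := by
  classical
  have n1 : srt i j ≠ srt i k := srt_ne hij hik hjk
  have n2 : srt i j ≠ srt j k := by
    rw [srt_symm hij]
    exact srt_ne hij.symm hjk hik
  have n3 : srt i k ≠ srt j k := by
    rw [srt_symm hik, srt_symm hjk]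
    exact srt_ne hik.symm hjk.symm hij
  have h1 : zr (x i - x j) * zr (x i - x k) * zr (x j - x k) =
      ∏ p ∈ {srt i j, srt i k, srt j k}, zr (x p.1 - x p.2) := by
    rw [Finset.prod_insert (by
        rw [mem_insert, mem_singleton]
        exact not_or.2 ⟨n1, n2⟩), Finset.prod_insert (by
        rw [mem_singleton]
        exact n3), Finset.prod_singleton, srt_val, srt_val, srt_val]
    ring
  rw [h1]
  apply Finset.prod_le_prod_of_subset_of_one_le'
  · intro p hp
    rw [mem_insert, mem_insert, mem_singleton] at hp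
    rcases hp with rfl | rfl | rfl
    · exact srt_mem hij
    · exact srt_mem hik
    · exact srt_mem hjk
  · intro p _ _
    exact zr_pos _

/-- the exponents of the dyadic box -/
def ex (x : Fin m → ℤ) (a b : Fin m) : ℕ := Nat.log 2 (zr (x a - x b))

lemma ex_symm (x : Fin m → ℤ) (a b : Fin m) : ex x a b = ex x b a := by
  unfold ex
  rw [zr_sub_comm]

lemma ex_diag (x : Fin m → ℤ) (a : Fin m) : ex x a a = 0 := by
  unfold ex
  rw [sub_self]
  have h1 : zr 0 = 1 := by
    unfold zr rad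
    simp
  rw [h1]
  rfl

lemma ex_lt (x : Fin m → ℤ) (a b : Fin m) : zr (x a - x b) ≤ 2 ^ (ex x a b + 1) :=
  (Nat.lt_pow_succ_log_self (by norm_num) _).le

lemma ex_le (x : Fin m → ℤ) (a b : Fin m) : 2 ^ ex x a b ≤ zr (x a - x b) :=
  Nat.pow_log_le_self 2 (zr_pos _).ne'

lemma ex_sum (x : Fin m → ℤ) : 2 ^ (∑ p ∈ prs m, ex x p.1 p.2) ≤ pr x := by
  rw [← Finset.prod_pow_eq_pow_sum]
  exact Finset.prod_le_prod' fun p _ => ex_le x _ _

/-- the three points form an exceptional triple -/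
def Et (M : ℕ) (x : Fin m → ℤ) (i j k : Fin m) : Prop :=
  zr (U (yy i j k x)) ^ M ≤ Cc (yy i j k x)

lemma yy_swap {i j k : Fin m} {x : Fin m → ℤ} (h : Cf x) (hij : i ≠ j) :
    yy j i k x = -1 - yy i j k x := by
  unfold yy
  have h1 : ((x i - x j : ℤ) : ℚ) ≠ 0 := by exact_mod_cast df_ne h hij
  have h2 : ((x j - x i : ℤ) : ℚ) ≠ 0 := by exact_mod_cast df_ne h hij.symm
  rw [div_eq_iff h2, sub_mul, div_mul_eq_mul_div, eq_sub_iff_add_eq, ← eq_sub_iff_add_eq', div_eq_iff h1]
  push_cast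
  ring

lemma Et_swap {M : ℕ} {i j k : Fin m} {x : Fin m → ℤ} (h : Cf x) (hij : i ≠ j) :
    Et M x i j k ↔ Et M x j i k := by
  unfold Et
  rw [yy_swap h hij, U_neg, Cc_neg]

open Classical in
/-- the weights -/
noncomputable def wt (M : ℕ) (x : Fin m → ℤ) (i j k : Fin m) : ℝ :=
  if i ≠ j ∧ i ≠ k ∧ j ≠ k then (if Et M x i j k then 1 / 2 else 1) else 0

lemma bd_le (E : Prop) [Decidable E] (B e : ℕ) (hB : B ≤ 2 ^ (e + 1)) :
    bd E B ≤ 2 * (2 : ℝ) ^ ((if E then (1 / 2 : ℝ) else 1) * e) := by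
  have h1 : (B : ℝ) ≤ 2 ^ (e + 1) := by exact_mod_cast hB
  unfold bd
  split_ifs
  · calc Real.sqrt B ≤ Real.sqrt (2 ^ (e + 1)) := Real.sqrt_le_sqrt h1
      _ = (2 : ℝ) ^ (((e : ℝ) + 1) * (1 / 2)) := by
          rw [Real.sqrt_eq_rpow, ← Real.rpow_natCast, ← Real.rpow_mul (by norm_num)]
          push_cast
          rfl
      _ ≤ (2 : ℝ) ^ (1 + 1 / 2 * (e : ℝ)) := by
          apply Real.rpow_le_rpow_of_exponent_le (by norm_num)
          nlinarith
      _ = 2 * (2 : ℝ) ^ (1 / 2 * (e : ℝ)) := by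
          rw [Real.rpow_add (by norm_num), Real.rpow_one]
  · rw [one_mul, Real.rpow_natCast]
    calc (B : ℝ) ≤ 2 ^ (e + 1) := h1
      _ = _ := by rw [pow_succ]; ring

open Classical in
/-- **the number of the configurations** -/
theorem cnt (hm : 3 ≤ m) (ε : ℝ) (hε : 0 < ε) : ∃ M : ℕ, ∃ C : ℝ, 1 ≤ M ∧ 0 < C ∧
    ∀ X : ℕ, 1 ≤ X → ∀ W : ℝ, ∀ Q : Finset (Fin m → ℤ),
    (∀ x ∈ Q, Cf x ∧ pr x ≤ X ∧ ∀ i k, i ≠ k → ∑ j, wt M x i j k ≤ W) →
    (Q.card : ℝ) ≤ C * (X : ℝ) ^ (2 * (1 + W) / (m * (m - 1)) + ε) := by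
  obtain ⟨M, C, hM, hC, hbox⟩ := box m (ε / 2) (by positivity)
  obtain ⟨D, hD, hlog⟩ := log_pow_le (m * m) (ε / 2) (by positivity)
  refine ⟨M, D * 2 ^ (m ^ 3) * (C * 8 ^ (ε / 2) * 2 ^ m), hM, by positivity, ?_⟩
  intro X hX W Q hQ
  have hX1 : (1 : ℝ) ≤ X := by exact_mod_cast hX
  have hX0 : (0 : ℝ) < X := by linarith
  have hm3 : (3 : ℝ) ≤ m := by exact_mod_cast hm
  obtain ⟨θ, hθ⟩ : ∃ θ : ℝ, θ = 2 * (1 + W) / (m * (m - 1)) := ⟨_, rfl⟩
  rw [← hθ]
  obtain ⟨F, hF⟩ : ∃ F : ℝ, F = C * ((8 * X : ℕ) : ℝ) ^ (ε / 2) * (2 ^ m * (X : ℝ) ^ θ) := ⟨_, rfl⟩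
  have hF0 : 0 ≤ F := by rw [hF]; positivity
  obtain ⟨g, hg⟩ : ∃ g : (Fin m → ℤ) → (Fin m → Fin m → ℕ) × Finset (Fin m × Fin m × Fin m),
      g = fun x => (ex x, univ.filter fun t => Et M x t.1 t.2.1 t.2.2) := ⟨_, rfl⟩
  obtain ⟨G, hG⟩ : ∃ G : Finset ((Fin m → Fin m → ℕ) × Finset (Fin m × Fin m × Fin m)),
      G = (Fintype.piFinset fun _ : Fin m => Fintype.piFinset fun _ : Fin m =>
        range (Nat.log 2 X + 1)) ×ˢ univ := ⟨_, rfl⟩
  have hmap : ∀ x ∈ Q, g x ∈ G := by
    intro x hx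
    rw [hg, hG, mem_product]
    refine ⟨?_, mem_univ _⟩
    simp only [Fintype.mem_piFinset, mem_range]
    intro a b
    rw [Nat.lt_succ_iff]
    by_cases hab : a = b
    · rw [hab, ex_diag]
      exact Nat.zero_le _
    · exact Nat.log_mono_right ((zr_le_pr x hab).trans (hQ x hx).2.1)
  have hGc : (G.card : ℝ) ≤ D * (X : ℝ) ^ (ε / 2) * 2 ^ (m ^ 3) := by
    have h1 : G.card = (Nat.log 2 X + 1) ^ (m * m) * 2 ^ (m ^ 3) := by
      rw [hG, Finset.card_product, Fintype.card_piFinset]
      simp only [Fintype.card_piFinset, Finset.card_range, Finset.prod_const, Finset.card_univ,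
        Fintype.card_fin, Fintype.card_finset, Fintype.card_prod]
      rw [← pow_mul]
      congr 2
      ring
    rw [h1]
    push_cast
    apply mul_le_mul_of_nonneg_right _ (by positivity)
    have h2 := hlog X hX
    push_cast at h2
    exact h2
  have hfib : ∀ b ∈ G, (((Q.filter fun x => g x = b).card : ℕ) : ℝ) ≤ F := by
    intro b hb
    rcases (Q.filter fun x => g x = b).eq_empty_or_nonempty with h0 | ⟨z, hz⟩
    · rw [h0, Finset.card_empty, Nat.cast_zero]
      exact hF0
    rw [mem_filter] at hz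
    obtain ⟨hzQ, hzb⟩ := hz
    obtain ⟨cz, pz, wz⟩ := hQ z hzQ
    -- the pair
    obtain ⟨i, j, hij, hcost⟩ := avg (by omega) (fun a b => (ex z a b : ℝ)) (fun _ _ => Nat.cast_nonneg _)
      (fun a => by rw [ex_diag]; norm_num) (wt M z) (by
        intro a b c
        unfold wt
        split_ifs <;> norm_num) (by
        intro a b c
        unfold wt
        by_cases hab : a = b
        · rw [hab]
        · rw [Et_swap cz hab]
          have : (a ≠ b ∧ a ≠ c ∧ b ≠ c) ↔ (b ≠ a ∧ b ≠ c ∧ a ≠ c) := by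
            constructor
            · rintro ⟨h1, h2, h3⟩
              exact ⟨h1.symm, h3, h2⟩
            · rintro ⟨h1, h2, h3⟩
              exact ⟨h1.symm, h3, h2⟩
          by_cases h5 : a ≠ b ∧ a ≠ c ∧ b ≠ c
          · rw [if_pos h5, if_pos (this.1 h5)]
          · rw [if_neg h5, if_neg fun h => h5 (this.2 h)]) W wz
    rw [dbl (fun a b => (ex z a b : ℝ)) (fun a b => by rw [ex_symm])
      (fun a => by rw [ex_diag]; norm_num)] at hcost
    -- the box
    have hR : ∀ x ∈ Q.filter fun x => g x = b, x ∈ Q ∧ ex x = ex z ∧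
        ∀ t : Fin m × Fin m × Fin m, Et M z t.1 t.2.1 t.2.2 → Et M x t.1 t.2.1 t.2.2 := by
      intro x hx
      rw [mem_filter] at hx
      obtain ⟨hxQ, hxb⟩ := hx
      have h1 : g x = g z := hxb.trans hzb.symm
      rw [hg, Prod.mk.injEq] at h1
      refine ⟨hxQ, h1.1, fun t ht => ?_⟩
      have h2 : t ∈ univ.filter fun t => Et M z t.1 t.2.1 t.2.2 := mem_filter.2 ⟨mem_univ _, ht⟩
      rw [← h1.2, mem_filter] at h2
      exact h2.2
    have h8 : ∀ {a b : Fin m}, a ≠ b → 2 ^ (ex z a b + 1) ≤ 2 * zr (z a - z b) := by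
      intro a b _
      rw [pow_succ]
      have := ex_le z a b
      omega
    have hb1 := hbox (8 * X) (by omega) (fun a b => 2 ^ (ex z a b + 1)) (fun _ _ => Nat.one_le_two_pow)
      i j hij (by
        have h1 := h8 hij
        have h2 := (zr_le_pr z hij).trans pz
        omega) (by
        intro k hki hkj
        have h1 := h8 hij
        have h2 := h8 (Ne.symm hki)
        have h3 := h8 (Ne.symm hkj)
        calc 2 ^ (ex z i j + 1) * 2 ^ (ex z i k + 1) * 2 ^ (ex z j k + 1) ≤
            (2 * zr (z i - z j)) * (2 * zr (z i - z k)) * (2 * zr (z j - z k)) :=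
              Nat.mul_le_mul (Nat.mul_le_mul h1 h2) h3
          _ = 8 * (zr (z i - z j) * zr (z i - z k) * zr (z j - z k)) := by ring
          _ ≤ 8 * X := Nat.mul_le_mul_left _ ((three_le_pr z hij (Ne.symm hki) (Ne.symm hkj)).trans pz))
      (univ.filter fun k => Et M z i j k) (Q.filter fun x => g x = b) (by
        intro x hx
        obtain ⟨k1, k2, k3⟩ := hR x hx
        refine ⟨(hQ x k1).1, ?_, ?_⟩
        · intro a b
          have := ex_lt x a b
          rw [k2] at this
          exact this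
        · intro k hk _ _
          rw [mem_filter] at hk
          exact k3 (i, j, k) hk.2)
    refine hb1.trans ?_
    rw [hF]
    apply mul_le_mul_of_nonneg_left _ (by positivity)
    -- the product
    have hprod : ∏ k ∈ univ.filter (fun k => k ≠ i ∧ k ≠ j),
        bd (k ∈ univ.filter fun k => Et M z i j k) (min (2 ^ (ex z i k + 1)) (2 ^ (ex z j k + 1))) ≤
        ∏ k ∈ univ.filter (fun k => k ≠ i ∧ k ≠ j),
        (2 * (2 : ℝ) ^ (wt M z i j k * min (ex z i k : ℝ) (ex z j k))) := by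
      apply Finset.prod_le_prod
      · intro k _
        unfold bd
        split_ifs <;> positivity
      · intro k hk
        rw [mem_filter] at hk
        have h1 := bd_le (k ∈ univ.filter fun k => Et M z i j k)
          (min (2 ^ (ex z i k + 1)) (2 ^ (ex z j k + 1))) (min (ex z i k) (ex z j k)) (by
            rcases le_total (ex z i k) (ex z j k) with h | h
            · rw [min_eq_left h]
              exact min_le_left _ _
            · rw [min_eq_right h]
              exact min_le_right _ _)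
        have hw : wt M z i j k =
            if k ∈ univ.filter fun k => Et M z i j k then (1 / 2 : ℝ) else 1 := by
          unfold wt
          rw [if_pos ⟨hij, Ne.symm hk.2.1, Ne.symm hk.2.2⟩]
          by_cases h5 : Et M z i j k
          · have h6 : k ∈ univ.filter fun k => Et M z i j k := by simpa using h5
            rw [if_pos h5, if_pos h6]
          · have h6 : k ∉ univ.filter fun k => Et M z i j k := by simpa using h5
            rw [if_neg h5, if_neg h6]
        rw [hw]
        rw [Nat.cast_min] at h1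
        exact h1
    have hcard : (univ.filter fun k : Fin m => k ≠ i ∧ k ≠ j).card + 1 ≤ m := by
      have h1 : insert i (univ.filter fun k : Fin m => k ≠ i ∧ k ≠ j) ⊆ univ := Finset.subset_univ _
      have h2 := card_le_card h1
      rw [Finset.card_insert_of_notMem (by
        rw [mem_filter]
        exact fun h => h.2.1 rfl), Finset.card_univ, Fintype.card_fin] at h2
      exact h2
    have hsum : ∑ k ∈ univ.filter (fun k => k ≠ i ∧ k ≠ j), wt M z i j k * min (ex z i k : ℝ) (ex z j k)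
        ≤ ∑ k, wt M z i j k * min (ex z i k : ℝ) (ex z j k) := by
      apply Finset.sum_le_sum_of_subset_of_nonneg (Finset.subset_univ _)
      intro k _ _
      apply mul_nonneg
      · unfold wt
        split_ifs <;> norm_num
      · positivity
    calc ((2 ^ (ex z i j + 1) : ℕ) : ℝ) * ∏ k ∈ univ.filter (fun k => k ≠ i ∧ k ≠ j),
        bd (k ∈ univ.filter fun k => Et M z i j k) (min (2 ^ (ex z i k + 1)) (2 ^ (ex z j k + 1)))
        ≤ ((2 ^ (ex z i j + 1) : ℕ) : ℝ) * ∏ k ∈ univ.filter (fun k => k ≠ i ∧ k ≠ j),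
          (2 * (2 : ℝ) ^ (wt M z i j k * min (ex z i k : ℝ) (ex z j k))) :=
          mul_le_mul_of_nonneg_left hprod (Nat.cast_nonneg _)
      _ = 2 ^ ((univ.filter fun k : Fin m => k ≠ i ∧ k ≠ j).card + 1) *
          (2 : ℝ) ^ ((ex z i j : ℝ) + ∑ k ∈ univ.filter (fun k => k ≠ i ∧ k ≠ j),
            wt M z i j k * min (ex z i k : ℝ) (ex z j k)) := by
          rw [Finset.prod_mul_distrib, Finset.prod_const, ← Real.rpow_sum_of_pos (by norm_num),
            Real.rpow_add (by norm_num), Real.rpow_natCast]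
          push_cast
          ring
      _ ≤ 2 ^ m * (X : ℝ) ^ θ := by
          apply mul_le_mul (pow_le_pow_right₀ (by norm_num) hcard) _ (by positivity) (by positivity)
          obtain ⟨T, hT⟩ : ∃ T : ℕ, T = ∑ p ∈ prs m, ex z p.1 p.2 := ⟨_, rfl⟩
          have hTX : (2 : ℝ) ^ (T : ℝ) ≤ X := by
            rw [Real.rpow_natCast, hT]
            exact_mod_cast (ex_sum z).trans pz
          have hcT : (ex z i j : ℝ) + ∑ k ∈ univ.filter (fun k => k ≠ i ∧ k ≠ j),
              wt M z i j k * min (ex z i k : ℝ) (ex z j k) ≤ T * θ := by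
            have h1 : (∑ p ∈ prs m, (ex z p.1 p.2 : ℝ)) = T := by
              rw [hT]
              push_cast
              rfl
            rw [h1] at hcost
            rw [hθ]
            calc _ ≤ _ := add_le_add le_rfl hsum
              _ ≤ _ := hcost
              _ = _ := by ring
          calc (2 : ℝ) ^ ((ex z i j : ℝ) + ∑ k ∈ univ.filter (fun k => k ≠ i ∧ k ≠ j),
              wt M z i j k * min (ex z i k : ℝ) (ex z j k)) ≤ (2 : ℝ) ^ ((T : ℝ) * θ) :=
                Real.rpow_le_rpow_of_exponent_le (by norm_num) hcT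
            _ = ((2 : ℝ) ^ (T : ℝ)) ^ θ := Real.rpow_mul (by norm_num) _ _
            _ ≤ (X : ℝ) ^ θ := by
                apply Real.rpow_le_rpow (by positivity) hTX
                rw [hθ]
                have hW0 : 0 ≤ W := by
                  refine le_trans ?_ (wz i j hij)
                  apply Finset.sum_nonneg
                  intro k _
                  unfold wt
                  split_ifs <;> norm_num
                have : (0 : ℝ) ≤ m - 1 := by linarith
                positivity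
  have hsum : Q.card = ∑ b ∈ G, (Q.filter fun x => g x = b).card :=
    Finset.card_eq_sum_card_fiberwise hmap
  calc (Q.card : ℝ) = ∑ b ∈ G, (((Q.filter fun x => g x = b).card : ℕ) : ℝ) := by
        rw [hsum]; push_cast; rfl
    _ ≤ ∑ b ∈ G, F := Finset.sum_le_sum hfib
    _ = G.card * F := by rw [Finset.sum_const, nsmul_eq_mul]
    _ ≤ (D * (X : ℝ) ^ (ε / 2) * 2 ^ (m ^ 3)) * F := mul_le_mul_of_nonneg_right hGc hF0
    _ = D * 2 ^ (m ^ 3) * (C * 8 ^ (ε / 2) * 2 ^ m) *
        ((X : ℝ) ^ (ε / 2) * (X : ℝ) ^ (ε / 2) * (X : ℝ) ^ θ) := by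
        rw [hF]
        push_cast
        rw [Real.mul_rpow (by norm_num) hX0.le]
        ring
    _ = _ := by
        rw [← Real.rpow_add hX0, ← Real.rpow_add hX0]
        congr 2
        ring

end Pool.Agent.H583.PD
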