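import Pool.Agent.H583.PD.C

/-!
Configurations of integers with a bounded product of the radicals of the differences: all of them, those
of a large height, and those all of whose triples are exceptional.
-/

set_option autoImplicit false

namespace Pool.Agent.H583.PD

open Finset Pool.Agent.T2H20.ABC Pool.Agent.T2H20.AH Pool.Agent.H785R2.ABC Pool.Agent.H583.SF
  Pool.Agent.H583.WT Pool.Agent.H583.AL Pool.Agent.H583.AR Pool.Agent.H583.GD

variable {m : ℕ}

lemma U_inv {y : ℚ} (h : y ≠ 0) : zr (U y⁻¹) = zr (U y) := by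
  have h0 := Rat.num_ne_zero.2 h
  unfold U zr
  rw [Rat.num_inv, Rat.den_inv_of_ne_zero h]
  congr 1
  rcases lt_or_gt_of_ne h0 with h1 | h1
  · have h2 : (y.num.natAbs : ℤ) = -y.num := by omega
    rw [Int.sign_eq_neg_one_of_neg h1, h2, ← Int.natAbs_neg]
    congr 1
    ring
  · have h2 : (y.num.natAbs : ℤ) = y.num := by omega
    rw [Int.sign_eq_one_of_pos h1, h2]
    congr 1
    ring

lemma Cc_inv {y : ℚ} (h : y ≠ 0) : Cc y⁻¹ = Cc y := by
  have h0 := Rat.num_ne_zero.2 h
  unfold Cc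
  rw [Rat.num_inv, Rat.den_inv_of_ne_zero h]
  rcases lt_or_gt_of_ne h0 with h1 | h1
  · rw [Int.sign_eq_neg_one_of_neg h1]
    omega
  · rw [Int.sign_eq_one_of_pos h1]
    omega

lemma yy_inv {i j k : Fin m} {x : Fin m → ℤ} (h : Cf x) (hij : i ≠ j) (hik : i ≠ k) :
    yy i k j x = (yy i j k x)⁻¹ := by
  unfold yy
  have h1 : ((x i - x j : ℤ) : ℚ) ≠ 0 := by exact_mod_cast df_ne h hij
  have h2 : ((x i - x k : ℤ) : ℚ) ≠ 0 := by exact_mod_cast df_ne h hik
  have h3 : ((x k - x i : ℤ) : ℚ) ≠ 0 := by exact_mod_cast df_ne h hik.symm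
  rw [inv_div, div_eq_div_iff h2 h3]
  push_cast
  ring

lemma Et_swap' {M : ℕ} {i j k : Fin m} {x : Fin m → ℤ} (h : Cf x) (hij : i ≠ j) (hik : i ≠ k) :
    Et M x i j k ↔ Et M x i k j := by
  unfold Et
  rw [yy_inv h hij hik, U_inv (yy_ne0 h hij hik.symm), Cc_inv (yy_ne0 h hij hik.symm)]

/-- **if the ratios have small heights, the differences are small** -/
theorem height {x : Fin m → ℤ} (h : Cf x) {i j : Fin m} (hij : i ≠ j) {H : ℕ} (hH : 1 ≤ H)
    (hk : ∀ k, k ≠ i → k ≠ j → Cc (yy i j k x) ≤ H) (a b : Fin m) :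
    (x a - x b).natAbs ≤ 2 * H ^ (m + 1) := by
  classical
  have hm : 0 < m := lt_of_le_of_lt (Nat.zero_le _) i.2
  have x0 := h.zero ⟨0, hm⟩ rfl
  -- the heights of all ratios
  have hall : ∀ k, (yy i j k x).num.natAbs ≤ H ∧ (yy i j k x).den ≤ H := by
    intro k
    by_cases h1 : k = i
    · rw [h1, yy_i]
      simp [hH]
    by_cases h2 : k = j
    · rw [h2, yy_j h hij]
      have e1 : ((-1 : ℚ)).num = -1 := rfl
      have e2 : ((-1 : ℚ)).den = 1 := rfl
      rw [e1, e2]
      exact ⟨hH, hH⟩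
    · have h3 := hk k h1 h2
      exact ⟨le_trans ((le_max_left _ _).trans (le_max_left _ _)) h3,
        le_trans ((le_max_right _ _).trans (le_max_left _ _)) h3⟩
  obtain ⟨D, hD⟩ : ∃ D : ℕ, D = ∏ k, (yy i j k x).den := ⟨_, rfl⟩
  have hDH : D ≤ H ^ m := by
    rw [hD]
    calc ∏ k, (yy i j k x).den ≤ ∏ k : Fin m, H := Finset.prod_le_prod' fun k _ => (hall k).2
      _ = H ^ m := by rw [Finset.prod_const, Finset.card_univ, Fintype.card_fin]
  have hD0 : 0 < D := by
    rw [hD]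
    exact Finset.prod_pos fun k _ => (yy i j k x).den_pos
  -- the integral vector
  have hv : ∀ k, ∃ v : ℤ, (D : ℤ) * (x k - x i) = (x i - x j) * v := by
    intro k
    obtain ⟨c, h1, h2, -⟩ := yy_eq (k := k) h hij
    obtain ⟨t, ht⟩ : (yy i j k x).den ∣ D := by
      rw [hD]
      exact Finset.dvd_prod_of_mem _ (mem_univ k)
    refine ⟨t * (yy i j k x).num, ?_⟩
    rw [ht, h1, h2]
    push_cast
    ring
  choose v hv using hv
  have hvx : ∀ k, (D : ℤ) * x k = (x i - x j) * (v k - v ⟨0, hm⟩) := by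
    intro k
    have h1 := hv k
    have h2 := hv ⟨0, hm⟩
    rw [x0] at h2
    linear_combination h1 - h2
  have g1 : Finset.univ.gcd (fun k => (D : ℤ) * x k) = normalize (D : ℤ) := by
    rw [Finset.gcd_mul_left, h.gcd, mul_one]
  have g2 : Finset.univ.gcd (fun k => (D : ℤ) * x k) =
      normalize (x i - x j) * Finset.univ.gcd fun k => v k - v ⟨0, hm⟩ := by
    rw [← Finset.gcd_mul_left]
    congr 1
    funext k
    exact hvx k
  have hδ : (x i - x j).natAbs ≤ D := by
    have h1 : normalize (x i - x j) ∣ normalize (D : ℤ) := ⟨_, g1.symm.trans g2⟩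
    rw [normalize_dvd_iff, dvd_normalize_iff] at h1
    exact Nat.le_of_dvd hD0 (by
      have := Int.natAbs_dvd_natAbs.2 h1
      rwa [Int.natAbs_natCast] at this)
  have hki : ∀ k, (x k - x i).natAbs ≤ H ^ (m + 1) := by
    intro k
    obtain ⟨c, h1, h2, -⟩ := yy_eq (k := k) h hij
    have h3 : c.natAbs ≤ (x i - x j).natAbs := by
      rw [h2, Int.natAbs_mul, Int.natAbs_natCast]
      exact Nat.le_mul_of_pos_right _ (yy i j k x).den_pos
    rw [h1, Int.natAbs_mul]
    calc c.natAbs * (yy i j k x).num.natAbs ≤ H ^ m * H :=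
          Nat.mul_le_mul (h3.trans (hδ.trans hDH)) (hall k).1
      _ = _ := (pow_succ _ _).symm
  have h1 := hki a
  have h2 := hki b
  omega

/-- a sum of weights -/
lemma wt_sum (M : ℕ) (x : Fin m → ℤ) {i k : Fin m} (hik : i ≠ k) (A : Finset (Fin m))
    (hA : ∀ j ∈ A, i ≠ j ∧ j ≠ k ∧ Et M x i j k) :
    ∑ j, wt M x i j k ≤ (m : ℝ) - 2 - A.card / 2 := by
  classical
  have h1 : ∀ j, wt M x i j k ≤ 1 - (if j = i then 1 else 0) - (if j = k then 1 else 0) -
      (if j ∈ A then 1 / 2 else 0) := by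
    intro j
    unfold wt
    by_cases hji : j = i
    · have h2 : j ∉ A := fun h => (hA j h).1 hji.symm
      rw [if_neg (by rw [hji]; exact fun h => h.1 rfl), if_pos hji, if_neg h2,
        if_neg (fun h => hik (hji.symm.trans h))]
      norm_num
    by_cases hjk : j = k
    · have h2 : j ∉ A := fun h => (hA j h).2.1 hjk
      rw [if_neg (by rw [hjk]; exact fun h => h.2.2 rfl), if_neg hji, if_pos hjk, if_neg h2]
      norm_num
    rw [if_pos ⟨Ne.symm hji, hik, hjk⟩, if_neg hji, if_neg hjk]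
    by_cases hjA : j ∈ A
    · rw [if_pos (hA j hjA).2.2, if_pos hjA]
      norm_num
    · rw [if_neg hjA]
      split_ifs <;> norm_num
  refine (Finset.sum_le_sum fun j _ => h1 j).trans (le_of_eq ?_)
  rw [Finset.sum_sub_distrib, Finset.sum_sub_distrib, Finset.sum_sub_distrib]
  simp only [Finset.sum_const, Finset.card_univ, Fintype.card_fin, nsmul_eq_mul, mul_one,
    Finset.sum_ite_eq', Finset.mem_univ, if_true, Finset.sum_ite_mem, Finset.univ_inter]
  ring

/-- **all configurations, those of a large height and those all of whose triples are exceptional** -/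
theorem upper (hm : 3 ≤ m) (ε : ℝ) (hε : 0 < ε) : ∃ M : ℕ, ∃ C : ℝ, 1 ≤ M ∧ 0 < C ∧
    ∀ X : ℕ, 1 ≤ X → ∀ Q : Finset (Fin m → ℤ), (∀ x ∈ Q, Cf x ∧ pr x ≤ X) →
    ((Q.card : ℝ) ≤ C * (X : ℝ) ^ (2 / (m : ℝ) + ε)) ∧
    ((∀ x ∈ Q, ∃ a b, 2 * (X ^ M) ^ (m + 1) < (x a - x b).natAbs) →
      (Q.card : ℝ) ≤ C * (X : ℝ) ^ ((2 * m - 3) / ((m : ℝ) * (m - 1)) + ε)) ∧
    ((∀ x ∈ Q, ∀ i j k, i ≠ j → i ≠ k → j ≠ k → Et M x i j k) →
      (Q.card : ℝ) ≤ C * (X : ℝ) ^ (1 / ((m : ℝ) - 1) + ε)) := by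
  classical
  obtain ⟨M, C, hM, hC, h⟩ := cnt hm ε hε
  refine ⟨M, C, hM, hC, ?_⟩
  intro X hX Q hQ
  have hm3 : (3 : ℝ) ≤ m := by exact_mod_cast hm
  have hm0 : (m : ℝ) ≠ 0 := by linarith
  have hm1 : (m : ℝ) - 1 ≠ 0 := by linarith
  refine ⟨?_, ?_, ?_⟩
  · have h1 := h X hX (m - 2) Q (by
      intro x hx
      refine ⟨(hQ x hx).1, (hQ x hx).2, fun i k hik => ?_⟩
      have h2 := wt_sum M x hik ∅ (fun j hj => absurd hj (Finset.notMem_empty _))
      rw [Finset.card_empty, Nat.cast_zero, zero_div, sub_zero] at h2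
      exact h2)
    have h2 : 2 * (1 + ((m : ℝ) - 2)) / (m * (m - 1)) = 2 / (m : ℝ) := by
      field_simp
      ring
    rw [h2] at h1
    exact h1
  · intro hbig
    have h1 := h X hX (m - 2 - 1 / 2) Q (by
      intro x hx
      obtain ⟨c1, c2⟩ := hQ x hx
      refine ⟨c1, c2, fun i k hik => ?_⟩
      obtain ⟨a, b, hab⟩ := hbig x hx
      have h2 : ∃ j, j ≠ i ∧ j ≠ k ∧ X ^ M < Cc (yy i k j x) := by
        by_contra hcon
        push Not at hcon
        have h3 := height c1 hik (Nat.one_le_pow _ _ hX) hcon a b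
        omega
      obtain ⟨j, hji, hjk, hj⟩ := h2
      have h3 : Et M x i j k := by
        rw [Et_swap' c1 (Ne.symm hji) hik]
        unfold Et
        have h4 := (yy_facts c1 hik hji hjk).2.2.2
        have h5 := h4.trans ((three_le_pr x hik (Ne.symm hji) (Ne.symm hjk)).trans c2)
        exact ((Nat.pow_le_pow_left h5 M).trans_lt hj).le
      have h4 := wt_sum M x hik {j} (by
        intro l hl
        rw [mem_singleton] at hl
        rw [hl]
        exact ⟨Ne.symm hji, hjk, h3⟩)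
      rw [Finset.card_singleton, Nat.cast_one] at h4
      exact h4)
    have h2 : 2 * (1 + ((m : ℝ) - 2 - 1 / 2)) / (m * (m - 1)) = (2 * m - 3) / ((m : ℝ) * (m - 1)) := by
      congr 1
      ring
    rw [h2] at h1
    exact h1
  · intro hall
    have h1 := h X hX ((m - 2) / 2) Q (by
      intro x hx
      obtain ⟨c1, c2⟩ := hQ x hx
      refine ⟨c1, c2, fun i k hik => ?_⟩
      have h4 := wt_sum M x hik (univ.filter fun j => j ≠ i ∧ j ≠ k) (by
        intro j hj
        rw [mem_filter] at hj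
        exact ⟨Ne.symm hj.2.1, hj.2.2, hall x hx i j k (Ne.symm hj.2.1) hik hj.2.2⟩)
      have h5 : (univ.filter fun j : Fin m => j ≠ i ∧ j ≠ k).card + 2 = m := by
        have h6 : univ.filter (fun j : Fin m => j ≠ i ∧ j ≠ k) = univ \ {i, k} := by
          ext j
          simp [not_or]
        rw [h6, Finset.card_sdiff_of_subset (Finset.subset_univ _), Finset.card_pair hik,
          Finset.card_univ, Fintype.card_fin]
        omega
      have h6 : ((univ.filter fun j : Fin m => j ≠ i ∧ j ≠ k).card : ℝ) = m - 2 := by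
        have : ((univ.filter fun j : Fin m => j ≠ i ∧ j ≠ k).card : ℝ) + 2 = m := by exact_mod_cast h5
        linarith
      rw [h6] at h4
      linarith)
    have h2 : 2 * (1 + ((m : ℝ) - 2) / 2) / (m * (m - 1)) = 1 / ((m : ℝ) - 1) := by
      field_simp
      ring
    rw [h2] at h1
    exact h1

end Pool.Agent.H583.PD
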