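import Pool.Agent.H583.PD.D
import Pool.Agent.H583.GD.L

/-!
Configurations of integers with a bounded product of the radicals of the differences: a lower bound.
-/

set_option autoImplicit false

namespace Pool.Agent.H583.PD

open Finset Pool.Agent.T2H20.ABC Pool.Agent.T2H20.AH Pool.Agent.H785R2.ABC Pool.Agent.H583.SF
  Pool.Agent.H583.WT Pool.Agent.H583.AL Pool.Agent.H583.AR Pool.Agent.H583.GD

/-- the configuration `0, a, b, Y + s 0, 2 Y + s 1, ...` -/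
def cfg (n Y : ℕ) (t : (ℕ × ℕ) × (Fin n → ℕ)) : Fin (n + 3) → ℤ :=
  Fin.cons 0 (Fin.cons (t.1.1 : ℤ) (Fin.cons (t.1.2 : ℤ)
    fun i : Fin n => ((((i : ℕ) + 1) * Y + t.2 i : ℕ) : ℤ)))

lemma cfg_inj (n Y : ℕ) : Function.Injective (cfg n Y) := by
  intro s t h
  unfold cfg at h
  rw [Fin.cons_inj, Fin.cons_inj, Fin.cons_inj] at h
  obtain ⟨-, h1, h2, h3⟩ := h
  refine Prod.ext (Prod.ext (by exact_mod_cast h1) (by exact_mod_cast h2)) ?_
  funext i
  have h4 := congrFun h3 i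
  simp only [Nat.cast_inj] at h4
  omega

/-- the parameters -/
def par (n Y : ℕ) : Finset ((ℕ × ℕ) × (Fin n → ℕ)) :=
  ((Pool.Agent.TH867.SB.Lb.rect Y Y).filter fun z => z.1 ≠ z.2) ×ˢ
    Fintype.piFinset fun _ : Fin n => Icc 1 Y

lemma par_card (n : ℕ) {Y : ℕ} (hY : 3 ≤ Y) : (Y : ℝ) ^ (n + 2) / 8 ≤ (par n Y).card := by
  obtain ⟨R, hR⟩ : ∃ R, R = (Pool.Agent.TH867.SB.Lb.rect Y Y).filter fun z => z.1 ≠ z.2 :=
    ⟨_, rfl⟩
  have hR1 : (Y : ℝ) * Y / 4 - 1 ≤ R.card := by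
    have h1 := Pool.Agent.TH867.SB.Lb.rect_count Y Y
    have h2 : Pool.Agent.TH867.SB.Lb.rect Y Y ⊆ insert (1, 1) R := by
      intro z hz
      rw [mem_insert, hR, mem_filter]
      by_cases h : z.1 = z.2
      · left
        unfold Pool.Agent.TH867.SB.Lb.rect at hz
        rw [mem_filter] at hz
        have h3 := hz.2
        rw [← h, Nat.coprime_self] at h3
        exact Prod.ext h3 (h ▸ h3)
      · exact Or.inr ⟨hz, h⟩
    have h3 := (card_le_card h2).trans (card_insert_le _ _)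
    have h4 : ((Pool.Agent.TH867.SB.Lb.rect Y Y).card : ℝ) ≤ R.card + 1 := by exact_mod_cast h3
    linarith
  have hY3 : (3 : ℝ) ≤ Y := by exact_mod_cast hY
  have hc : (par n Y).card = R.card * Y ^ n := by
    unfold par
    rw [Finset.card_product, ← hR, Fintype.card_piFinset]
    simp
  rw [hc]
  push_cast
  have h1 : (Y : ℝ) * Y / 8 ≤ R.card := by nlinarith
  calc (Y : ℝ) ^ (n + 2) / 8 = (Y : ℝ) * Y / 8 * Y ^ n := by ring
    _ ≤ R.card * Y ^ n := mul_le_mul_of_nonneg_right h1 (by positivity)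

lemma cfg_val {n Y : ℕ} {t : (ℕ × ℕ) × (Fin n → ℕ)} (ht : t ∈ par n Y) (i : Fin (n + 3)) :
    0 ≤ cfg n Y t i ∧ cfg n Y t i ≤ ((n + 3) * Y : ℕ) := by
  unfold par at ht
  rw [mem_product, mem_filter] at ht
  unfold Pool.Agent.TH867.SB.Lb.rect at ht
  rw [mem_filter, mem_product, mem_Ioc, mem_Ioc, Fintype.mem_piFinset] at ht
  obtain ⟨⟨⟨⟨⟨a1, a2⟩, a3, a4⟩, a5⟩, a6⟩, a7⟩ := ht
  unfold cfg
  refine Fin.cases ?_ (fun i => ?_) i
  · rw [Fin.cons_zero]
    exact ⟨le_rfl, by positivity⟩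
  rw [Fin.cons_succ]
  refine Fin.cases ?_ (fun i => ?_) i
  · rw [Fin.cons_zero]
    refine ⟨by positivity, ?_⟩
    have : t.1.1 ≤ (n + 3) * Y := a2.trans (Nat.le_mul_of_pos_left _ (by omega))
    exact_mod_cast this
  rw [Fin.cons_succ]
  refine Fin.cases ?_ (fun i => ?_) i
  · rw [Fin.cons_zero]
    refine ⟨by positivity, ?_⟩
    have : t.1.2 ≤ (n + 3) * Y := a4.trans (Nat.le_mul_of_pos_left _ (by omega))
    exact_mod_cast this
  rw [Fin.cons_succ]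
  refine ⟨by positivity, ?_⟩
  have h1 := a7 i
  rw [mem_Icc] at h1
  have h2 := i.2
  have h3 : ((i : ℕ) + 1) * Y ≤ n * Y := Nat.mul_le_mul_right _ (by omega)
  have h4 : ((i : ℕ) + 1) * Y + t.2 i ≤ (n + 3) * Y := by nlinarith [h1.2]
  exact_mod_cast h4

lemma cfg_Cf {n Y : ℕ} {t : (ℕ × ℕ) × (Fin n → ℕ)} (ht : t ∈ par n Y) : Cf (cfg n Y t) := by
  unfold par at ht
  rw [mem_product, mem_filter] at ht
  unfold Pool.Agent.TH867.SB.Lb.rect at ht
  rw [mem_filter, mem_product, mem_Ioc, mem_Ioc, Fintype.mem_piFinset] at ht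
  obtain ⟨⟨⟨⟨⟨a1, a2⟩, a3, a4⟩, a5⟩, a6⟩, a7⟩ := ht
  refine ⟨?_, ?_, ?_⟩
  · unfold cfg
    rw [Fin.cons_injective_iff, Fin.cons_injective_iff, Fin.cons_injective_iff]
    have hbig : ∀ i : Fin n, (Y : ℤ) < ((((i : ℕ) + 1) * Y + t.2 i : ℕ) : ℤ) := by
      intro i
      have h1 := a7 i
      rw [mem_Icc] at h1
      have h2 : Y ≤ ((i : ℕ) + 1) * Y := Nat.le_mul_of_pos_left _ (by omega)
      have h3 : Y < ((i : ℕ) + 1) * Y + t.2 i := by omega
      exact_mod_cast h3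
    refine ⟨?_, ?_, ?_, ?_⟩
    · rintro ⟨i, hi⟩
      revert hi
      refine Fin.cases ?_ (fun i => ?_) i
      · rw [Fin.cons_zero]
        intro h
        have : t.1.1 = 0 := by exact_mod_cast h
        omega
      rw [Fin.cons_succ]
      refine Fin.cases ?_ (fun i => ?_) i
      · rw [Fin.cons_zero]
        intro h
        have : t.1.2 = 0 := by exact_mod_cast h
        omega
      rw [Fin.cons_succ]
      intro h
      have := hbig i
      omega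
    · rintro ⟨i, hi⟩
      revert hi
      refine Fin.cases ?_ (fun i => ?_) i
      · rw [Fin.cons_zero]
        intro h
        exact a6 (by exact_mod_cast h.symm)
      rw [Fin.cons_succ]
      intro h
      have := hbig i
      omega
    · rintro ⟨i, hi⟩
      have := hbig i
      simp only at hi
      rw [hi] at this
      have h4 : (t.1.2 : ℤ) ≤ Y := by exact_mod_cast a4
      omega
    · intro i k hik
      simp only [Nat.cast_inj] at hik
      have h1 := a7 i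
      have h2 := a7 k
      rw [mem_Icc] at h1 h2
      by_contra hne
      rcases lt_or_gt_of_ne (fun h => hne (Fin.ext h) : (i : ℕ) ≠ k) with h | h
      · have : ((i : ℕ) + 1 + 1) * Y ≤ ((k : ℕ) + 1) * Y := Nat.mul_le_mul_right _ (by omega)
        nlinarith [h1.1, h1.2, h2.1, h2.2]
      · have : ((k : ℕ) + 1 + 1) * Y ≤ ((i : ℕ) + 1) * Y := Nat.mul_le_mul_right _ (by omega)
        nlinarith [h1.1, h1.2, h2.1, h2.2]
  · intro i hi
    have : i = 0 := Fin.ext hi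
    rw [this]
    rfl
  · have h1 : Finset.univ.gcd (cfg n Y t) ∣ (t.1.1 : ℤ) :=
      Finset.gcd_dvd (f := cfg n Y t) (mem_univ (1 : Fin (n + 3)))
    have h2 : Finset.univ.gcd (cfg n Y t) ∣ (t.1.2 : ℤ) :=
      Finset.gcd_dvd (f := cfg n Y t) (mem_univ (2 : Fin (n + 3)))
    have h3 : IsCoprime (t.1.1 : ℤ) (t.1.2 : ℤ) := Nat.isCoprime_iff_coprime.2 a5
    have h4 := h3.isUnit_of_dvd' h1 h2
    have h5 := Finset.normalize_gcd (s := univ) (f := cfg n Y t)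
    rw [← h5]
    exact normalize_eq_one.2 h4

lemma zr_le_natAbs {v : ℤ} (h : v ≠ 0) : zr v ≤ v.natAbs := rad_le_self (Int.natAbs_ne_zero.2 h)

lemma prs_card (m : ℕ) : 2 * (prs m).card + m = m * m := by
  have h := dbl (m := m) (fun i j => if i = j then 0 else 1) (fun i j => by simp only [eq_comm]) (fun i => by simp)
  have h1 : ∑ p ∈ prs m, (if p.1 = p.2 then (0 : ℝ) else 1) = (prs m).card := by
    rw [Finset.sum_congr rfl (g := fun _ => (1 : ℝ))]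
    · simp
    · intro p hp
      unfold prs at hp
      rw [mem_filter] at hp
      rw [if_neg hp.2.ne]
  rw [h1] at h
  have h2 : ∑ i : Fin m, ∑ j : Fin m, (if i = j then (0 : ℝ) else 1) = (m : ℝ) * m - m := by
    have h3 : ∀ i : Fin m, ∑ j : Fin m, (if i = j then (0 : ℝ) else 1) = m - 1 := by
      intro i
      have h4 : ∀ j : Fin m, (if i = j then (0 : ℝ) else 1) = 1 - if i = j then 1 else 0 := by
        intro j
        split_ifs <;> norm_num
      rw [Finset.sum_congr rfl fun j _ => h4 j, Finset.sum_sub_distrib, Finset.sum_ite_eq]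
      simp
    rw [Finset.sum_congr rfl fun i _ => h3 i, Finset.sum_const, Finset.card_univ, Fintype.card_fin,
      nsmul_eq_mul]
    ring
  rw [h2] at h
  have h3 : (2 : ℝ) * (prs m).card + m = m * m := by linarith
  exact_mod_cast h3

lemma cfg_pr {n Y : ℕ} {t : (ℕ × ℕ) × (Fin n → ℕ)} (ht : t ∈ par n Y) :
    pr (cfg n Y t) ≤ ((n + 3) * Y) ^ (prs (n + 3)).card := by
  unfold pr
  apply Finset.prod_le_pow_card
  intro p hp
  have h1 := cfg_val ht p.1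
  have h2 := cfg_val ht p.2
  have h3 : cfg n Y t p.1 - cfg n Y t p.2 ≠ 0 := by
    unfold prs at hp
    rw [mem_filter] at hp
    exact df_ne (cfg_Cf ht) hp.2.ne
  refine (zr_le_natAbs h3).trans ?_
  omega

/-- **many configurations** -/
theorem lower {m : ℕ} (hm : 3 ≤ m) : ∃ c X₀ : ℝ, 0 < c ∧ 1 ≤ X₀ ∧ ∀ X : ℝ, X₀ ≤ X →
    ∃ Q : Finset (Fin m → ℤ), (∀ x ∈ Q, Cf x ∧ (pr x : ℝ) ≤ X) ∧
      c * X ^ (2 / (m : ℝ)) ≤ (Q.card : ℝ) := by
  classical
  obtain ⟨n, rfl⟩ : ∃ n, m = n + 3 := ⟨m - 3, by omega⟩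
  obtain ⟨N, hN⟩ : ∃ N, N = (prs (n + 3)).card := ⟨_, rfl⟩
  have hN2 := prs_card (n + 3)
  rw [← hN] at hN2
  have hN0 : 0 < N := by nlinarith
  have hNr : (0 : ℝ) < N := by exact_mod_cast hN0
  have hm0 : (0 : ℝ) < ((n + 3 : ℕ) : ℝ) := by positivity
  refine ⟨1 / (8 * (2 * ((n + 3 : ℕ) : ℝ)) ^ (n + 2)), (3 * ((n + 3 : ℕ) : ℝ)) ^ N, by positivity, ?_, ?_⟩
  · apply one_le_pow₀
    have : (3 : ℝ) ≤ ((n + 3 : ℕ) : ℝ) := by push_cast; linarith [Nat.cast_nonneg (α := ℝ) n]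
    linarith
  intro X hX
  have hX0 : 0 < X := lt_of_lt_of_le (by positivity) hX
  obtain ⟨Z, hZ⟩ : ∃ Z : ℝ, Z = X ^ (1 / (N : ℝ)) := ⟨_, rfl⟩
  have hZ0 : 0 < Z := by rw [hZ]; positivity
  have hZN : Z ^ N = X := by
    rw [hZ, ← Real.rpow_natCast, ← Real.rpow_mul hX0.le, one_div, inv_mul_cancel₀ hNr.ne',
      Real.rpow_one]
  have hZ3 : 3 * ((n + 3 : ℕ) : ℝ) ≤ Z := by
    apply le_of_pow_le_pow_left₀ hN0.ne' hZ0.le
    rw [hZN]
    exact hX
  obtain ⟨Y, hY⟩ : ∃ Y : ℕ, Y = ⌊Z / ((n + 3 : ℕ) : ℝ)⌋₊ := ⟨_, rfl⟩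
  have hq3 : 3 ≤ Z / ((n + 3 : ℕ) : ℝ) := by
    rw [le_div_iff₀ hm0]
    exact hZ3
  have hY3 : 3 ≤ Y := by
    rw [hY]
    exact Nat.le_floor (by exact_mod_cast hq3)
  have hY1 : (Y : ℝ) ≤ Z / ((n + 3 : ℕ) : ℝ) := by
    rw [hY]
    exact Nat.floor_le (by positivity)
  have hY2 : Z / ((n + 3 : ℕ) : ℝ) / 2 ≤ Y := by
    have h1 : Z / ((n + 3 : ℕ) : ℝ) < Y + 1 := by
      rw [hY]
      exact Nat.lt_floor_add_one _
    linarith
  refine ⟨(par n Y).image (cfg n Y), ?_, ?_⟩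
  · intro x hx
    rw [mem_image] at hx
    obtain ⟨t, ht, rfl⟩ := hx
    refine ⟨cfg_Cf ht, ?_⟩
    have h1 := cfg_pr ht
    rw [← hN] at h1
    calc (pr (cfg n Y t) : ℝ) ≤ ((((n + 3) * Y) ^ N : ℕ) : ℝ) := by exact_mod_cast h1
      _ = (((n + 3 : ℕ) : ℝ) * Y) ^ N := by push_cast; ring
      _ ≤ Z ^ N := by
          apply pow_le_pow_left₀ (by positivity)
          rw [le_div_iff₀ hm0] at hY1
          linarith
      _ = X := hZN
  · rw [Finset.card_image_of_injective _ (cfg_inj n Y)]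
    refine le_trans ?_ (par_card n hY3)
    have h1 : X ^ (2 / ((n + 3 : ℕ) : ℝ)) = Z ^ (n + 2) := by
      rw [hZ, ← Real.rpow_natCast, ← Real.rpow_mul hX0.le]
      congr 1
      have h2 : (2 : ℝ) * N = ((n + 3 : ℕ) : ℝ) * ((n : ℝ) + 2) := by
        have h3 : (2 : ℝ) * N + ((n + 3 : ℕ) : ℝ) = ((n + 3 : ℕ) : ℝ) * ((n + 3 : ℕ) : ℝ) := by
          exact_mod_cast hN2
        have h4 : ((n + 3 : ℕ) : ℝ) = (n : ℝ) + 3 := by push_cast; ring
        rw [h4] at h3 ⊢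
        linarith
      rw [div_eq_iff hm0.ne']
      push_cast
      rw [div_mul_eq_mul_div, div_mul_eq_mul_div, eq_div_iff hNr.ne']
      push_cast at h2
      linarith
    rw [h1]
    have h2 : (Z / ((n + 3 : ℕ) : ℝ) / 2) ^ (n + 2) ≤ (Y : ℝ) ^ (n + 2) :=
      pow_le_pow_left₀ (by positivity) hY2 _
    have h3 : (Z / ((n + 3 : ℕ) : ℝ) / 2) ^ (n + 2) = Z ^ (n + 2) / (2 * ((n + 3 : ℕ) : ℝ)) ^ (n + 2) := by
      rw [div_div, _root_.div_pow, mul_comm ((n + 3 : ℕ) : ℝ) 2]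
    rw [h3] at h2
    calc 1 / (8 * (2 * ((n + 3 : ℕ) : ℝ)) ^ (n + 2)) * Z ^ (n + 2) =
        Z ^ (n + 2) / (2 * ((n + 3 : ℕ) : ℝ)) ^ (n + 2) / 8 := by
          field_simp
      _ ≤ _ := by linarith

end Pool.Agent.H583.PD
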