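import Pool.Agent.H583.PD.D

/-!
Configurations of integers: a box, one of the triples of which is counted separately.
-/

set_option autoImplicit false

namespace Pool.Agent.H583.PD

open Finset Pool.Agent.T2H20.ABC Pool.Agent.T2H20.AH Pool.Agent.H785R2.ABC Pool.Agent.H583.SF
  Pool.Agent.H583.WT Pool.Agent.H583.AL Pool.Agent.H583.AR Pool.Agent.H583.GD

variable {m : ℕ}

lemma comb (R : Finset (Fin m → ℤ)) (hR : ∀ x ∈ R, Cf x) {i j : Fin m} (hij : i ≠ j) :
    R.card ≤ 2 * ∏ k, (R.image (yy i j k)).card := by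
  classical
  have h2 : R.card ≤ 2 * (R.image fun x k => yy i j k x).card := by
    apply Finset.card_le_mul_card_image
    intro t ht
    rw [mem_image] at ht
    obtain ⟨x, hx, rfl⟩ := ht
    have hsub : (R.filter fun z => (fun k => yy i j k z) = fun k => yy i j k x) ⊆ {x, -x} := by
      intro z hz
      rw [mem_filter] at hz
      rw [mem_insert, mem_singleton]
      exact yy_inj (hR x hx) (hR z hz.1) hij fun k => (congrFun hz.2 k).symm
    exact (card_le_card hsub).trans Finset.card_le_two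
  have h3 : (R.image fun x k => yy i j k x) ⊆ Fintype.piFinset fun k => R.image (yy i j k) := by
    intro t ht
    rw [mem_image] at ht
    obtain ⟨x, hx, rfl⟩ := ht
    rw [Fintype.mem_piFinset]
    intro k
    exact mem_image_of_mem _ hx
  have h4 := card_le_card h3
  rw [Fintype.card_piFinset] at h4
  exact h2.trans (Nat.mul_le_mul_left _ h4)

open Classical in
/-- **configurations in a box, one triple apart** -/
theorem box2 (m : ℕ) (ε : ℝ) (hε : 0 < ε) : ∃ M : ℕ, ∃ C : ℝ, 1 ≤ M ∧ 0 < C ∧ ∀ X : ℕ, 1 ≤ X →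
    ∀ Z : Fin m → Fin m → ℕ, (∀ a b, 1 ≤ Z a b) → ∀ i j l : Fin m, i ≠ j → l ≠ i → l ≠ j →
    Z i j ≤ X → (∀ k, k ≠ i → k ≠ j → Z i j * Z i k * Z j k ≤ X) → ∀ K : Finset (Fin m),
    ∀ P : ℕ, 1 ≤ P → ∀ N : ℝ, ∀ Q : Finset (Fin m → ℤ), (∀ x ∈ Q, Cf x ∧
      (∀ a b, zr (x a - x b) ≤ Z a b) ∧ P ≤ zr (yy i j l x).den ∧
      ∀ k ∈ K, k ≠ i → k ≠ j → zr (U (yy i j k x)) ^ M ≤ Cc (yy i j k x)) →
    ((Q.image (yy i j l)).card : ℝ) ≤ N →
    (Q.card : ℝ) ≤ C * (X : ℝ) ^ ε * (N * Z i j / P *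
      ∏ k ∈ univ.filter (fun k => k ≠ i ∧ k ≠ j ∧ k ≠ l), bd (k ∈ K) (min (Z i k) (Z j k))) := by
  obtain ⟨M, C₀, hM, hC₀, h₀⟩ := fib (ε / (m + 1)) (by positivity)
  refine ⟨M, 2 * (C₀ + 1) ^ m, hM, by positivity, ?_⟩
  intro X hX Z hZ i j l hij hli hlj hXij hX3 K P hP N Q hQ hN
  have hX1 : (1 : ℝ) ≤ X := by exact_mod_cast hX
  have hX0 : (0 : ℝ) < X := by linarith
  have hP0 : (0 : ℝ) < P := by exact_mod_cast hP
  obtain ⟨G, hG⟩ : ∃ G, G = (C₀ + 1) * (X : ℝ) ^ (ε / (m + 1)) := ⟨_, rfl⟩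
  have hXe : (1 : ℝ) ≤ (X : ℝ) ^ (ε / (m + 1)) := Real.one_le_rpow hX1 (by positivity)
  have hG1 : 1 ≤ G := by rw [hG]; nlinarith
  have hGm : G ^ m ≤ (C₀ + 1) ^ m * (X : ℝ) ^ ε := by
    rw [hG, mul_pow, ← Real.rpow_natCast ((X : ℝ) ^ (ε / (m + 1))), ← Real.rpow_mul hX0.le]
    apply mul_le_mul_of_nonneg_left _ (by positivity)
    apply Real.rpow_le_rpow_of_exponent_le hX1
    rw [div_mul_eq_mul_div, div_le_iff₀ (by positivity)]
    nlinarith
  obtain ⟨Pi0, hPi0⟩ : ∃ Pi0 : ℝ, Pi0 = ∏ k ∈ univ.filter (fun k => k ≠ i ∧ k ≠ j ∧ k ≠ l),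
      bd (k ∈ K) (min (Z i k) (Z j k)) := ⟨_, rfl⟩
  have hbd : ∀ (E : Prop) [Decidable E] (B : ℕ), 0 ≤ bd E B := by
    intro E _ B
    unfold bd
    split_ifs <;> positivity
  have hPi00 : 0 ≤ Pi0 := by
    rw [hPi0]
    exact Finset.prod_nonneg fun k _ => hbd _ _
  -- a fixed radical and a fixed ratio
  have hr : ∀ r, 1 ≤ r → r ≤ Z i j → ∀ y : ℚ,
      (((Q.filter fun x => zr (x i - x j) = r ∧ yy i j l x = y).card : ℕ) : ℝ) ≤ 2 * (G ^ m * Pi0) := by
    intro r hr1 hr2 y
    obtain ⟨R, hR⟩ : ∃ R, R = Q.filter fun x => zr (x i - x j) = r ∧ yy i j l x = y := ⟨_, rfl⟩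
    rw [← hR]
    have hRQ : ∀ x ∈ R, x ∈ Q ∧ zr (x i - x j) = r ∧ yy i j l x = y := by
      intro x hx
      rw [hR, mem_filter] at hx
      exact hx
    have hY : ∀ k : Fin m, (((R.image (yy i j k)).card : ℕ) : ℝ) ≤
        G * (if k ≠ i ∧ k ≠ j ∧ k ≠ l then bd (k ∈ K) (min (Z i k) (Z j k)) else 1) := by
      intro k
      by_cases hk : k ≠ i ∧ k ≠ j ∧ k ≠ l
      · rw [if_pos hk]
        have hB : 1 ≤ min (Z i k) (Z j k) := le_min (hZ _ _) (hZ _ _)
        obtain ⟨q1, q2⟩ := h₀ X r (min (Z i k) (Z j k)) hX hr1 (hr2.trans hXij) hB (R.image (yy i j k)) (by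
          intro y hy
          rw [mem_image] at hy
          obtain ⟨x, hx, rfl⟩ := hy
          obtain ⟨b1, b2, -⟩ := hRQ x hx
          obtain ⟨c1, c2, c3, c4⟩ := hQ x b1
          obtain ⟨f1, f2, f3, f4⟩ := yy_facts c1 hij hk.1 hk.2.1
          refine ⟨yy_ne0 c1 hij hk.1, yy_ne1 c1 hij hk.2.1, ?_, ?_, ?_⟩
          · exact f4.trans ((Nat.mul_le_mul (Nat.mul_le_mul (c2 i j) (c2 i k)) (c2 j k)).trans
              (hX3 k hk.1 hk.2.1))
          · rw [← b2]
            exact f1
          · rcases le_total (Z i k) (Z j k) with hle | hle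
            · left
              rw [min_eq_left hle]
              exact f2.trans (c2 i k)
            · right
              rw [min_eq_right hle]
              exact f3.trans (c2 j k))
        unfold bd
        split_ifs with hkK
        · refine (q2 ?_).trans ?_
          · intro y hy
            rw [mem_image] at hy
            obtain ⟨x, hx, rfl⟩ := hy
            exact (hQ x (hRQ x hx).1).2.2.2 k hkK hk.1 hk.2.1
          · rw [hG]
            apply mul_le_mul_of_nonneg_right _ (Real.sqrt_nonneg _)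
            apply mul_le_mul_of_nonneg_right _ (by positivity)
            linarith
        · refine q1.trans ?_
          rw [hG]
          apply mul_le_mul_of_nonneg_right _ (Nat.cast_nonneg _)
          apply mul_le_mul_of_nonneg_right _ (by positivity)
          linarith
      · rw [if_neg hk, mul_one]
        refine le_trans ?_ hG1
        have h1 : (R.image (yy i j k)).card ≤ 1 := by
          rw [Finset.card_le_one]
          intro a ha b hb
          rw [mem_image] at ha hb
          obtain ⟨x, hx, rfl⟩ := ha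
          obtain ⟨z, hz, rfl⟩ := hb
          have cx := (hQ x (hRQ x hx).1).1
          have cz := (hQ z (hRQ z hz).1).1
          by_cases hki : k = i
          · rw [hki, yy_i, yy_i]
          by_cases hkj : k = j
          · rw [hkj, yy_j cx hij, yy_j cz hij]
          · have hkl : k = l := by
              by_contra hkl
              exact hk ⟨hki, hkj, hkl⟩
            rw [hkl, (hRQ x hx).2.2, (hRQ z hz).2.2]
        exact_mod_cast h1
    have h5 : ((∏ k, (R.image (yy i j k)).card : ℕ) : ℝ) ≤ G ^ m * Pi0 := by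
      push_cast
      refine (Finset.prod_le_prod (fun k _ => Nat.cast_nonneg _) fun k _ => hY k).trans
        (le_of_eq ?_)
      rw [Finset.prod_mul_distrib, Finset.prod_const, Finset.card_univ, Fintype.card_fin, hPi0,
        Finset.prod_filter]
    have h6 := comb R (fun x hx => (hQ x (hRQ x hx).1).1) hij
    calc (R.card : ℝ) ≤ ((2 * ∏ k, (R.image (yy i j k)).card : ℕ) : ℝ) := by
          exact_mod_cast h6
      _ = 2 * ((∏ k, (R.image (yy i j k)).card : ℕ) : ℝ) := by push_cast; ring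
      _ ≤ _ := mul_le_mul_of_nonneg_left h5 (by norm_num)
  -- the pairs
  obtain ⟨A, hA⟩ : ∃ A : Finset (ℕ × ℚ), A = Q.image fun x => (zr (x i - x j), yy i j l x) :=
    ⟨_, rfl⟩
  have hAc : (A.card : ℝ) ≤ N * (Z i j / P) := by
    have h1 : A.card = ∑ y ∈ Q.image (yy i j l), (A.filter fun t => t.2 = y).card := by
      apply Finset.card_eq_sum_card_fiberwise
      intro t ht
      rw [Finset.mem_coe, hA, mem_image] at ht
      obtain ⟨x, hx, rfl⟩ := ht
      rw [Finset.mem_coe]
      exact mem_image_of_mem _ hx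
    have h2 : ∀ y ∈ Q.image (yy i j l), (((A.filter fun t => t.2 = y).card : ℕ) : ℝ) ≤ Z i j / P := by
      intro y hy
      rw [mem_image] at hy
      obtain ⟨x₀, hx₀, rfl⟩ := hy
      obtain ⟨ρ, hρ⟩ : ∃ ρ, ρ = zr (yy i j l x₀).den := ⟨_, rfl⟩
      have hPρ : P ≤ ρ := by rw [hρ]; exact (hQ x₀ hx₀).2.2.1
      have hρ0 : 0 < ρ := by omega
      have h3 : (A.filter fun t => t.2 = yy i j l x₀).card ≤ Z i j / ρ := by
        have h4 : (A.filter fun t => t.2 = yy i j l x₀) ⊆
            (Icc 1 (Z i j / ρ)).image fun s => (ρ * s, yy i j l x₀) := by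
          intro t ht
          rw [mem_filter, hA, mem_image] at ht
          obtain ⟨⟨x, hx, rfl⟩, h5⟩ := ht
          simp only at h5
          obtain ⟨c1, c2, c3, c4⟩ := hQ x hx
          obtain ⟨f1, -⟩ := yy_facts c1 hij hli hlj
          rw [h5, ← hρ] at f1
          obtain ⟨s, hs⟩ := f1
          rw [mem_image]
          refine ⟨s, ?_, ?_⟩
          · rw [mem_Icc]
            have h6 := c2 i j
            have h7 := zr_pos (x i - x j)
            rw [hs] at h6 h7
            refine ⟨by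
              rcases Nat.eq_zero_or_pos s with h8 | h8
              · rw [h8, mul_zero] at h7
                omega
              · exact h8, ?_⟩
            rw [Nat.le_div_iff_mul_le hρ0, mul_comm]
            exact h6
          · rw [Prod.mk.injEq]
            exact ⟨hs.symm, h5.symm⟩
        refine (card_le_card h4).trans (Finset.card_image_le.trans ?_)
        rw [Nat.card_Icc, Nat.add_sub_cancel]
      calc (((A.filter fun t => t.2 = yy i j l x₀).card : ℕ) : ℝ) ≤ ((Z i j / ρ : ℕ) : ℝ) := by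
            exact_mod_cast h3
        _ ≤ (Z i j : ℝ) / ρ := Nat.cast_div_le
        _ ≤ Z i j / P := by
            apply div_le_div_of_nonneg_left (Nat.cast_nonneg _) hP0
            exact_mod_cast hPρ
    calc (A.card : ℝ) = ∑ y ∈ Q.image (yy i j l), (((A.filter fun t => t.2 = y).card : ℕ) : ℝ) := by
          rw [h1]; push_cast; rfl
      _ ≤ ∑ y ∈ Q.image (yy i j l), ((Z i j : ℝ) / P) := Finset.sum_le_sum h2
      _ = (Q.image (yy i j l)).card * ((Z i j : ℝ) / P) := by rw [Finset.sum_const, nsmul_eq_mul]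
      _ ≤ N * (Z i j / P) := mul_le_mul_of_nonneg_right hN (by positivity)
  have hsum : Q.card = ∑ t ∈ A, (Q.filter fun x => (zr (x i - x j), yy i j l x) = t).card := by
    apply Finset.card_eq_sum_card_fiberwise
    intro x hx
    rw [Finset.mem_coe] at hx
    rw [Finset.mem_coe, hA]
    exact mem_image_of_mem _ hx
  have hfib : ∀ t ∈ A, (((Q.filter fun x => (zr (x i - x j), yy i j l x) = t).card : ℕ) : ℝ) ≤
      2 * (G ^ m * Pi0) := by
    intro t ht
    rw [hA, mem_image] at ht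
    obtain ⟨x₀, hx₀, rfl⟩ := ht
    have h1 := hr (zr (x₀ i - x₀ j)) (zr_pos _) ((hQ x₀ hx₀).2.1 i j) (yy i j l x₀)
    simp only [Prod.mk.injEq]
    exact h1
  rw [← hPi0]
  calc (Q.card : ℝ) = ∑ t ∈ A, (((Q.filter fun x => (zr (x i - x j), yy i j l x) = t).card : ℕ) : ℝ) := by
        rw [hsum]; push_cast; rfl
    _ ≤ ∑ t ∈ A, 2 * (G ^ m * Pi0) := Finset.sum_le_sum hfib
    _ = A.card * (2 * (G ^ m * Pi0)) := by rw [Finset.sum_const, nsmul_eq_mul]
    _ ≤ (N * (Z i j / P)) * (2 * (G ^ m * Pi0)) := mul_le_mul_of_nonneg_right hAc (by positivity)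
    _ ≤ (N * (Z i j / P)) * (2 * (((C₀ + 1) ^ m * (X : ℝ) ^ ε) * Pi0)) := by
        have hN0 : 0 ≤ N := le_trans (Nat.cast_nonneg _) hN
        apply mul_le_mul_of_nonneg_left _ (by positivity)
        apply mul_le_mul_of_nonneg_left _ (by norm_num)
        exact mul_le_mul_of_nonneg_right hGm hPi00
    _ = _ := by ring

end Pool.Agent.H583.PD
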