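import Pool.Agent.H583.PD.F

/-!
Configurations of integers: the radicals of the reduced differences, and a linear programme.
-/

set_option autoImplicit false

namespace Pool.Agent.H583.PD

open Finset Pool.Agent.T2H20.ABC Pool.Agent.T2H20.AH Pool.Agent.H785R2.ABC Pool.Agent.H583.SF
  Pool.Agent.H583.WT Pool.Agent.H583.AL Pool.Agent.H583.AR Pool.Agent.H583.GD
open Pool.Agent.T2H21.RS (IsT rad3 count_all rad_cube)

variable {m : ℕ}

/-- the radical of the reduced difference -/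
def rd (i j k : Fin m) (x : Fin m → ℤ) : ℕ := zr (yy i j k x).den

lemma rd_pos (i j k : Fin m) (x : Fin m → ℤ) : 0 < rd i j k x := zr_pos _

lemma rd_swap {i j : Fin m} (k : Fin m) {x : Fin m → ℤ} (h : Cf x) (hij : i ≠ j) :
    rd j i k x = rd i j k x := by
  unfold rd
  rw [yy_swap h hij, (neg_facts _).2]

lemma zU_swap {i j : Fin m} (k : Fin m) {x : Fin m → ℤ} (h : Cf x) (hij : i ≠ j) :
    zr (U (yy j i k x)) = zr (U (yy i j k x)) := by
  rw [yy_swap h hij, U_neg]

lemma Cc_swap {i j : Fin m} (k : Fin m) {x : Fin m → ℤ} (h : Cf x) (hij : i ≠ j) :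
    Cc (yy j i k x) = Cc (yy i j k x) := by
  rw [yy_swap h hij, Cc_neg]

lemma zU_turn {i j k : Fin m} {x : Fin m → ℤ} (h : Cf x) (hij : i ≠ j) (hik : i ≠ k) :
    zr (U (yy i k j x)) = zr (U (yy i j k x)) := by
  rw [yy_inv h hij hik, U_inv (yy_ne0 h hij hik.symm)]

lemma Cc_turn {i j k : Fin m} {x : Fin m → ℤ} (h : Cf x) (hij : i ≠ j) (hik : i ≠ k) :
    Cc (yy i k j x) = Cc (yy i j k x) := by
  rw [yy_inv h hij hik, Cc_inv (yy_ne0 h hij hik.symm)]

lemma zr_natAbs (n : ℤ) : zr (n.natAbs : ℤ) = zr n := by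
  unfold zr
  rw [Int.natAbs_natCast]

lemma rd_num {i j k : Fin m} {x : Fin m → ℤ} (h : Cf x) (hij : i ≠ j) (hik : i ≠ k) :
    rd i k j x = zr (yy i j k x).num := by
  unfold rd
  rw [yy_inv h hij hik, Rat.den_inv_of_ne_zero (yy_ne0 h hij hik.symm), zr_natAbs]

lemma rd_sum {i j k : Fin m} {x : Fin m → ℤ} (h : Cf x) (hij : i ≠ j) (hjk : j ≠ k) :
    rd j k i x = zr ((yy i j k x).num + (yy i j k x).den) := by
  rw [rd_num h hij.symm hjk, yy_swap h hij, (neg_facts _).1]
  unfold zr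
  rw [Int.natAbs_neg]

lemma zU_le {i j k : Fin m} {x : Fin m → ℤ} (h : Cf x) (hij : i ≠ j) (hik : i ≠ k) (hjk : j ≠ k) :
    zr (U (yy i j k x)) ≤ rd i j k x * rd i k j x * rd j k i x := by
  rw [rd_num h hij hik, rd_sum h hij hjk]
  unfold rd
  have n0 := Rat.num_ne_zero.2 (yy_ne0 h hij hik.symm)
  have n1 := den_ne (yy i j k x)
  have n2 := num_add_ne (yy_ne1 h hij hjk.symm)
  calc zr (U (yy i j k x)) ≤ zr ((yy i j k x).num * (yy i j k x).den) *
        zr ((yy i j k x).num + (yy i j k x).den) := zr_mul_le (mul_ne_zero n0 n1) n2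
    _ ≤ (zr (yy i j k x).num * zr (yy i j k x).den) * zr ((yy i j k x).num + (yy i j k x).den) :=
        Nat.mul_le_mul_right _ (zr_mul_le n0 n1)
    _ = _ := by ring

lemma rd_le {i j k : Fin m} {x : Fin m → ℤ} (h : Cf x) (hij : i ≠ j) (hik : i ≠ k) (hjk : j ≠ k) :
    rd i j k x ≤ zr (x i - x j) :=
  Nat.le_of_dvd (zr_pos _) (yy_facts h hij hik.symm hjk.symm).1

/-- **the number of the ratios with a large height** -/
lemma ycnt (l e : ℝ) (hl : 0 < l) (he : 0 < e) : ∃ C : ℝ, 0 < C ∧ ∀ R : ℕ, 1 ≤ R →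
    ∀ Y : Finset ℚ, (∀ y ∈ Y, y ≠ 0 ∧ y ≠ -1 ∧ zr (U y) ≤ R ∧ (zr (U y) : ℝ) ^ l ≤ Cc y) →
    (Y.card : ℝ) ≤ C * (R : ℝ) ^ (max (1 - l) (4 / 7) + e) := by
  obtain ⟨C, hC, h⟩ := count_all l e hl he
  refine ⟨12 * C, by positivity, ?_⟩
  intro R hR Y hY
  have h1 := card_rat R l e C _ (h R hR) Y (by
    intro y hy
    obtain ⟨g1, g2, g3, g4⟩ := hY y hy
    refine ⟨g1, g2, g3, fun t _ ht1 ht2 => ?_⟩
    rw [ht1]
    refine g4.trans ?_
    exact_mod_cast ht2)
  linarith

/-- **the number of the ratios** -/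
lemma ycnt0 (e : ℝ) (he : 0 < e) : ∃ C : ℝ, 0 < C ∧ ∀ R : ℕ, 1 ≤ R →
    ∀ Y : Finset ℚ, (∀ y ∈ Y, y ≠ 0 ∧ y ≠ -1 ∧ zr (U y) ≤ R) →
    (Y.card : ℝ) ≤ C * (R : ℝ) ^ (2 / 3 + e) := by
  obtain ⟨C, hC, h⟩ := count_all (1 / 3) e (by norm_num) he
  refine ⟨12 * C, by positivity, ?_⟩
  intro R hR Y hY
  have hm : max (1 - (1 : ℝ) / 3) (4 / 7) = 2 / 3 := by norm_num
  have h1 := card_rat R (1 / 3) e C _ (h R hR) Y (by
    intro y hy
    obtain ⟨g1, g2, g3⟩ := hY y hy
    exact ⟨g1, g2, g3, fun t ht _ _ => rad_cube ht⟩)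
  rw [hm] at h1
  linarith

lemma min_half (a b : ℝ) : min a b = (a + b - |a - b|) / 2 := by
  rcases le_total a b with h | h
  · rw [min_eq_left h, abs_of_nonpos (sub_nonpos.2 h)]
    ring
  · rw [min_eq_right h, abs_of_nonneg (sub_nonneg.2 h)]
    ring

/-- **a linear programme**: either some pair is cheap or all numbers are small -/
theorem lp (hm : 3 ≤ m) (u : Fin m → Fin m → ℝ) (hu0 : ∀ i j, 0 ≤ u i j)
    (hus : ∀ i j, u i j = u j i) (hud : ∀ i, u i i = 0) (L δ : ℝ) (hL0 : 0 ≤ L) (hδ : 0 ≤ δ)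
    (hL : ∑ i, ∑ j, u i j ≤ 2 * L) :
    (∃ i j, i ≠ j ∧ u i j + ∑ k ∈ univ.filter (fun k => k ≠ i ∧ k ≠ j), min (u i k) (u j k) ≤
      (2 / (m : ℝ) - δ) * L) ∨
    ∀ a b, u a b ≤ (2 / ((m : ℝ) * (m - 1)) + 4 * δ * (m * (m - 1))) * L := by
  classical
  rw [or_iff_not_imp_left]
  intro hcon
  push Not at hcon
  have hm3 : (3 : ℝ) ≤ m := by exact_mod_cast hm
  have hm0 : (m : ℝ) ≠ 0 := by linarith
  have hm1 : (m : ℝ) - 1 ≠ 0 := by linarith
  obtain ⟨D, hD⟩ : ∃ D, D = ∑ i, ∑ j, u i j := ⟨_, rfl⟩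
  rw [← hD] at hL
  obtain ⟨w, hw⟩ : ∃ w : Fin m → Fin m → Fin m → ℝ,
      w = fun i j k => if i ≠ j ∧ k ≠ i ∧ k ≠ j then 1 else 0 := ⟨_, rfl⟩
  have hw0 : ∀ i j k, 0 ≤ w i j k := by
    intro i j k
    rw [hw]
    simp only
    split_ifs <;> norm_num
  obtain ⟨V, hV⟩ : ∃ V, V = ∑ i, ∑ j, ∑ k, w i j k * |u i k - u j k| := ⟨_, rfl⟩
  obtain ⟨cost, hcost⟩ : ∃ cost : Fin m → Fin m → ℝ,
      cost = fun i j => u i j + ∑ k, w i j k * min (u i k) (u j k) := ⟨_, rfl⟩
  have hc0 : ∀ i j, 0 ≤ cost i j := by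
    intro i j
    rw [hcost]
    exact add_nonneg (hu0 i j) (Finset.sum_nonneg fun k _ => mul_nonneg (hw0 i j k)
      (le_min (hu0 i k) (hu0 j k)))
  have hcc : ∀ i j, i ≠ j → (2 / (m : ℝ) - δ) * L < cost i j := by
    intro i j hij
    have h1 := hcon i j hij
    rw [hcost]
    simp only
    have h2 : ∑ k, w i j k * min (u i k) (u j k) =
        ∑ k ∈ univ.filter (fun k => k ≠ i ∧ k ≠ j), min (u i k) (u j k) := by
      rw [Finset.sum_filter]
      apply Finset.sum_congr rfl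
      intro k _
      rw [hw]
      simp only
      by_cases h3 : k ≠ i ∧ k ≠ j
      · rw [if_pos ⟨hij, h3⟩, if_pos h3, one_mul]
      · rw [if_neg fun h => h3 h.2, if_neg h3, zero_mul]
    rw [h2]
    exact h1
  have hwsum : ∀ i k, i ≠ k → ∑ j, w i j k ≤ (m : ℝ) - 2 := by
    intro i k hik
    have h1 : ∀ j, w i j k ≤ 1 - (if j = i then 1 else 0) - (if j = k then 1 else 0) := by
      intro j
      rw [hw]
      simp only
      by_cases hji : j = i
      · rw [if_neg (by rw [hji]; exact fun h => h.1 rfl), if_pos hji,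
          if_neg (fun h => hik (hji.symm.trans h))]
        norm_num
      by_cases hjk : j = k
      · rw [if_neg (by rw [hjk]; exact fun h => h.2.2 rfl), if_neg hji, if_pos hjk]
        norm_num
      rw [if_pos ⟨Ne.symm hji, Ne.symm hik, Ne.symm hjk⟩, if_neg hji, if_neg hjk]
      norm_num
    refine (Finset.sum_le_sum fun j _ => h1 j).trans (le_of_eq ?_)
    rw [Finset.sum_sub_distrib, Finset.sum_sub_distrib]
    simp only [Finset.sum_const, Finset.card_univ, Fintype.card_fin, nsmul_eq_mul, mul_one,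
      Finset.sum_ite_eq', Finset.mem_univ, if_true]
    ring
  have hwsym : ∀ i j k, w i j k = w j i k := by
    intro i j k
    rw [hw]
    simp only
    by_cases h : i ≠ j ∧ k ≠ i ∧ k ≠ j
    · rw [if_pos h, if_pos ⟨h.1.symm, h.2.2, h.2.1⟩]
    · rw [if_neg h, if_neg fun h' => h ⟨h'.1.symm, h'.2.2, h'.2.1⟩]
  have hS : ∑ i, ∑ j, cost i j ≤ ((m : ℝ) - 1) * D - V / 2 := by
    have h1 : ∑ i, ∑ j, cost i j = D + (∑ i, ∑ j, ∑ k, w i j k * u i k +
        ∑ i, ∑ j, ∑ k, w i j k * u j k) / 2 - V / 2 := by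
      rw [hD, hV, hcost, ← Finset.sum_add_distrib, Finset.sum_div, Finset.sum_div,
        ← Finset.sum_add_distrib, ← Finset.sum_sub_distrib]
      apply Finset.sum_congr rfl
      intro i _
      rw [← Finset.sum_add_distrib, Finset.sum_div, Finset.sum_div, ← Finset.sum_add_distrib,
        ← Finset.sum_sub_distrib]
      apply Finset.sum_congr rfl
      intro j _
      simp only
      rw [← Finset.sum_add_distrib, Finset.sum_div, Finset.sum_div, add_sub_assoc,
        ← Finset.sum_sub_distrib]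
      congr 1
      apply Finset.sum_congr rfl
      intro k _
      rw [min_half]
      ring
    have h2 : ∑ i, ∑ j, ∑ k, w i j k * u j k = ∑ i, ∑ j, ∑ k, w i j k * u i k := by
      rw [Finset.sum_comm]
      apply Finset.sum_congr rfl
      intro i _
      apply Finset.sum_congr rfl
      intro j _
      apply Finset.sum_congr rfl
      intro k _
      rw [hwsym j i k]
    have h3 : ∑ i, ∑ j, ∑ k, w i j k * u i k ≤ ((m : ℝ) - 2) * D := by
      rw [hD, Finset.mul_sum]
      apply Finset.sum_le_sum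
      intro i _
      rw [Finset.sum_comm, Finset.mul_sum]
      apply Finset.sum_le_sum
      intro k _
      rw [← Finset.sum_mul]
      by_cases hik : i = k
      · rw [hik, hud, mul_zero, mul_zero]
      · exact mul_le_mul_of_nonneg_right (hwsum i k hik) (hu0 i k)
    rw [h2] at h1
    linarith
  have hne : (univ : Finset (Fin m)).offDiag.Nonempty := by
    refine ⟨(⟨0, by omega⟩, ⟨1, by omega⟩), ?_⟩
    rw [Finset.mem_offDiag]
    refine ⟨mem_univ _, mem_univ _, ?_⟩
    intro h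
    have := congrArg Fin.val h
    simp at this
  have hoc : (((univ : Finset (Fin m)).offDiag.card : ℕ) : ℝ) = m * (m - 1) := by
    rw [Finset.offDiag_card, Finset.card_univ, Fintype.card_fin, Nat.cast_sub (by nlinarith)]
    push_cast
    ring
  have hlow : (m : ℝ) * (m - 1) * ((2 / (m : ℝ) - δ) * L) < ∑ i, ∑ j, cost i j := by
    have h1 := Finset.sum_lt_sum_of_nonempty hne (f := fun _ => (2 / (m : ℝ) - δ) * L)
      (g := fun p => cost p.1 p.2) (by
        intro p hp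
        rw [Finset.mem_offDiag] at hp
        exact hcc p.1 p.2 hp.2.2)
    have h2 : ∑ p ∈ (univ : Finset (Fin m)).offDiag, cost p.1 p.2 ≤ ∑ i, ∑ j, cost i j := by
      rw [← Fintype.sum_prod_type' (f := cost)]
      exact Finset.sum_le_sum_of_subset_of_nonneg (Finset.subset_univ _) fun p _ _ => hc0 _ _
    rw [Finset.sum_const, nsmul_eq_mul, hoc] at h1
    exact h1.trans_le h2
  have hVL : V ≤ 2 * δ * (m * (m - 1)) * L := by
    have h1 : (m : ℝ) * (m - 1) * ((2 / (m : ℝ) - δ) * L) =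
        2 * (m - 1) * L - δ * (m * (m - 1)) * L := by
      field_simp
    rw [h1] at hlow
    have h2 : ((m : ℝ) - 1) * D ≤ (m - 1) * (2 * L) :=
      mul_le_mul_of_nonneg_left hL (by linarith)
    linarith
  have hV0 : 0 ≤ V := by
    rw [hV]
    exact Finset.sum_nonneg fun i _ => Finset.sum_nonneg fun j _ => Finset.sum_nonneg fun k _ =>
      mul_nonneg (hw0 i j k) (abs_nonneg _)
  have hstep : ∀ a c b : Fin m, a ≠ b → c ≠ b → |u a b - u c b| ≤ V := by
    intro a c b hab hcb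
    by_cases hac : a = c
    · rw [hac, sub_self, abs_zero]
      exact hV0
    have e1 : |u a b - u c b| = w a c b * |u a b - u c b| := by
      rw [hw]
      simp only
      rw [if_pos ⟨hac, hab.symm, hcb.symm⟩, one_mul]
    rw [e1, hV]
    have g0 : ∀ i j k, 0 ≤ w i j k * |u i k - u j k| := fun i j k =>
      mul_nonneg (hw0 i j k) (abs_nonneg _)
    calc w a c b * |u a b - u c b| ≤ ∑ k, w a c k * |u a k - u c k| :=
          Finset.single_le_sum (f := fun k => w a c k * |u a k - u c k|) (fun k _ => g0 a c k)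
            (mem_univ b)
      _ ≤ ∑ j, ∑ k, w a j k * |u a k - u j k| :=
          Finset.single_le_sum (f := fun j => ∑ k, w a j k * |u a k - u j k|)
            (fun j _ => Finset.sum_nonneg fun k _ => g0 a j k) (mem_univ c)
      _ ≤ _ := Finset.single_le_sum (f := fun i => ∑ j, ∑ k, w i j k * |u i k - u j k|)
            (fun i _ => Finset.sum_nonneg fun j _ => Finset.sum_nonneg fun k _ => g0 i j k)
            (mem_univ a)
  have hpair : ∀ a b c d : Fin m, a ≠ b → c ≠ d → u a b ≤ u c d + 2 * V := by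
    intro a b c d hab hcd
    by_cases hbc : b = c
    · rw [hbc] at hab ⊢
      have h1 := (abs_le.1 (hstep a d c hab hcd.symm)).2
      rw [hus c d]
      linarith
    · have h1 := (abs_le.1 (hstep a c b hab (Ne.symm hbc))).2
      have h2 := (abs_le.1 (hstep b d c hbc hcd.symm)).2
      rw [hus c b] at h1
      rw [hus c d]
      linarith
  intro a b
  have ht0 : 0 ≤ (2 / ((m : ℝ) * (m - 1)) + 4 * δ * (m * (m - 1))) := by
    have : (0 : ℝ) ≤ m - 1 := by linarith
    positivity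
  by_cases hab : a = b
  · rw [hab, hud]
    exact mul_nonneg ht0 hL0
  have h1 : (m : ℝ) * (m - 1) * u a b ≤ D + (m * (m - 1)) * (2 * V) := by
    have h2 : ∑ p ∈ (univ : Finset (Fin m)).offDiag, u a b ≤
        ∑ p ∈ (univ : Finset (Fin m)).offDiag, (u p.1 p.2 + 2 * V) := by
      apply Finset.sum_le_sum
      intro p hp
      rw [Finset.mem_offDiag] at hp
      exact hpair a b p.1 p.2 hab hp.2.2
    have h3 : ∑ p ∈ (univ : Finset (Fin m)).offDiag, u p.1 p.2 ≤ D := by
      rw [hD, ← Fintype.sum_prod_type' (f := u)]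
      exact Finset.sum_le_sum_of_subset_of_nonneg (Finset.subset_univ _) fun p _ _ => hu0 _ _
    rw [Finset.sum_add_distrib, Finset.sum_const, Finset.sum_const, nsmul_eq_mul, nsmul_eq_mul,
      hoc] at h2
    linarith
  have hmm : (0 : ℝ) < m * (m - 1) := by nlinarith
  have h4 : u a b ≤ 2 * L / (m * (m - 1)) + 2 * V := by
    rw [← sub_le_iff_le_add, le_div_iff₀ hmm]
    linarith
  calc u a b ≤ 2 * L / (m * (m - 1)) + 2 * V := h4
    _ ≤ 2 * L / (m * (m - 1)) + 2 * (2 * δ * (m * (m - 1)) * L) := by linarith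
    _ = _ := by ring

end Pool.Agent.H583.PD
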