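import Pool.Agent.H583.PD.G

/-!
Configurations of integers: the classes.
-/

set_option autoImplicit false

namespace Pool.Agent.H583.PD

open Finset Pool.Agent.T2H20.ABC Pool.Agent.T2H20.AH Pool.Agent.H785R2.ABC Pool.Agent.H583.SF
  Pool.Agent.H583.WT Pool.Agent.H583.AL Pool.Agent.H583.AR Pool.Agent.H583.GD

variable {m : ℕ}

lemma ex_box (z : Fin m → ℤ) {X : ℕ} (pz : pr z ≤ X) {i j : Fin m} (hij : i ≠ j) :
    2 ^ (ex z i j + 1) ≤ 8 * X := by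
  have h1 := ex_le z i j
  have h2 := (zr_le_pr z hij).trans pz
  rw [pow_succ]
  omega

lemma ex_box3 (z : Fin m → ℤ) {X : ℕ} (pz : pr z ≤ X) {i j k : Fin m} (hij : i ≠ j) (hki : k ≠ i)
    (hkj : k ≠ j) : 2 ^ (ex z i j + 1) * 2 ^ (ex z i k + 1) * 2 ^ (ex z j k + 1) ≤ 8 * X := by
  have h8 : ∀ a b : Fin m, 2 ^ (ex z a b + 1) ≤ 2 * zr (z a - z b) := by
    intro a b
    rw [pow_succ]
    have := ex_le z a b
    omega
  calc 2 ^ (ex z i j + 1) * 2 ^ (ex z i k + 1) * 2 ^ (ex z j k + 1) ≤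
      (2 * zr (z i - z j)) * (2 * zr (z i - z k)) * (2 * zr (z j - z k)) :=
        Nat.mul_le_mul (Nat.mul_le_mul (h8 i j) (h8 i k)) (h8 j k)
    _ = 8 * (zr (z i - z j) * zr (z i - z k) * zr (z j - z k)) := by ring
    _ ≤ 8 * X := Nat.mul_le_mul_left _ ((three_le_pr z hij (Ne.symm hki) (Ne.symm hkj)).trans pz)

lemma prod_box (s : Finset (Fin m)) (a b : Fin m → ℕ) :
    ∏ k ∈ s, ((min (2 ^ (a k + 1)) (2 ^ (b k + 1)) : ℕ) : ℝ) ≤
      2 ^ m * (2 : ℝ) ^ (∑ k ∈ s, min (a k : ℝ) (b k)) := by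
  have h1 : ∀ k ∈ s, ((min (2 ^ (a k + 1)) (2 ^ (b k + 1)) : ℕ) : ℝ) ≤
      2 * (2 : ℝ) ^ (min (a k : ℝ) (b k)) := by
    intro k _
    rcases le_total (a k) (b k) with h | h
    · rw [min_eq_left (by exact_mod_cast h : (a k : ℝ) ≤ b k), Real.rpow_natCast]
      calc ((min (2 ^ (a k + 1)) (2 ^ (b k + 1)) : ℕ) : ℝ) ≤ ((2 ^ (a k + 1) : ℕ) : ℝ) := by
            exact_mod_cast min_le_left _ _
        _ = _ := by push_cast; ring
    · rw [min_eq_right (by exact_mod_cast h : (b k : ℝ) ≤ a k), Real.rpow_natCast]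
      calc ((min (2 ^ (a k + 1)) (2 ^ (b k + 1)) : ℕ) : ℝ) ≤ ((2 ^ (b k + 1) : ℕ) : ℝ) := by
            exact_mod_cast min_le_right _ _
        _ = _ := by push_cast; ring
  refine (Finset.prod_le_prod (fun k _ => Nat.cast_nonneg _) h1).trans ?_
  rw [Finset.prod_mul_distrib, Finset.prod_const, ← Real.rpow_sum_of_pos (by norm_num)]
  apply mul_le_mul_of_nonneg_right _ (by positivity)
  apply pow_le_pow_right₀ (by norm_num)
  have := card_le_card (Finset.subset_univ s)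
  rwa [Finset.card_univ, Fintype.card_fin] at this

lemma const_X {C ε : ℝ} (X : ℕ) : C * ((8 * X : ℕ) : ℝ) ^ ε =
    C * 8 ^ ε * (X : ℝ) ^ ε := by
  push_cast
  rw [Real.mul_rpow (by norm_num) (Nat.cast_nonneg _)]
  ring

/-- **a class, an arbitrary pair** -/
lemma gen (m : ℕ) (ε : ℝ) (hε : 0 < ε) : ∃ C : ℝ, 0 < C ∧ ∀ X : ℕ, 1 ≤ X →
    ∀ z : Fin m → ℤ, pr z ≤ X → ∀ i j, i ≠ j → ∀ R : Finset (Fin m → ℤ),
    (∀ x ∈ R, Cf x ∧ ex x = ex z) → (R.card : ℝ) ≤ C * (X : ℝ) ^ ε *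
      (2 : ℝ) ^ ((ex z i j : ℝ) + ∑ k ∈ univ.filter (fun k => k ≠ i ∧ k ≠ j),
        min (ex z i k : ℝ) (ex z j k)) := by
  classical
  obtain ⟨M, C, hM, hC, hbox⟩ := box m ε hε
  refine ⟨C * 8 ^ ε * (2 * 2 ^ m), by positivity, ?_⟩
  intro X hX z pz i j hij R hR
  have h1 := hbox (8 * X) (by omega) (fun a b => 2 ^ (ex z a b + 1)) (fun _ _ => Nat.one_le_two_pow)
    i j hij (ex_box z pz hij) (fun k hki hkj => ex_box3 z pz hij hki hkj) ∅ R (by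
      intro x hx
      obtain ⟨k1, k2⟩ := hR x hx
      refine ⟨k1, ?_, ?_⟩
      · intro a b
        have := ex_lt x a b
        rw [k2] at this
        exact this
      · intro k hk
        exact absurd hk (Finset.notMem_empty _))
  refine h1.trans ?_
  have h2 : ∏ k ∈ univ.filter (fun k => k ≠ i ∧ k ≠ j),
      bd (k ∈ (∅ : Finset (Fin m))) (min (2 ^ (ex z i k + 1)) (2 ^ (ex z j k + 1))) ≤
      2 ^ m * (2 : ℝ) ^ (∑ k ∈ univ.filter (fun k => k ≠ i ∧ k ≠ j),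
        min (ex z i k : ℝ) (ex z j k)) := by
    refine le_trans (le_of_eq ?_) (prod_box _ (ex z i) (ex z j))
    apply Finset.prod_congr rfl
    intro k _
    unfold bd
    rw [if_neg (Finset.notMem_empty k)]
  calc C * ((8 * X : ℕ) : ℝ) ^ ε * (((2 ^ (ex z i j + 1) : ℕ) : ℝ) *
      ∏ k ∈ univ.filter (fun k => k ≠ i ∧ k ≠ j),
        bd (k ∈ (∅ : Finset (Fin m))) (min (2 ^ (ex z i k + 1)) (2 ^ (ex z j k + 1))))
      ≤ C * ((8 * X : ℕ) : ℝ) ^ ε * (((2 ^ (ex z i j + 1) : ℕ) : ℝ) *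
        (2 ^ m * (2 : ℝ) ^ (∑ k ∈ univ.filter (fun k => k ≠ i ∧ k ≠ j),
        min (ex z i k : ℝ) (ex z j k)))) := by
        apply mul_le_mul_of_nonneg_left _ (by positivity)
        exact mul_le_mul_of_nonneg_left h2 (Nat.cast_nonneg _)
    _ = _ := by
        rw [const_X, Real.rpow_add (by norm_num), Real.rpow_natCast]
        push_cast
        ring

/-- **a class, one triple apart** -/
lemma spc (m : ℕ) (ε : ℝ) (hε : 0 < ε) : ∃ C : ℝ, 0 < C ∧ ∀ X : ℕ, 1 ≤ X →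
    ∀ z : Fin m → ℤ, pr z ≤ X → ∀ i j l, i ≠ j → l ≠ i → l ≠ j → ∀ R : Finset (Fin m → ℤ),
    (∀ x ∈ R, Cf x ∧ ex x = ex z ∧ Nat.log 2 (rd i j l x) = Nat.log 2 (rd i j l z)) → ∀ N : ℝ,
    ((R.image (yy i j l)).card : ℝ) ≤ N → (R.card : ℝ) ≤ C * (X : ℝ) ^ ε * N *
      (2 : ℝ) ^ ((ex z i j : ℝ) - Nat.log 2 (rd i j l z) +
        ∑ k ∈ univ.filter (fun k => k ≠ i ∧ k ≠ j ∧ k ≠ l), min (ex z i k : ℝ) (ex z j k)) := by
  classical
  obtain ⟨M, C, hM, hC, hbox⟩ := box2 m ε hε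
  refine ⟨C * 8 ^ ε * (2 * 2 ^ m), by positivity, ?_⟩
  intro X hX z pz i j l hij hli hlj R hR N hN
  have hN0 : 0 ≤ N := le_trans (Nat.cast_nonneg _) hN
  have h1 := hbox (8 * X) (by omega) (fun a b => 2 ^ (ex z a b + 1)) (fun _ _ => Nat.one_le_two_pow)
    i j l hij hli hlj (ex_box z pz hij) (fun k hki hkj => ex_box3 z pz hij hki hkj) ∅
    (2 ^ Nat.log 2 (rd i j l z)) Nat.one_le_two_pow N R (by
      intro x hx
      obtain ⟨k1, k2, k3⟩ := hR x hx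
      refine ⟨k1, ?_, ?_, ?_⟩
      · intro a b
        have := ex_lt x a b
        rw [k2] at this
        exact this
      · rw [← k3]
        exact Nat.pow_log_le_self 2 (rd_pos i j l x).ne'
      · intro k hk
        exact absurd hk (Finset.notMem_empty _)) hN
  refine h1.trans ?_
  have h2 : ∏ k ∈ univ.filter (fun k => k ≠ i ∧ k ≠ j ∧ k ≠ l),
      bd (k ∈ (∅ : Finset (Fin m))) (min (2 ^ (ex z i k + 1)) (2 ^ (ex z j k + 1))) ≤
      2 ^ m * (2 : ℝ) ^ (∑ k ∈ univ.filter (fun k => k ≠ i ∧ k ≠ j ∧ k ≠ l),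
        min (ex z i k : ℝ) (ex z j k)) := by
    refine le_trans (le_of_eq ?_) (prod_box _ (ex z i) (ex z j))
    apply Finset.prod_congr rfl
    intro k _
    unfold bd
    rw [if_neg (Finset.notMem_empty k)]
  calc C * ((8 * X : ℕ) : ℝ) ^ ε * (N * ((2 ^ (ex z i j + 1) : ℕ) : ℝ) /
      ((2 ^ Nat.log 2 (rd i j l z) : ℕ) : ℝ) *
      ∏ k ∈ univ.filter (fun k => k ≠ i ∧ k ≠ j ∧ k ≠ l),
        bd (k ∈ (∅ : Finset (Fin m))) (min (2 ^ (ex z i k + 1)) (2 ^ (ex z j k + 1))))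
      ≤ C * ((8 * X : ℕ) : ℝ) ^ ε * (N * ((2 ^ (ex z i j + 1) : ℕ) : ℝ) /
        ((2 ^ Nat.log 2 (rd i j l z) : ℕ) : ℝ) *
        (2 ^ m * (2 : ℝ) ^ (∑ k ∈ univ.filter (fun k => k ≠ i ∧ k ≠ j ∧ k ≠ l),
        min (ex z i k : ℝ) (ex z j k)))) := by
        apply mul_le_mul_of_nonneg_left _ (by positivity)
        exact mul_le_mul_of_nonneg_left h2 (by positivity)
    _ = _ := by
        rw [const_X, Real.rpow_add (by norm_num), Real.rpow_sub (by norm_num), Real.rpow_natCast,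
          Real.rpow_natCast]
        push_cast
        ring

/-- the sum of the exponents -/
lemma ex_sum2 {z : Fin m → ℤ} {X : ℕ} (hX : 1 ≤ X) (pz : pr z ≤ X) :
    ∑ i, ∑ j, (ex z i j : ℝ) ≤ 2 * Real.logb 2 X := by
  rw [dbl (fun a b => (ex z a b : ℝ)) (fun a b => by rw [ex_symm])
    (fun a => by rw [ex_diag]; norm_num)]
  have h1 : (2 : ℝ) ^ ((∑ p ∈ prs m, ex z p.1 p.2 : ℕ) : ℝ) ≤ X := by
    rw [Real.rpow_natCast]
    exact_mod_cast (ex_sum z).trans pz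
  have h2 : ((∑ p ∈ prs m, ex z p.1 p.2 : ℕ) : ℝ) ≤ Real.logb 2 X := by
    rw [Real.le_logb_iff_rpow_le (by norm_num) (by exact_mod_cast hX)]
    exact h1
  push_cast at h2
  linarith

/-- the number of the configurations, small `X` -/
lemma X_rpow {X : ℕ} (hX : 1 ≤ X) (a : ℝ) : (2 : ℝ) ^ (a * Real.logb 2 X) = (X : ℝ) ^ a := by
  have hX0 : (0 : ℝ) < X := by exact_mod_cast hX
  rw [mul_comm, Real.rpow_mul (by norm_num), Real.rpow_logb (by norm_num) (by norm_num) hX0]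

end Pool.Agent.H583.PD
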