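import Pool.Agent.H583.PD.H

/-!
Configurations of integers: the untypical ones are few.
-/

set_option autoImplicit false

namespace Pool.Agent.H583.PD

open Finset Pool.Agent.T2H20.ABC Pool.Agent.T2H20.AH Pool.Agent.H785R2.ABC Pool.Agent.H583.SF
  Pool.Agent.H583.WT Pool.Agent.H583.AL Pool.Agent.H583.AR Pool.Agent.H583.GD

variable {m : ℕ}

/-- the exponent of the radical of a reduced difference -/
def lr (z : Fin m → ℤ) (i j k : Fin m) : ℕ := Nat.log 2 (rd i j k z)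

/-- the sum of the exponents of a triple -/
def Sr (z : Fin m → ℤ) (i j k : Fin m) : ℕ := lr z i j k + lr z i k j + lr z j k i

lemma lr_swap {z : Fin m → ℤ} (h : Cf z) {i j : Fin m} (k : Fin m) (hij : i ≠ j) :
    lr z j i k = lr z i j k := by
  unfold lr
  rw [rd_swap k h hij]

lemma lr_le {z : Fin m → ℤ} (h : Cf z) {i j k : Fin m} (hij : i ≠ j) (hik : i ≠ k) (hjk : j ≠ k) :
    lr z i j k ≤ ex z i j := Nat.log_mono_right (rd_le h hij hik hjk)

lemma lr_ex (z : Fin m → ℤ) (h : Cf z) (i j k : Fin m) : lr z i j k ≤ Nat.log 2 (pr z) := by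
  unfold lr
  by_cases hij : i = j
  · have h1 : yy i j k z = 0 := by
      unfold yy
      rw [hij, sub_self]
      simp
    have h2 : rd i j k z = 1 := by
      unfold rd
      rw [h1]
      unfold zr rad
      simp
    rw [h2]
    simp
  by_cases hik : i = k
  · have h1 : yy i j k z = 0 := by
      rw [← hik, yy_i]
    have h2 : rd i j k z = 1 := by
      unfold rd
      rw [h1]
      unfold zr rad
      simp
    rw [h2]
    simp
  by_cases hjk : j = k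
  · have h1 : yy i j k z = -1 := by
      rw [← hjk, yy_j h hij]
    have h2 : rd i j k z = 1 := by
      unfold rd
      rw [h1]
      unfold zr rad
      simp
    rw [h2]
    simp
  exact Nat.log_mono_right ((rd_le h hij hik hjk).trans (zr_le_pr z hij))

lemma zU_dy {x z : Fin m → ℤ} (h : Cf x) {i j k : Fin m} (hij : i ≠ j) (hik : i ≠ k) (hjk : j ≠ k)
    (hl : lr x = lr z) : zr (U (yy i j k x)) ≤ 2 ^ (Sr z i j k + 3) := by
  have h1 : ∀ a b c : Fin m, rd a b c x ≤ 2 ^ (lr z a b c + 1) := by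
    intro a b c
    rw [← hl]
    exact (Nat.lt_pow_succ_log_self (by norm_num) _).le
  calc zr (U (yy i j k x)) ≤ rd i j k x * rd i k j x * rd j k i x := zU_le h hij hik hjk
    _ ≤ 2 ^ (lr z i j k + 1) * 2 ^ (lr z i k j + 1) * 2 ^ (lr z j k i + 1) :=
        Nat.mul_le_mul (Nat.mul_le_mul (h1 _ _ _) (h1 _ _ _)) (h1 _ _ _)
    _ = _ := by
        unfold Sr
        rw [← pow_add, ← pow_add]
        congr 1
        ring

/-- **a class and a triple** -/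
lemma sp (hm : 3 ≤ m) (ε : ℝ) (hε : 0 < ε) : ∃ C : ℝ, 0 < C ∧ ∀ X : ℕ, 1 ≤ X →
    ∀ z : Fin m → ℤ, Cf z → pr z ≤ X → ∀ Um : ℝ, (∀ a b, (ex z a b : ℝ) ≤ Um) →
    ∀ R : Finset (Fin m → ℤ), (∀ x ∈ R, Cf x ∧ ex x = ex z ∧ lr x = lr z) →
    ∀ i j k, i ≠ j → i ≠ k → j ≠ k → ∀ C₀ τ : ℝ, 0 ≤ C₀ →
    ((R.image (yy i j k)).card : ℝ) ≤ C₀ * ((2 ^ (Sr z i j k + 3) : ℕ) : ℝ) ^ τ →
    ((R.image (yy i k j)).card : ℝ) ≤ C₀ * ((2 ^ (Sr z i j k + 3) : ℕ) : ℝ) ^ τ →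
    ((R.image (yy j k i)).card : ℝ) ≤ C₀ * ((2 ^ (Sr z i j k + 3) : ℕ) : ℝ) ^ τ →
    (R.card : ℝ) ≤ C * C₀ * 8 ^ τ * (X : ℝ) ^ ε *
      (2 : ℝ) ^ ((τ - 1 / 3) * Sr z i j k + (m - 2) * Um) := by
  classical
  obtain ⟨C, hC, h⟩ := spc m ε hε
  refine ⟨C, hC, ?_⟩
  intro X hX z cz pz Um hUm R hR i j k hij hik hjk C₀ τ hC₀ n1 n2 n3
  have hm3 : (3 : ℝ) ≤ m := by exact_mod_cast hm
  have key : ∀ a b c : Fin m, a ≠ b → a ≠ c → b ≠ c → (Sr z i j k : ℝ) / 3 ≤ lr z a b c →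
      ((R.image (yy a b c)).card : ℝ) ≤ C₀ * ((2 ^ (Sr z i j k + 3) : ℕ) : ℝ) ^ τ →
      (R.card : ℝ) ≤ C * C₀ * 8 ^ τ * (X : ℝ) ^ ε *
      (2 : ℝ) ^ ((τ - 1 / 3) * Sr z i j k + (m - 2) * Um) := by
    intro a b c hab hac hbc hl hn
    have h1 := h X hX z pz a b c hab hac.symm hbc.symm R (by
      intro x hx
      obtain ⟨k1, k2, k3⟩ := hR x hx
      refine ⟨k1, k2, ?_⟩
      have := congrFun (congrFun (congrFun k3 a) b) c
      exact this) _ hn
    have hcard : (univ.filter fun k : Fin m => k ≠ a ∧ k ≠ b ∧ k ≠ c).card + 3 = m := by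
      have h6 : univ.filter (fun k : Fin m => k ≠ a ∧ k ≠ b ∧ k ≠ c) = univ \ {a, b, c} := by
        ext k
        simp [not_or]
      have h7 : ({a, b, c} : Finset (Fin m)).card = 3 := Finset.card_eq_three.2
        ⟨a, b, c, hab, hac, hbc, rfl⟩
      rw [h6, Finset.card_sdiff_of_subset (Finset.subset_univ _), h7,
        Finset.card_univ, Fintype.card_fin]
      omega
    have hsum : ∑ k ∈ univ.filter (fun k => k ≠ a ∧ k ≠ b ∧ k ≠ c), min (ex z a k : ℝ) (ex z b k) ≤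
        ((m : ℝ) - 3) * Um := by
      calc ∑ k ∈ univ.filter (fun k => k ≠ a ∧ k ≠ b ∧ k ≠ c), min (ex z a k : ℝ) (ex z b k) ≤
          ∑ k ∈ univ.filter (fun k => k ≠ a ∧ k ≠ b ∧ k ≠ c), Um :=
            Finset.sum_le_sum fun k _ => (min_le_left _ _).trans (hUm a k)
        _ = _ := by
            rw [Finset.sum_const, nsmul_eq_mul]
            congr 1
            have : ((univ.filter fun k : Fin m => k ≠ a ∧ k ≠ b ∧ k ≠ c).card : ℝ) + 3 = m := by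
              exact_mod_cast hcard
            linarith
    have hexp : (ex z a b : ℝ) - Nat.log 2 (rd a b c z) +
        ∑ k ∈ univ.filter (fun k => k ≠ a ∧ k ≠ b ∧ k ≠ c), min (ex z a k : ℝ) (ex z b k) ≤
        (m - 2) * Um - Sr z i j k / 3 := by
      have h2 := hUm a b
      have h3 : (lr z a b c : ℝ) = Nat.log 2 (rd a b c z) := rfl
      rw [← h3]
      linarith
    have h9 : ((2 ^ (Sr z i j k + 3) : ℕ) : ℝ) ^ τ = 8 ^ τ * (2 : ℝ) ^ (τ * Sr z i j k) := by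
      push_cast
      rw [pow_add, mul_comm ((2 : ℝ) ^ Sr z i j k), Real.mul_rpow (by positivity) (by positivity),
        ← Real.rpow_natCast (2 : ℝ) (Sr z i j k), ← Real.rpow_mul (by norm_num), mul_comm τ]
      norm_num
    refine h1.trans ?_
    rw [h9]
    calc C * (X : ℝ) ^ ε * (C₀ * (8 ^ τ * (2 : ℝ) ^ (τ * Sr z i j k))) *
        (2 : ℝ) ^ ((ex z a b : ℝ) - Nat.log 2 (rd a b c z) +
        ∑ k ∈ univ.filter (fun k => k ≠ a ∧ k ≠ b ∧ k ≠ c), min (ex z a k : ℝ) (ex z b k)) ≤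
        C * (X : ℝ) ^ ε * (C₀ * (8 ^ τ * (2 : ℝ) ^ (τ * Sr z i j k))) *
        (2 : ℝ) ^ ((m - 2) * Um - Sr z i j k / 3) := by
          apply mul_le_mul_of_nonneg_left _ (by positivity)
          exact Real.rpow_le_rpow_of_exponent_le (by norm_num) hexp
      _ = C * C₀ * 8 ^ τ * (X : ℝ) ^ ε * ((2 : ℝ) ^ (τ * Sr z i j k) *
          (2 : ℝ) ^ ((m - 2) * Um - Sr z i j k / 3)) := by ring
      _ = _ := by
          rw [← Real.rpow_add (by norm_num)]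
          congr 2
          ring
  have hS : (Sr z i j k : ℝ) = lr z i j k + lr z i k j + lr z j k i := by
    unfold Sr
    push_cast
    ring
  by_cases g1 : (Sr z i j k : ℝ) / 3 ≤ lr z i j k
  · exact key i j k hij hik hjk g1 n1
  by_cases g2 : (Sr z i j k : ℝ) / 3 ≤ lr z i k j
  · exact key i k j hik hij hjk.symm g2 n2
  · refine key j k i hjk hij.symm hik.symm ?_ n3
    rw [not_le] at g1 g2
    linarith

/-- an untypical configuration -/
def Bad (κ : ℝ) (X : ℕ) (x : Fin m → ℤ) : Prop :=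
  (∃ a b, a ≠ b ∧ (X : ℝ) ^ (2 / ((m : ℝ) * (m - 1)) + κ) < zr (x a - x b)) ∨
  (∃ i j k, i ≠ j ∧ i ≠ k ∧ j ≠ k ∧
    (zr (U (yy i j k x)) : ℝ) ^ (1 / 3 + κ) ≤ Cc (yy i j k x)) ∨
  (∃ i j k, i ≠ j ∧ i ≠ k ∧ j ≠ k ∧ (rd i j k x : ℝ) < (X : ℝ) ^ (2 / ((m : ℝ) * (m - 1)) - κ))

/-- **the untypical configurations of a class are few** -/
lemma thin1 (hm : 3 ≤ m) (κ : ℝ) (hκ : 0 < κ) (hκ1 : κ ≤ 1) : ∃ δ C : ℝ, 0 < δ ∧ 0 < C ∧
    δ ≤ 1 / 4 / m ∧
    ∀ X : ℕ, 1 ≤ X → 2 ≤ κ * Real.logb 2 X → ∀ z : Fin m → ℤ, Cf z → pr z ≤ X → Bad κ X z →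
    ∀ R : Finset (Fin m → ℤ), (∀ x ∈ R, Cf x ∧ ex x = ex z ∧ lr x = lr z ∧ ∀ i j k,
      (zr (U (yy i j k z)) : ℝ) ^ (1 / 3 + κ) ≤ Cc (yy i j k z) →
      (zr (U (yy i j k x)) : ℝ) ^ (1 / 3 + κ) ≤ Cc (yy i j k x)) →
    (R.card : ℝ) ≤ C * (X : ℝ) ^ (2 / (m : ℝ) - 3 * δ) := by
  classical
  have hm3 : (3 : ℝ) ≤ m := by exact_mod_cast hm
  have hm0 : (m : ℝ) ≠ 0 := by linarith
  have hm1 : (m : ℝ) - 1 ≠ 0 := by linarith
  obtain ⟨t, ht⟩ : ∃ t : ℝ, t = 2 / ((m : ℝ) * (m - 1)) := ⟨_, rfl⟩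
  have hmm : (0 : ℝ) < m * (m - 1) := by nlinarith
  have ht0 : 0 < t := by rw [ht]; positivity
  have htm : (m - 1) * t = 2 / (m : ℝ) := by
    rw [ht]
    field_simp
  have ht3 : t ≤ 1 / 3 := by
    rw [ht, div_le_div_iff₀ hmm (by norm_num)]
    nlinarith
  obtain ⟨η, hη⟩ : ∃ η : ℝ, η = min κ (2 / 21) / 2 := ⟨_, rfl⟩
  have hη0 : 0 < η := by
    rw [hη]
    have : 0 < min κ (2 / 21) := lt_min hκ (by norm_num)
    linarith
  have hη1 : η ≤ 1 / 21 := by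
    rw [hη]
    have := min_le_right κ (2 / 21)
    linarith
  have hηκ : η ≤ κ / 2 := by
    rw [hη]
    have := min_le_left κ (2 / 21)
    linarith
  obtain ⟨d, hd⟩ : ∃ d : ℝ, d = min (3 * η * t) (κ / 3) / (4 * m ^ 3) := ⟨_, rfl⟩
  have hmin0 : 0 < min (3 * η * t) (κ / 3) := lt_min (by positivity) (by positivity)
  have hd0 : 0 < d := by rw [hd]; positivity
  have hd1 : d * (4 * m ^ 3) ≤ 3 * η * t := by
    rw [hd, div_mul_cancel₀ _ (by positivity)]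
    exact min_le_left _ _
  have hd2 : d * (4 * m ^ 3) ≤ κ / 3 := by
    rw [hd, div_mul_cancel₀ _ (by positivity)]
    exact min_le_right _ _
  have hm4 : 1 + 4 * ((m : ℝ) * (m - 1)) * (m - 1) ≤ 4 * m ^ 3 := by
    nlinarith [sq_nonneg ((m : ℝ) - 1), mul_pos (by linarith : (0 : ℝ) < m) (by linarith : (0:ℝ) < m - 1)]
  obtain ⟨w, hw⟩ : ∃ w : ℝ, w = 4 * d * (m * (m - 1)) := ⟨_, rfl⟩
  have hw0 : 0 ≤ w := by rw [hw]; positivity
  have hdw : d + w * (m - 1) ≤ d * (4 * m ^ 3) := by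
    calc d + w * (m - 1) = d * (1 + 4 * ((m : ℝ) * (m - 1)) * (m - 1)) := by rw [hw]; ring
      _ ≤ _ := mul_le_mul_of_nonneg_left hm4 hd0.le
  have hwκ : w ≤ κ / 3 := by
    have h1 : w ≤ w * (m - 1) := by nlinarith
    linarith
  obtain ⟨C₁, hC₁, h₁⟩ := gen m (d / 8) (by positivity)
  obtain ⟨C₂, hC₂, h₂⟩ := sp hm (d / 8) (by positivity)
  obtain ⟨C₃, hC₃, h₃⟩ := ycnt (1 / 3 + κ) η (by positivity) hη0
  obtain ⟨C₄, hC₄, h₄⟩ := ycnt0 (d / 24) (by positivity)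
  refine ⟨d / 4, C₁ + C₂ * C₃ * 8 ^ (2 / 3 - η) + C₂ * C₄ * 8 ^ (2 / 3 + d / 24), by positivity,
    by positivity, ?_, ?_⟩
  · have h1 : d * (4 * m ^ 3) ≤ 1 / 3 := by linarith
    have h2 : d ≤ 1 / m := by
      rw [le_div_iff₀ (by linarith)]
      have h3 : d * m ≤ d * (4 * m ^ 3) := by
        apply mul_le_mul_of_nonneg_left _ hd0.le
        nlinarith [mul_pos (by linarith : (0 : ℝ) < m) (by linarith : (0:ℝ) < m - 1)]
      linarith
    calc d / 4 ≤ 1 / m / 4 := by linarith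
      _ = _ := by ring
  intro X hX hX2 z cz pz hbad R hR
  have hX1 : (1 : ℝ) ≤ X := by exact_mod_cast hX
  have hX0 : (0 : ℝ) < X := by linarith
  obtain ⟨L, hL⟩ : ∃ L, L = Real.logb 2 X := ⟨_, rfl⟩
  rw [← hL] at hX2
  have hL0 : 0 ≤ L := by
    rw [hL]
    exact Real.logb_nonneg (by norm_num) hX1
  have hXL : ∀ a : ℝ, (2 : ℝ) ^ (a * L) = (X : ℝ) ^ a := by
    intro a
    rw [hL]
    exact X_rpow hX a
  have fin : ∀ (K c cost : ℝ), 0 ≤ c → c ≤ C₁ + C₂ * C₃ * 8 ^ (2 / 3 - η) + C₂ * C₄ * 8 ^ (2 / 3 + d / 24) →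
      K ≤ c * (X : ℝ) ^ (d / 8) * (2 : ℝ) ^ cost → cost ≤ (2 / (m : ℝ) - d + d / 8) * L →
      K ≤ (C₁ + C₂ * C₃ * 8 ^ (2 / 3 - η) + C₂ * C₄ * 8 ^ (2 / 3 + d / 24)) *
        (X : ℝ) ^ (2 / (m : ℝ) - 3 * (d / 4)) := by
    intro K c cost hc0 hc hK hcost
    calc K ≤ c * (X : ℝ) ^ (d / 8) * (2 : ℝ) ^ cost := hK
      _ ≤ c * (X : ℝ) ^ (d / 8) * (2 : ℝ) ^ ((2 / (m : ℝ) - d + d / 8) * L) := by
          apply mul_le_mul_of_nonneg_left _ (by positivity)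
          exact Real.rpow_le_rpow_of_exponent_le (by norm_num) hcost
      _ = c * (X : ℝ) ^ (2 / (m : ℝ) - 3 * (d / 4)) := by
          rw [hXL, mul_assoc, ← Real.rpow_add hX0]
          congr 2
          ring
      _ ≤ _ := mul_le_mul_of_nonneg_right hc (by positivity)
  have c1 : C₁ ≤ C₁ + C₂ * C₃ * 8 ^ (2 / 3 - η) + C₂ * C₄ * 8 ^ (2 / 3 + d / 24) := by
    have e1 : 0 ≤ C₂ * C₃ * (8 : ℝ) ^ (2 / 3 - η) := by positivity
    have e2 : 0 ≤ C₂ * C₄ * (8 : ℝ) ^ (2 / 3 + d / 24) := by positivity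
    linarith
  have c2 : C₂ * C₃ * 8 ^ (2 / 3 - η) ≤
      C₁ + C₂ * C₃ * 8 ^ (2 / 3 - η) + C₂ * C₄ * 8 ^ (2 / 3 + d / 24) := by
    have e2 : 0 ≤ C₂ * C₄ * (8 : ℝ) ^ (2 / 3 + d / 24) := by positivity
    linarith
  have c3 : C₂ * C₄ * 8 ^ (2 / 3 + d / 24) ≤
      C₁ + C₂ * C₃ * 8 ^ (2 / 3 - η) + C₂ * C₄ * 8 ^ (2 / 3 + d / 24) := by
    have e1 : 0 ≤ C₂ * C₃ * (8 : ℝ) ^ (2 / 3 - η) := by positivity
    linarith
  rcases lp hm (fun a b => (ex z a b : ℝ)) (fun _ _ => Nat.cast_nonneg _)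
    (fun a b => by rw [ex_symm]) (fun a => by rw [ex_diag]; norm_num) L d hL0 hd0.le
    (by rw [hL]; exact ex_sum2 hX pz) with ⟨i, j, hij, hcost⟩ | hall
  · -- a cheap pair
    have h1 := h₁ X hX z pz i j hij R (fun x hx => ⟨(hR x hx).1, (hR x hx).2.1⟩)
    refine fin _ C₁ _ hC₁.le c1 h1 (hcost.trans ?_)
    apply mul_le_mul_of_nonneg_right _ hL0
    linarith
  -- all radicals are small
  rw [← ht, ← hw] at hall
  have hR' : ∀ x ∈ R, Cf x ∧ ex x = ex z ∧ lr x = lr z := fun x hx =>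
    ⟨(hR x hx).1, (hR x hx).2.1, (hR x hx).2.2.1⟩
  have hSr : ∀ i j k : Fin m, i ≠ j → i ≠ k → j ≠ k →
      (Sr z i j k : ℝ) ≤ lr z i j k + 2 * ((t + w) * L) ∧ (lr z i j k : ℝ) ≤ (t + w) * L := by
    intro i j k hij hik hjk
    have h1 : (lr z i j k : ℝ) ≤ ex z i j := by exact_mod_cast lr_le cz hij hik hjk
    have h2 : (lr z i k j : ℝ) ≤ ex z i k := by exact_mod_cast lr_le cz hik hij hjk.symm
    have h3 : (lr z j k i : ℝ) ≤ ex z j k := by exact_mod_cast lr_le cz hjk hij.symm hik.symm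
    have g1 := hall i j
    have g2 := hall i k
    have g3 := hall j k
    unfold Sr
    push_cast
    constructor <;> linarith
  rcases hbad with ⟨a, b, hab, h1⟩ | ⟨i, j, k, hij, hik, hjk, hbad⟩ | ⟨i, j, k, hij, hik, hjk, hbad⟩
  · -- a large radical: impossible
    exfalso
    rw [← ht] at h1
    have h2 : (zr (z a - z b) : ℝ) ≤ (2 : ℝ) ^ ((ex z a b : ℝ) + 1) := by
      have h3 := ex_lt z a b
      have h4 : (zr (z a - z b) : ℝ) ≤ ((2 ^ (ex z a b + 1) : ℕ) : ℝ) := by exact_mod_cast h3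
      refine h4.trans (le_of_eq ?_)
      push_cast
      rw [Real.rpow_add (by norm_num), Real.rpow_natCast, Real.rpow_one, pow_succ]
    have h3 : (2 : ℝ) ^ ((t + κ) * L) < (2 : ℝ) ^ ((ex z a b : ℝ) + 1) := by
      rw [hXL]
      exact h1.trans_le h2
    rw [Real.rpow_lt_rpow_left_iff (by norm_num)] at h3
    have h4 := hall a b
    have h5 : w * L ≤ κ / 3 * L := mul_le_mul_of_nonneg_right hwκ hL0
    nlinarith
  · -- a large height
    have hcnt : ∀ a b c : Fin m, a ≠ b → a ≠ c → b ≠ c →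
        (∀ x ∈ R, zr (U (yy a b c x)) = zr (U (yy i j k x)) ∧ Cc (yy a b c x) = Cc (yy i j k x)) →
        ((R.image (yy a b c)).card : ℝ) ≤ C₃ * ((2 ^ (Sr z i j k + 3) : ℕ) : ℝ) ^ (2 / 3 - η) := by
      intro a b c hab hac hbc hx
      have h1 := h₃ (2 ^ (Sr z i j k + 3)) Nat.one_le_two_pow (R.image (yy a b c)) (by
        intro y hy
        rw [mem_image] at hy
        obtain ⟨x, hxR, rfl⟩ := hy
        obtain ⟨k1, k2, k3, k4⟩ := hR x hxR
        obtain ⟨q1, q2⟩ := hx x hxR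
        refine ⟨yy_ne0 k1 hab hac.symm, yy_ne1 k1 hab hbc.symm, ?_, ?_⟩
        · rw [q1]
          exact zU_dy k1 hij hik hjk k3
        · rw [q1, q2]
          exact k4 i j k hbad)
      have h2 : max (1 - (1 / 3 + κ)) (4 / 7) + η = 2 / 3 - η := by
        have h3 : max (1 - (1 / 3 + κ)) (4 / 7) = 2 / 3 - min κ (2 / 21) := by
          rcases le_total κ (2 / 21) with h | h
          · rw [min_eq_left h, max_eq_left (by linarith)]
            ring
          · rw [min_eq_right h, max_eq_right (by linarith)]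
            norm_num
        rw [h3, hη]
        ring
      rw [h2] at h1
      exact h1
    have h1 := h₂ X hX z cz pz ((t + w) * L) hall R hR' i j k hij hik hjk C₃ (2 / 3 - η) hC₃.le
      (hcnt i j k hij hik hjk fun x _ => ⟨rfl, rfl⟩)
      (hcnt i k j hik hij hjk.symm fun x hx => ⟨zU_turn (hR x hx).1 hij hik,
        Cc_turn (hR x hx).1 hij hik⟩)
      (hcnt j k i hjk hij.symm hik.symm fun x hx => ⟨by
        rw [zU_turn (hR x hx).1 hij.symm hjk, zU_swap k (hR x hx).1 hij], by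
        rw [Cc_turn (hR x hx).1 hij.symm hjk, Cc_swap k (hR x hx).1 hij]⟩)
    refine fin _ (C₂ * C₃ * 8 ^ (2 / 3 - η)) _ (by positivity) c2 h1 ?_
    obtain ⟨s1, s2⟩ := hSr i j k hij hik hjk
    have h5 : (2 / 3 - η - 1 / 3) * (Sr z i j k : ℝ) ≤ (2 / 3 - η - 1 / 3) * (3 * ((t + w) * L)) := by
      apply mul_le_mul_of_nonneg_left _ (by linarith)
      linarith
    calc (2 / 3 - η - 1 / 3) * (Sr z i j k : ℝ) + (m - 2) * ((t + w) * L) ≤
        (2 / 3 - η - 1 / 3) * (3 * ((t + w) * L)) + (m - 2) * ((t + w) * L) := by linarith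
      _ = ((m - 1) * t - 3 * η * t + w * (m - 1) - 3 * η * w) * L := by ring
      _ ≤ (2 / (m : ℝ) - d + d / 8) * L := by
          apply mul_le_mul_of_nonneg_right _ hL0
          rw [htm]
          have : 0 ≤ 3 * η * w := by positivity
          linarith
  · -- a small reduced radical
    rw [← ht] at hbad
    have hcnt : ∀ a b c : Fin m, a ≠ b → a ≠ c → b ≠ c →
        (∀ x ∈ R, zr (U (yy a b c x)) = zr (U (yy i j k x))) →
        ((R.image (yy a b c)).card : ℝ) ≤ C₄ * ((2 ^ (Sr z i j k + 3) : ℕ) : ℝ) ^ (2 / 3 + d / 24) := by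
      intro a b c hab hac hbc hx
      exact h₄ (2 ^ (Sr z i j k + 3)) Nat.one_le_two_pow (R.image (yy a b c)) (by
        intro y hy
        rw [mem_image] at hy
        obtain ⟨x, hxR, rfl⟩ := hy
        obtain ⟨k1, k2, k3, k4⟩ := hR x hxR
        refine ⟨yy_ne0 k1 hab hac.symm, yy_ne1 k1 hab hbc.symm, ?_⟩
        rw [hx x hxR]
        exact zU_dy k1 hij hik hjk k3)
    have h1 := h₂ X hX z cz pz ((t + w) * L) hall R hR' i j k hij hik hjk C₄ (2 / 3 + d / 24) hC₄.le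
      (hcnt i j k hij hik hjk fun x _ => rfl)
      (hcnt i k j hik hij hjk.symm fun x hx => zU_turn (hR x hx).1 hij hik)
      (hcnt j k i hjk hij.symm hik.symm fun x hx => by
        rw [zU_turn (hR x hx).1 hij.symm hjk, zU_swap k (hR x hx).1 hij])
    refine fin _ (C₂ * C₄ * 8 ^ (2 / 3 + d / 24)) _ (by positivity) c3 h1 ?_
    obtain ⟨s1, s2⟩ := hSr i j k hij hik hjk
    have h6 : (lr z i j k : ℝ) ≤ (t - κ) * L := by
      have h7 : (2 : ℝ) ^ ((lr z i j k : ℕ) : ℝ) < (2 : ℝ) ^ ((t - κ) * L) := by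
        rw [hXL, Real.rpow_natCast]
        refine lt_of_le_of_lt ?_ hbad
        unfold lr
        exact_mod_cast Nat.pow_log_le_self 2 (rd_pos i j k z).ne'
      rw [Real.rpow_lt_rpow_left_iff (by norm_num)] at h7
      exact h7.le
    have h5 : (2 / 3 + d / 24 - 1 / 3) * (Sr z i j k : ℝ) ≤
        1 / 3 * ((t - κ) * L + 2 * ((t + w) * L)) + d / 24 * (3 * ((t + w) * L)) := by
      have e1 : 1 / 3 * (Sr z i j k : ℝ) ≤ 1 / 3 * ((t - κ) * L + 2 * ((t + w) * L)) := by linarith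
      have e2 : d / 24 * (Sr z i j k : ℝ) ≤ d / 24 * (3 * ((t + w) * L)) := by
        apply mul_le_mul_of_nonneg_left _ (by positivity)
        linarith
      calc (2 / 3 + d / 24 - 1 / 3) * (Sr z i j k : ℝ) =
          1 / 3 * (Sr z i j k : ℝ) + d / 24 * (Sr z i j k : ℝ) := by ring
        _ ≤ _ := add_le_add e1 e2
    calc (2 / 3 + d / 24 - 1 / 3) * (Sr z i j k : ℝ) + (m - 2) * ((t + w) * L) ≤
        1 / 3 * ((t - κ) * L + 2 * ((t + w) * L)) + d / 24 * (3 * ((t + w) * L)) +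
          (m - 2) * ((t + w) * L) := by linarith
      _ = ((m - 1) * t - κ / 3 + w * (m - 1) - w / 3 + d / 8 * (t + w)) * L := by ring
      _ ≤ (2 / (m : ℝ) - d + d / 8) * L := by
          apply mul_le_mul_of_nonneg_right _ hL0
          rw [htm]
          have h8 : t + w ≤ 1 := by linarith
          have h9 : d / 8 * (t + w) ≤ d / 8 * 1 := mul_le_mul_of_nonneg_left h8 (by positivity)
          linarith

end Pool.Agent.H583.PD
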