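import Pool.Agent.H583.PD.I
import Pool.Agent.H583.PD.D

/-!
Configurations of integers: almost all are typical, the typical ones are small.
-/

set_option autoImplicit false

namespace Pool.Agent.H583.PD

open Finset Pool.Agent.T2H20.ABC Pool.Agent.T2H20.AH Pool.Agent.H785R2.ABC Pool.Agent.H583.SF
  Pool.Agent.H583.WT Pool.Agent.H583.AL Pool.Agent.H583.AR Pool.Agent.H583.GD

variable {m : ℕ}

open Classical in
/-- **the untypical configurations are few** -/
theorem thin (hm : 3 ≤ m) (κ : ℝ) (hκ : 0 < κ) (hκ1 : κ ≤ 1) : ∃ δ C : ℝ, 0 < δ ∧ 0 < C ∧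
    ∀ X : ℕ, 1 ≤ X → ∀ Q : Finset (Fin m → ℤ), (∀ x ∈ Q, Cf x ∧ pr x ≤ X ∧ Bad κ X x) →
    (Q.card : ℝ) ≤ C * (X : ℝ) ^ (2 / (m : ℝ) - δ) := by
  obtain ⟨δ, C₁, hδ, hC₁, hδm, h₁⟩ := thin1 hm κ hκ hκ1
  obtain ⟨M, C₂, -, hC₂, h₂⟩ := upper hm 1 (by norm_num)
  obtain ⟨D, hD, hlog⟩ := log_pow_le (m * m + m * m * m) δ hδ
  have hm3 : (3 : ℝ) ≤ m := by exact_mod_cast hm
  have hm0 : (0 : ℝ) < m := by linarith
  obtain ⟨Y, hY⟩ : ∃ Y : ℝ, Y = 2 ^ (2 / κ) := ⟨_, rfl⟩
  have hY1 : 1 ≤ Y := by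
    rw [hY]
    exact Real.one_le_rpow (by norm_num) (by positivity)
  refine ⟨2 * δ, D * 2 ^ (m ^ 3) * C₁ + C₂ * Y ^ (2 / (m : ℝ) + 1), by positivity, by positivity, ?_⟩
  intro X hX Q hQ
  have hX1 : (1 : ℝ) ≤ X := by exact_mod_cast hX
  have hX0 : (0 : ℝ) < X := by linarith
  have h2δ : 0 ≤ 2 / (m : ℝ) - 2 * δ := by
    have h1 : 1 / 4 / (m : ℝ) ≤ 1 / m := by
      apply div_le_div_of_nonneg_right _ hm0.le
      norm_num
    have h2 : 2 / (m : ℝ) = 1 / m + 1 / m := by ring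
    linarith
  by_cases hsm : 2 ≤ κ * Real.logb 2 X
  swap
  · -- small `X`
    rw [not_le] at hsm
    have h1 : (X : ℝ) ≤ Y := by
      rw [hY]
      have h2 : Real.logb 2 X ≤ 2 / κ := by
        rw [le_div_iff₀ hκ]
        linarith
      rwa [Real.logb_le_iff_le_rpow (by norm_num) hX0] at h2
    have h2 := (h₂ X hX Q fun x hx => ⟨(hQ x hx).1, (hQ x hx).2.1⟩).1
    calc (Q.card : ℝ) ≤ C₂ * (X : ℝ) ^ (2 / (m : ℝ) + 1) := h2
      _ ≤ C₂ * Y ^ (2 / (m : ℝ) + 1) := by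
          apply mul_le_mul_of_nonneg_left _ hC₂.le
          exact Real.rpow_le_rpow hX0.le h1 (by positivity)
      _ ≤ D * 2 ^ (m ^ 3) * C₁ + C₂ * Y ^ (2 / (m : ℝ) + 1) := by
          have : 0 ≤ D * 2 ^ (m ^ 3) * C₁ := by positivity
          linarith
      _ ≤ (D * 2 ^ (m ^ 3) * C₁ + C₂ * Y ^ (2 / (m : ℝ) + 1)) * (X : ℝ) ^ (2 / (m : ℝ) - 2 * δ) := by
          apply le_mul_of_one_le_right (by positivity)
          exact Real.one_le_rpow hX1 h2δ
  obtain ⟨F, hF⟩ : ∃ F : ℝ, F = C₁ * (X : ℝ) ^ (2 / (m : ℝ) - 3 * δ) := ⟨_, rfl⟩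
  have hF0 : 0 ≤ F := by rw [hF]; positivity
  obtain ⟨g, hg⟩ : ∃ g : (Fin m → ℤ) → (Fin m → Fin m → ℕ) × (Fin m → Fin m → Fin m → ℕ) ×
      Finset (Fin m × Fin m × Fin m),
      g = fun x => (ex x, lr x, univ.filter fun t => (zr (U (yy t.1 t.2.1 t.2.2 x)) : ℝ) ^ (1 / 3 + κ) ≤
        Cc (yy t.1 t.2.1 t.2.2 x)) := ⟨_, rfl⟩
  obtain ⟨G, hG⟩ : ∃ G : Finset ((Fin m → Fin m → ℕ) × (Fin m → Fin m → Fin m → ℕ) ×
      Finset (Fin m × Fin m × Fin m)),
      G = (Fintype.piFinset fun _ : Fin m => Fintype.piFinset fun _ : Fin m =>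
        range (Nat.log 2 X + 1)) ×ˢ ((Fintype.piFinset fun _ : Fin m =>
        Fintype.piFinset fun _ : Fin m => Fintype.piFinset fun _ : Fin m =>
        range (Nat.log 2 X + 1)) ×ˢ univ) := ⟨_, rfl⟩
  have hmap : ∀ x ∈ Q, g x ∈ G := by
    intro x hx
    obtain ⟨cx, px, -⟩ := hQ x hx
    rw [hg, hG, mem_product, mem_product]
    refine ⟨?_, ?_, mem_univ _⟩
    · simp only [Fintype.mem_piFinset, mem_range]
      intro a b
      rw [Nat.lt_succ_iff]
      by_cases hab : a = b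
      · rw [hab, ex_diag]
        exact Nat.zero_le _
      · exact Nat.log_mono_right ((zr_le_pr x hab).trans px)
    · simp only [Fintype.mem_piFinset, mem_range]
      intro a b c
      rw [Nat.lt_succ_iff]
      exact (lr_ex x cx a b c).trans (Nat.log_mono_right px)
  have hGc : (G.card : ℝ) ≤ D * (X : ℝ) ^ δ * 2 ^ (m ^ 3) := by
    have h1 : G.card = (Nat.log 2 X + 1) ^ (m * m + m * m * m) * 2 ^ (m ^ 3) := by
      rw [hG, Finset.card_product, Finset.card_product, Fintype.card_piFinset, Fintype.card_piFinset]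
      simp only [Fintype.card_piFinset, Finset.card_range, Finset.prod_const, Finset.card_univ,
        Fintype.card_fin, Fintype.card_finset, Fintype.card_prod]
      rw [← pow_mul, ← pow_mul, pow_add]
      rw [show m * (m * m) = m ^ 3 by ring, show m * m * m = m ^ 3 by ring]
      ring
    rw [h1]
    push_cast
    apply mul_le_mul_of_nonneg_right _ (by positivity)
    have h2 := hlog X hX
    push_cast at h2
    exact h2
  have hfib : ∀ b ∈ G, (((Q.filter fun x => g x = b).card : ℕ) : ℝ) ≤ F := by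
    intro b hb
    rcases (Q.filter fun x => g x = b).eq_empty_or_nonempty with h0 | ⟨z, hz⟩
    · rw [h0, Finset.card_empty, Nat.cast_zero]
      exact hF0
    rw [mem_filter] at hz
    obtain ⟨hzQ, hzb⟩ := hz
    obtain ⟨cz, pz, wz⟩ := hQ z hzQ
    rw [hF]
    apply h₁ X hX hsm z cz pz wz
    intro x hx
    rw [mem_filter] at hx
    obtain ⟨hxQ, hxb⟩ := hx
    have h1 : g x = g z := hxb.trans hzb.symm
    rw [hg, Prod.mk.injEq, Prod.mk.injEq] at h1
    refine ⟨(hQ x hxQ).1, h1.1, h1.2.1, fun i j k ht => ?_⟩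
    have h2 : (i, j, k) ∈ univ.filter fun t : Fin m × Fin m × Fin m =>
        (zr (U (yy t.1 t.2.1 t.2.2 z)) : ℝ) ^ (1 / 3 + κ) ≤ Cc (yy t.1 t.2.1 t.2.2 z) :=
      mem_filter.2 ⟨mem_univ _, ht⟩
    rw [← h1.2.2, mem_filter] at h2
    exact h2.2
  have hsum : Q.card = ∑ b ∈ G, (Q.filter fun x => g x = b).card :=
    Finset.card_eq_sum_card_fiberwise hmap
  calc (Q.card : ℝ) = ∑ b ∈ G, (((Q.filter fun x => g x = b).card : ℕ) : ℝ) := by
        rw [hsum]; push_cast; rfl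
    _ ≤ ∑ b ∈ G, F := Finset.sum_le_sum hfib
    _ = G.card * F := by rw [Finset.sum_const, nsmul_eq_mul]
    _ ≤ (D * (X : ℝ) ^ δ * 2 ^ (m ^ 3)) * F := mul_le_mul_of_nonneg_right hGc hF0
    _ = D * 2 ^ (m ^ 3) * C₁ * ((X : ℝ) ^ δ * (X : ℝ) ^ (2 / (m : ℝ) - 3 * δ)) := by
        rw [hF]
        ring
    _ = D * 2 ^ (m ^ 3) * C₁ * (X : ℝ) ^ (2 / (m : ℝ) - 2 * δ) := by
        rw [← Real.rpow_add hX0]
        congr 2
        ring
    _ ≤ _ := by
        apply mul_le_mul_of_nonneg_right _ (by positivity)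
        have : 0 ≤ C₂ * Y ^ (2 / (m : ℝ) + 1) := by positivity
        linarith

/-- a common multiple of the denominators -/
lemma dens {x : Fin m → ℤ} (h : Cf x) {i j : Fin m} (hij : i ≠ j) {D : ℕ} (hD0 : 0 < D)
    (hk : ∀ k, (yy i j k x).den ∣ D) : (x i - x j).natAbs ≤ D := by
  classical
  have hm : 0 < m := lt_of_le_of_lt (Nat.zero_le _) i.2
  have x0 := h.zero ⟨0, hm⟩ rfl
  have hv : ∀ k, ∃ v : ℤ, (D : ℤ) * (x k - x i) = (x i - x j) * v := by
    intro k
    obtain ⟨c, h1, h2, -⟩ := yy_eq (k := k) h hij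
    obtain ⟨t, ht⟩ := hk k
    refine ⟨t * (yy i j k x).num, ?_⟩
    rw [ht, h1, h2]
    push_cast
    ring
  choose v hv using hv
  have hvx : ∀ k, (D : ℤ) * x k = (x i - x j) * (v k - v ⟨0, hm⟩) := by
    intro k
    have h1 := hv k
    have h2 := hv ⟨0, hm⟩
    rw [x0] at h2
    linear_combination h1 - h2
  have g1 : Finset.univ.gcd (fun k => (D : ℤ) * x k) = normalize (D : ℤ) := by
    rw [Finset.gcd_mul_left, h.gcd, mul_one]
  have g2 : Finset.univ.gcd (fun k => (D : ℤ) * x k) =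
      normalize (x i - x j) * Finset.univ.gcd fun k => v k - v ⟨0, hm⟩ := by
    rw [← Finset.gcd_mul_left]
    congr 1
    funext k
    exact hvx k
  have h1 : normalize (x i - x j) ∣ normalize (D : ℤ) := ⟨_, g1.symm.trans g2⟩
  rw [normalize_dvd_iff, dvd_normalize_iff] at h1
  exact Nat.le_of_dvd hD0 (by
    have := Int.natAbs_dvd_natAbs.2 h1
    rwa [Int.natAbs_natCast] at this)

/-- **a typical configuration is small** -/
theorem small (hm : 3 ≤ m) (κ : ℝ) (hκ : 0 < κ) (hκ1 : κ ≤ 1) {X : ℕ} (hX : 1 ≤ X) {x : Fin m → ℤ}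
    (h : Cf x) (hb : ¬ Bad κ X x) {i j : Fin m} (hij : i ≠ j) :
    (((x i - x j).natAbs : ℕ) : ℝ) ≤ (X : ℝ) ^ (2 / ((m : ℝ) * (m - 1)) + 7 * m * κ) := by
  classical
  have hm3 : (3 : ℝ) ≤ m := by exact_mod_cast hm
  have hX1 : (1 : ℝ) ≤ X := by exact_mod_cast hX
  have hX0 : (0 : ℝ) < X := by linarith
  obtain ⟨t, ht⟩ : ∃ t : ℝ, t = 2 / ((m : ℝ) * (m - 1)) := ⟨_, rfl⟩
  have hmm : (0 : ℝ) < m * (m - 1) := by nlinarith
  have ht0 : 0 < t := by rw [ht]; positivity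
  have ht3 : t ≤ 1 / 3 := by
    rw [ht, div_le_div_iff₀ hmm (by norm_num)]
    nlinarith
  unfold Bad at hb
  rw [← ht] at hb ⊢
  push Not at hb
  obtain ⟨b1, b2, b3⟩ := hb
  -- the cofactors
  have hrd : ∀ k, rd i j k x ∣ (yy i j k x).den := by
    intro k
    unfold rd zr rad
    rw [Int.natAbs_natCast]
    exact Nat.prod_primeFactors_dvd _
  choose s hs using hrd
  have hs1 : ∀ k, (s k : ℝ) ≤ (X : ℝ) ^ (6 * κ) := by
    intro k
    have hone : (1 : ℝ) ≤ (X : ℝ) ^ (6 * κ) := Real.one_le_rpow hX1 (by positivity)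
    have htriv : (yy i j k x).den = 1 → (s k : ℝ) ≤ (X : ℝ) ^ (6 * κ) := by
      intro h1
      have h2 := hs k
      rw [h1] at h2
      have h3 : s k = 1 := Nat.eq_one_of_mul_eq_one_left h2.symm
      rw [h3, Nat.cast_one]
      exact hone
    by_cases hki : k = i
    · apply htriv
      rw [hki, yy_i]
      rfl
    by_cases hkj : k = j
    · apply htriv
      rw [hkj, yy_j h hij]
      rfl
    have hik : i ≠ k := Ne.symm hki
    have hjk : j ≠ k := Ne.symm hkj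
    have r1 : (rd i j k x : ℝ) ≤ (X : ℝ) ^ (t + κ) :=
      le_trans (by exact_mod_cast rd_le h hij hik hjk) (b1 i j hij)
    have r2 : (rd i k j x : ℝ) ≤ (X : ℝ) ^ (t + κ) :=
      le_trans (by exact_mod_cast rd_le h hik hij hjk.symm) (b1 i k hik)
    have r3 : (rd j k i x : ℝ) ≤ (X : ℝ) ^ (t + κ) :=
      le_trans (by exact_mod_cast rd_le h hjk hij.symm hik.symm) (b1 j k hjk)
    have hU : (zr (U (yy i j k x)) : ℝ) ≤ (X : ℝ) ^ (3 * (t + κ)) := by
      have h1 : (zr (U (yy i j k x)) : ℝ) ≤ (rd i j k x : ℝ) * rd i k j x * rd j k i x := by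
        exact_mod_cast zU_le h hij hik hjk
      calc (zr (U (yy i j k x)) : ℝ) ≤ (rd i j k x : ℝ) * rd i k j x * rd j k i x := h1
        _ ≤ (X : ℝ) ^ (t + κ) * (X : ℝ) ^ (t + κ) * (X : ℝ) ^ (t + κ) := by gcongr
        _ = _ := by
            rw [← Real.rpow_add hX0, ← Real.rpow_add hX0]
            congr 1
            ring
    have hC : (Cc (yy i j k x) : ℝ) ≤ (X : ℝ) ^ (t + 5 * κ) := by
      refine (b2 i j k hij hik hjk).le.trans ?_
      calc (zr (U (yy i j k x)) : ℝ) ^ (1 / 3 + κ) ≤ ((X : ℝ) ^ (3 * (t + κ))) ^ (1 / 3 + κ) :=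
            Real.rpow_le_rpow (Nat.cast_nonneg _) hU (by positivity)
        _ = (X : ℝ) ^ (3 * (t + κ) * (1 / 3 + κ)) := by rw [← Real.rpow_mul hX0.le]
        _ ≤ _ := by
            apply Real.rpow_le_rpow_of_exponent_le hX1
            nlinarith
    have hden : ((yy i j k x).den : ℝ) ≤ (X : ℝ) ^ (t + 5 * κ) := by
      refine le_trans ?_ hC
      exact_mod_cast (le_max_right _ _).trans (le_max_left _ _)
    have hlow := b3 i j k hij hik hjk
    have h2 : ((rd i j k x : ℕ) : ℝ) * s k ≤ (X : ℝ) ^ (t + 5 * κ) := by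
      refine le_trans (le_of_eq ?_) hden
      exact_mod_cast (hs k).symm
    have h3 : (X : ℝ) ^ (t - κ) * s k ≤ (X : ℝ) ^ (t + 5 * κ) :=
      (mul_le_mul_of_nonneg_right hlow (Nat.cast_nonneg _)).trans h2
    have h4 : (X : ℝ) ^ (t + 5 * κ) = (X : ℝ) ^ (t - κ) * (X : ℝ) ^ (6 * κ) := by
      rw [← Real.rpow_add hX0]
      congr 1
      ring
    rw [h4] at h3
    exact le_of_mul_le_mul_left h3 (by positivity)
  have hspos : ∀ k, 0 < s k := by
    intro k
    rcases Nat.eq_zero_or_pos (s k) with h1 | h1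
    · have h2 := hs k
      rw [h1, mul_zero] at h2
      exact absurd h2 (yy i j k x).den_pos.ne'
    · exact h1
  have h5 := dens h hij (D := zr (x i - x j) * ∏ k, s k)
    (Nat.mul_pos (zr_pos _) (Finset.prod_pos fun k _ => hspos k)) (by
      intro k
      rw [hs k]
      apply Nat.mul_dvd_mul
      · by_cases hki : k = i
        · rw [hki]
          unfold rd
          rw [yy_i]
          unfold zr rad
          simp
        by_cases hkj : k = j
        · rw [hkj]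
          unfold rd
          rw [yy_j h hij]
          unfold zr rad
          simp
        exact (yy_facts h hij hki hkj).1
      · exact Finset.dvd_prod_of_mem _ (mem_univ k))
  calc (((x i - x j).natAbs : ℕ) : ℝ) ≤ ((zr (x i - x j) * ∏ k, s k : ℕ) : ℝ) := by exact_mod_cast h5
    _ = (zr (x i - x j) : ℝ) * ∏ k, (s k : ℝ) := by push_cast; rfl
    _ ≤ (X : ℝ) ^ (t + κ) * ∏ _k : Fin m, (X : ℝ) ^ (6 * κ) := by
        apply mul_le_mul (b1 i j hij) _ (Finset.prod_nonneg fun k _ => Nat.cast_nonneg _) (by positivity)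
        exact Finset.prod_le_prod (fun k _ => Nat.cast_nonneg _) fun k _ => hs1 k
    _ = (X : ℝ) ^ (t + κ + 6 * m * κ) := by
        rw [Finset.prod_const, Finset.card_univ, Fintype.card_fin, ← Real.rpow_natCast,
          ← Real.rpow_mul hX0.le, ← Real.rpow_add hX0]
        congr 1
        ring
    _ ≤ _ := by
        apply Real.rpow_le_rpow_of_exponent_le hX1
        nlinarith

end Pool.Agent.H583.PD
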