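import Pool.Agent.H583.PD.J

/-!
Configurations of integers: the sum over the classes, the number of the exceptional ratios, and two
linear programmes.
-/

set_option autoImplicit false

namespace Pool.Agent.H583.PD

open Finset Pool.Agent.T2H20.ABC Pool.Agent.T2H20.AH Pool.Agent.H785R2.ABC Pool.Agent.H583.SF
  Pool.Agent.H583.WT Pool.Agent.H583.AL Pool.Agent.H583.AR Pool.Agent.H583.GD

variable {m : ℕ}

open Classical in
/-- **the sum over the classes** -/
theorem classes (m : ℕ) (ε : ℝ) (hε : 0 < ε) : ∃ D : ℝ, 0 < D ∧ ∀ X : ℕ, 1 ≤ X →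
    ∀ Q : Finset (Fin m → ℤ), (∀ x ∈ Q, Cf x ∧ pr x ≤ X) →
    ∀ bs : (Fin m → ℤ) → Finset (Fin m × Fin m × Fin m), ∀ F : ℝ, 0 ≤ F →
    (∀ z ∈ Q, (((Q.filter fun x => ex x = ex z ∧ lr x = lr z ∧ bs x = bs z).card : ℕ) : ℝ) ≤ F) →
    (Q.card : ℝ) ≤ D * (X : ℝ) ^ ε * F := by
  obtain ⟨D, hD, hlog⟩ := log_pow_le (m * m + m * m * m) ε hε
  refine ⟨D * 2 ^ (m ^ 3), by positivity, ?_⟩
  intro X hX Q hQ bs F hF0 hF
  obtain ⟨g, hg⟩ : ∃ g : (Fin m → ℤ) → (Fin m → Fin m → ℕ) × (Fin m → Fin m → Fin m → ℕ) ×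
      Finset (Fin m × Fin m × Fin m), g = fun x => (ex x, lr x, bs x) := ⟨_, rfl⟩
  obtain ⟨G, hG⟩ : ∃ G : Finset ((Fin m → Fin m → ℕ) × (Fin m → Fin m → Fin m → ℕ) ×
      Finset (Fin m × Fin m × Fin m)),
      G = (Fintype.piFinset fun _ : Fin m => Fintype.piFinset fun _ : Fin m =>
        range (Nat.log 2 X + 1)) ×ˢ ((Fintype.piFinset fun _ : Fin m =>
        Fintype.piFinset fun _ : Fin m => Fintype.piFinset fun _ : Fin m =>
        range (Nat.log 2 X + 1)) ×ˢ univ) := ⟨_, rfl⟩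
  have hmap : ∀ x ∈ Q, g x ∈ G := by
    intro x hx
    obtain ⟨cx, px⟩ := hQ x hx
    rw [hg, hG, mem_product, mem_product]
    refine ⟨?_, ?_, mem_univ _⟩
    · simp only [Fintype.mem_piFinset, mem_range]
      intro a b
      rw [Nat.lt_succ_iff]
      by_cases hab : a = b
      · rw [hab, ex_diag]
        exact Nat.zero_le _
      · exact Nat.log_mono_right ((zr_le_pr x hab).trans px)
    · simp only [Fintype.mem_piFinset, mem_range]
      intro a b c
      rw [Nat.lt_succ_iff]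
      exact (lr_ex x cx a b c).trans (Nat.log_mono_right px)
  have hGc : (G.card : ℝ) ≤ D * (X : ℝ) ^ ε * 2 ^ (m ^ 3) := by
    have h1 : G.card = (Nat.log 2 X + 1) ^ (m * m + m * m * m) * 2 ^ (m ^ 3) := by
      rw [hG, Finset.card_product, Finset.card_product, Fintype.card_piFinset, Fintype.card_piFinset]
      simp only [Fintype.card_piFinset, Finset.card_range, Finset.prod_const, Finset.card_univ,
        Fintype.card_fin, Fintype.card_finset, Fintype.card_prod]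
      rw [← pow_mul, ← pow_mul, pow_add]
      rw [show m * (m * m) = m ^ 3 by ring, show m * m * m = m ^ 3 by ring]
      ring
    rw [h1]
    push_cast
    apply mul_le_mul_of_nonneg_right _ (by positivity)
    have h2 := hlog X hX
    push_cast at h2
    exact h2
  have hfib : ∀ b ∈ G, (((Q.filter fun x => g x = b).card : ℕ) : ℝ) ≤ F := by
    intro b hb
    rcases (Q.filter fun x => g x = b).eq_empty_or_nonempty with h0 | ⟨z, hz⟩
    · rw [h0, Finset.card_empty, Nat.cast_zero]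
      exact hF0
    rw [mem_filter] at hz
    obtain ⟨hzQ, hzb⟩ := hz
    refine le_trans ?_ (hF z hzQ)
    have hsub : (Q.filter fun x => g x = b) ⊆
        Q.filter fun x => ex x = ex z ∧ lr x = lr z ∧ bs x = bs z := by
      intro x hx
      rw [mem_filter] at hx ⊢
      refine ⟨hx.1, ?_⟩
      have h1 : g x = g z := hx.2.trans hzb.symm
      rw [hg, Prod.mk.injEq, Prod.mk.injEq] at h1
      exact h1
    exact_mod_cast card_le_card hsub
  have hsum : Q.card = ∑ b ∈ G, (Q.filter fun x => g x = b).card :=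
    Finset.card_eq_sum_card_fiberwise hmap
  calc (Q.card : ℝ) = ∑ b ∈ G, (((Q.filter fun x => g x = b).card : ℕ) : ℝ) := by
        rw [hsum]; push_cast; rfl
    _ ≤ ∑ b ∈ G, F := Finset.sum_le_sum hfib
    _ = G.card * F := by rw [Finset.sum_const, nsmul_eq_mul]
    _ ≤ (D * (X : ℝ) ^ ε * 2 ^ (m ^ 3)) * F := mul_le_mul_of_nonneg_right hGc hF0
    _ = _ := by ring

/-- **exceptional ratios**, the numerator -/
theorem exc1 (ε : ℝ) (hε : 0 < ε) : ∃ M : ℕ, ∃ C : ℝ, 1 ≤ M ∧ 0 < C ∧ ∀ X P B : ℕ, 1 ≤ X → 1 ≤ P →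
    1 ≤ B → ∀ Q : Finset ℚ, (∀ y ∈ Q, y ≠ 0 ∧ y ≠ -1 ∧ zr (U y) ≤ X ∧ zr y.den ≤ P ∧
      zr y.num ≤ B ∧ zr (U y) ^ M ≤ Cc y) →
    (Q.card : ℝ) ≤ C * (X : ℝ) ^ ε * Real.sqrt (P * B) := by
  classical
  obtain ⟨M, m, C, hM, hC, h⟩ := fam_exceptions ε hε
  refine ⟨M + 1, 6 * C, by omega, by positivity, ?_⟩
  intro X P B hX hP hB Q hQ
  have hex : ∀ y : ℚ, ∃ (q : ℕ × ℕ) (w : Fin 3 × Bool), y ∈ Q →
      (0 < q.1 ∧ 0 < q.2 ∧ Nat.Coprime q.1 q.2 ∧ rad (q.1 * q.2 * (q.1 + q.2)) = zr (U y) ∧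
      (∃ i j : Fin 3, i ≠ j ∧ rad (num (tri q) i) = zr y.den ∧ rad (num (tri q) j) = zr y.num) ∧
      Cc y ≤ 2 * (q.1 + q.2) ∧
      y = ((dec (q, 1, w.1, w.2)).2 : ℚ) / ((dec (q, 1, w.1, w.2)).1 : ℚ)) := by
    intro y
    by_cases hy : y ∈ Q
    · obtain ⟨g1, g2, -⟩ := hQ y hy
      obtain ⟨q, w, hqw⟩ := code g1 g2
      exact ⟨q, w, fun _ => hqw⟩
    · exact ⟨(0, 0), (0, true), fun h => absurd h hy⟩
  choose T W hTW using hex
  have h1 : Q.card ≤ 6 * (Q.image T).card := by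
    apply Finset.card_le_mul_card_image
    intro t ht
    have hsub : (Q.filter fun y => T y = t) ⊆ (Finset.univ : Finset (Fin 3 × Bool)).image
        (fun w => ((dec (t, 1, w.1, w.2)).2 : ℚ) / ((dec (t, 1, w.1, w.2)).1 : ℚ)) := by
      intro y hy
      rw [mem_filter] at hy
      rw [mem_image]
      refine ⟨W y, mem_univ _, ?_⟩
      rw [← hy.2]
      exact (hTW y hy.1).2.2.2.2.2.2.symm
    refine (card_le_card hsub).trans (Finset.card_image_le.trans ?_)
    simp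
  have h2 := h X P B hX hP hB _ _ _ _ _ _ fml_all fml_all (Q.image T) (by
    intro t ht
    rw [mem_image] at ht
    obtain ⟨y, hy, rfl⟩ := ht
    obtain ⟨g1, g2, g3, g4, g5, g6⟩ := hQ y hy
    obtain ⟨a1, a2, a3, a4, ⟨i, j, hij, a5, a6⟩, a7, -⟩ := hTW y hy
    refine ⟨a1, a2, a3, a4.trans_le g3, ⟨i, j, hij, ⟨a5.trans_le g4, a6.trans_le g5⟩, trivial,
      trivial⟩, ?_⟩
    rw [a4]
    rcases Nat.lt_or_ge (zr (U y)) 2 with hX2 | hX2
    · have : zr (U y) ≤ 1 := by omega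
      calc zr (U y) ^ M ≤ 1 ^ M := Nat.pow_le_pow_left this M
        _ = 1 := one_pow _
        _ ≤ _ := by omega
    · have h4 : zr (U y) ^ M * 2 ≤ zr (U y) ^ (M + 1) := by
        rw [pow_succ]
        exact Nat.mul_le_mul_left _ hX2
      omega)
  rw [Real.rpow_one, Real.rpow_one, one_mul, one_pow, mul_one] at h2
  calc (Q.card : ℝ) ≤ ((6 * (Q.image T).card : ℕ) : ℝ) := by exact_mod_cast h1
    _ = 6 * ((Q.image T).card : ℝ) := by push_cast; ring
    _ ≤ 6 * (C * (X : ℝ) ^ ε * Real.sqrt (P * B)) := mul_le_mul_of_nonneg_left h2 (by norm_num)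
    _ = _ := by ring

/-- **exceptional ratios** -/
theorem exc2 (ε : ℝ) (hε : 0 < ε) : ∃ M : ℕ, ∃ C : ℝ, 1 ≤ M ∧ 0 < C ∧ ∀ X P B : ℕ, 1 ≤ X → 1 ≤ P →
    1 ≤ B → ∀ Q : Finset ℚ, (∀ y ∈ Q, y ≠ 0 ∧ y ≠ -1 ∧ zr (U y) ≤ X ∧ zr y.den ≤ P ∧
      (zr y.num ≤ B ∨ zr (y.num + y.den) ≤ B) ∧ zr (U y) ^ M ≤ Cc y) →
    (Q.card : ℝ) ≤ C * (X : ℝ) ^ ε * Real.sqrt (P * B) := by
  classical
  obtain ⟨M, C, hM, hC, h⟩ := exc1 ε hε
  refine ⟨M, 2 * C, hM, by positivity, ?_⟩
  intro X P B hX hP hB Q hQ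
  have h1 := h X P B hX hP hB (Q.filter fun y => zr y.num ≤ B) (by
    intro y hy
    rw [mem_filter] at hy
    obtain ⟨g1, g2, g3, g4, g5, g6⟩ := hQ y hy.1
    exact ⟨g1, g2, g3, g4, hy.2, g6⟩)
  have h2 := h X P B hX hP hB ((Q.filter fun y => ¬ zr y.num ≤ B).image fun y => -1 - y) (by
    intro z hz
    rw [mem_image] at hz
    obtain ⟨y, hy, rfl⟩ := hz
    rw [mem_filter] at hy
    obtain ⟨g1, g2, g3, g4, g5, g6⟩ := hQ y hy.1
    have g5' := g5.resolve_left hy.2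
    obtain ⟨n1, n2⟩ := neg_facts y
    refine ⟨?_, ?_, ?_, ?_, ?_, ?_⟩
    · intro h0
      apply g2
      linarith
    · intro h0
      apply g1
      linarith
    · rw [U_neg]; exact g3
    · rw [n2]; exact g4
    · rw [n1]
      unfold zr at g5' ⊢
      rw [Int.natAbs_neg]
      exact g5'
    · rw [U_neg, Cc_neg]; exact g6)
  rw [Finset.card_image_of_injective _ (by
    intro a b hab
    simp only at hab
    linarith)] at h2
  rw [← card_filter_add_card_filter_not (s := Q) (fun y => zr y.num ≤ B)]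
  push_cast at h1 h2 ⊢
  linarith

/-- **a linear programme** with one exceptional triple -/
theorem lp2 (hm : 3 ≤ m) (u : Fin m → Fin m → ℝ) (hu0 : ∀ i j, 0 ≤ u i j)
    (hus : ∀ i j, u i j = u j i) (hud : ∀ i, u i i = 0) (L : ℝ) (hL0 : 0 ≤ L)
    (hL : ∑ i, ∑ j, u i j ≤ 2 * L) {i j k : Fin m} (hij : i ≠ j) (hik : i ≠ k) (hjk : j ≠ k)
    (r₁ r₂ r₃ θ : ℝ) (hθ : θ = 1 / 3 ∨ θ = 2 * ((m : ℝ) - 2) / (m ^ 2 - 2 * m + 3)) :
    (∃ a b, a ≠ b ∧ u a b + ∑ l ∈ univ.filter (fun l => l ≠ a ∧ l ≠ b), min (u a l) (u b l) ≤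
      θ * L) ∨
    u i j - r₁ / 2 + min r₂ r₃ / 2 +
      ∑ l ∈ univ.filter (fun l => l ≠ i ∧ l ≠ j ∧ l ≠ k), min (u i l) (u j l) ≤ θ * L ∨
    u i k - r₂ / 2 + min r₁ r₃ / 2 +
      ∑ l ∈ univ.filter (fun l => l ≠ i ∧ l ≠ k ∧ l ≠ j), min (u i l) (u k l) ≤ θ * L ∨
    u j k - r₃ / 2 + min r₁ r₂ / 2 +
      ∑ l ∈ univ.filter (fun l => l ≠ j ∧ l ≠ k ∧ l ≠ i), min (u j l) (u k l) ≤ θ * L := by
  classical
  by_contra hcon
  push Not at hcon
  obtain ⟨hg, hs1, hs2, hs3⟩ := hcon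
  have hm3 : (3 : ℝ) ≤ m := by exact_mod_cast hm
  obtain ⟨R, hR⟩ : ∃ R : Finset (Fin m), R = univ.filter fun l => l ≠ i ∧ l ≠ j ∧ l ≠ k := ⟨_, rfl⟩
  have hR2 : univ.filter (fun l : Fin m => l ≠ i ∧ l ≠ k ∧ l ≠ j) = R := by
    rw [hR]
    ext l
    simp only [mem_filter, mem_univ, true_and]
    tauto
  have hR3 : univ.filter (fun l : Fin m => l ≠ j ∧ l ≠ k ∧ l ≠ i) = R := by
    rw [hR]
    ext l
    simp only [mem_filter, mem_univ, true_and]
    tauto
  rw [← hR] at hs1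
  rw [hR2] at hs2
  rw [hR3] at hs3
  have hmem : ∀ l ∈ R, l ≠ i ∧ l ≠ j ∧ l ≠ k := by
    intro l hl
    rw [hR, mem_filter] at hl
    exact hl.2
  have huniv : ∀ f : Fin m → ℝ, ∑ l, f l = f i + f j + f k + ∑ l ∈ R, f l := by
    intro f
    have h1 : (univ : Finset (Fin m)) = insert i (insert j (insert k R)) := by
      ext l
      simp only [mem_univ, mem_insert, true_iff]
      by_cases h1 : l = i
      · exact Or.inl h1
      by_cases h2 : l = j
      · exact Or.inr (Or.inl h2)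
      by_cases h3 : l = k
      · exact Or.inr (Or.inr (Or.inl h3))
      · right; right; right
        rw [hR, mem_filter]
        exact ⟨mem_univ _, h1, h2, h3⟩
    rw [h1, Finset.sum_insert (by
      rw [mem_insert, mem_insert]
      rintro (h | h | h)
      · exact hij h
      · exact hik h
      · exact (hmem i h).1 rfl), Finset.sum_insert (by
      rw [mem_insert]
      rintro (h | h)
      · exact hjk h
      · exact (hmem j h).2.1 rfl), Finset.sum_insert (fun h => (hmem k h).2.2 rfl)]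
    ring
  have hcard : (R.card : ℝ) = m - 3 := by
    have h1 := huniv fun _ => 1
    rw [Finset.sum_const, Finset.sum_const, Finset.card_univ, Fintype.card_fin, nsmul_eq_mul,
      nsmul_eq_mul, mul_one, mul_one] at h1
    linarith
  obtain ⟨ST, hST⟩ : ∃ ST, ST = u i j + u i k + u j k := ⟨_, rfl⟩
  obtain ⟨SR, hSR⟩ : ∃ SR, SR = ∑ l ∈ R, (u i l + u j l + u k l) := ⟨_, rfl⟩
  obtain ⟨SS, hSS⟩ : ∃ SS, SS = ∑ r ∈ R, ∑ l ∈ R, u r l := ⟨_, rfl⟩
  have htot : ∑ a, ∑ b, u a b = 2 * ST + 2 * SR + SS := by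
    have h1 : ∀ a, ∑ b, u a b = u a i + u a j + u a k + ∑ l ∈ R, u a l := fun a => huniv (u a)
    rw [huniv fun a => ∑ b, u a b, h1 i, h1 j, h1 k, Finset.sum_congr rfl fun a _ => h1 a,
      Finset.sum_add_distrib, ← hSS, hud, hud, hud, hus j i, hus k i, hus k j]
    have h2 : ∑ l ∈ R, (u l i + u l j + u l k) = SR := by
      rw [hSR]
      apply Finset.sum_congr rfl
      intro l _
      rw [hus l i, hus l j, hus l k]
    have h3 : ∑ l ∈ R, u i l + ∑ l ∈ R, u j l + ∑ l ∈ R, u k l = SR := by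
      rw [hSR, Finset.sum_add_distrib, Finset.sum_add_distrib]
    rw [h2, hST]
    linarith
  rw [htot] at hL
  have hSS0 : 0 ≤ SS := by
    rw [hSS]
    exact Finset.sum_nonneg fun r _ => Finset.sum_nonneg fun l _ => hu0 r l
  -- the special frames
  have hmin : ∀ a b : ℝ, min a b ≤ (a + b) / 2 := by
    intro a b
    rcases le_total a b with h | h
    · rw [min_eq_left h]; linarith
    · rw [min_eq_right h]; linarith
  have hsp : 3 * (θ * L) < ST + SR := by
    have e1 : ∑ l ∈ R, min (u i l) (u j l) + ∑ l ∈ R, min (u i l) (u k l) +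
        ∑ l ∈ R, min (u j l) (u k l) ≤ SR := by
      rw [hSR, ← Finset.sum_add_distrib, ← Finset.sum_add_distrib]
      apply Finset.sum_le_sum
      intro l _
      have f1 := hmin (u i l) (u j l)
      have f2 := hmin (u i l) (u k l)
      have f3 := hmin (u j l) (u k l)
      linarith
    have f1 := hmin r₂ r₃
    have f2 := hmin r₁ r₃
    have f3 := hmin r₁ r₂
    rw [hST]
    linarith
  rcases hθ with hθ | hθ
  · rw [hθ] at hsp
    linarith
  -- the other frames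
  obtain ⟨n, hn⟩ : ∃ n : ℝ, n = (m : ℝ) - 3 := ⟨_, rfl⟩
  have hn0 : 0 ≤ n := by rw [hn]; linarith
  have hn1 : 0 < n + 1 := by linarith
  obtain ⟨s, hs⟩ : ∃ s : ℝ, s = 3 / (2 * (n + 1)) := ⟨_, rfl⟩
  have hfr : ∀ r ∈ R, 3 * (θ * L) ≤ (3 - 2 * s) * (u i r + u j r + u k r) + 2 * s * ST +
      3 * ∑ l ∈ R, u r l := by
    intro r hr
    have hnR : 1 ≤ n := by
      rw [hn, ← hcard]
      exact_mod_cast Finset.card_pos.2 ⟨r, hr⟩
    have hs0 : 0 ≤ s := by rw [hs]; positivity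
    have hs1 : s ≤ 1 := by
      rw [hs, div_le_one (by linarith)]
      linarith
    obtain ⟨hri, hrj, hrk⟩ := hmem r hr
    have hmin2 : ∀ a b : ℝ, min a b ≤ s * a + (1 - s) * b := by
      intro a b
      have h1 := mul_le_mul_of_nonneg_left (min_le_left a b) hs0
      have h2 := mul_le_mul_of_nonneg_left (min_le_right a b) (by linarith : 0 ≤ 1 - s)
      linarith
    -- a frame
    have hone : ∀ t t' t'' : Fin m, t ≠ r → t' ≠ r → t'' ≠ r → t ≠ t' → t ≠ t'' → t' ≠ t'' →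
        univ.filter (fun l : Fin m => l ≠ t ∧ l ≠ r) = insert t' (insert t'' (R.erase r)) →
        t' ∉ R → t'' ∉ R →
        θ * L < u t r + (s * u t t' + (1 - s) * u t' r) + (s * u t t'' + (1 - s) * u t'' r) +
          ∑ l ∈ R, u r l := by
      intro t t' t'' htr ht'r ht''r h12 h13 h23 hset hn1 hn2
      have h1 := hg t r htr
      rw [hset, Finset.sum_insert (by
        rw [mem_insert, mem_erase]
        rintro (h | h)
        · exact h23 h
        · exact hn1 h.2), Finset.sum_insert (by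
        rw [mem_erase]
        exact fun h => hn2 h.2)] at h1
      have h2 := hmin2 (u t t') (u r t')
      have h3 := hmin2 (u t t'') (u r t'')
      rw [hus r t'] at h2
      rw [hus r t''] at h3
      have h4 : ∑ l ∈ R.erase r, min (u t l) (u r l) ≤ ∑ l ∈ R, u r l := by
        calc ∑ l ∈ R.erase r, min (u t l) (u r l) ≤ ∑ l ∈ R.erase r, u r l :=
              Finset.sum_le_sum fun l _ => min_le_right _ _
          _ ≤ _ := Finset.sum_le_sum_of_subset_of_nonneg (Finset.erase_subset _ _)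
              fun l _ _ => hu0 r l
      rw [hus r t', hus r t''] at h1
      linarith
    have hset : ∀ t t' t'' : Fin m, t ≠ t' → t ≠ t'' → t' ≠ t'' → t' ≠ r → t'' ≠ r →
        (∀ l, l ∈ R ↔ l ≠ t ∧ l ≠ t' ∧ l ≠ t'') →
        univ.filter (fun l : Fin m => l ≠ t ∧ l ≠ r) = insert t' (insert t'' (R.erase r)) := by
      intro t t' t'' h1 h2 h3 h4 h5 h6
      ext l
      simp only [mem_filter, mem_univ, true_and, mem_insert, mem_erase, h6]
      constructor
      · rintro ⟨g1, g2⟩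
        by_cases g3 : l = t'
        · exact Or.inl g3
        by_cases g4 : l = t''
        · exact Or.inr (Or.inl g4)
        · exact Or.inr (Or.inr ⟨g2, g1, g3, g4⟩)
      · rintro (g | g | g)
        · rw [g]; exact ⟨h1.symm, h4⟩
        · rw [g]; exact ⟨h2.symm, h5⟩
        · exact ⟨g.2.1, g.1⟩
    have hRi : i ∉ R := fun h => (hmem i h).1 rfl
    have hRj : j ∉ R := fun h => (hmem j h).2.1 rfl
    have hRk : k ∉ R := fun h => (hmem k h).2.2 rfl
    have m1 : ∀ l, l ∈ R ↔ l ≠ i ∧ l ≠ j ∧ l ≠ k := by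
      intro l
      rw [hR, mem_filter]
      simp
    have g1 := hone i j k hri.symm hrj.symm hrk.symm hij hik hjk
      (hset i j k hij hik hjk hrj.symm hrk.symm m1) hRj hRk
    have g2 := hone j i k hrj.symm hri.symm hrk.symm hij.symm hjk hik
      (hset j i k hij.symm hjk hik hri.symm hrk.symm (fun l => by rw [m1]; tauto)) hRi hRk
    have g3 := hone k i j hrk.symm hri.symm hrj.symm hik.symm hjk.symm hij
      (hset k i j hik.symm hjk.symm hij hri.symm hrj.symm (fun l => by rw [m1]; tauto)) hRi hRj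
    rw [hus j i] at g2
    rw [hus k i, hus k j] at g3
    rw [hST]
    nlinarith
  have hfrs : 3 * n * (θ * L) ≤ (3 - 2 * s) * SR + 2 * s * n * ST + 3 * SS := by
    have h1 := Finset.sum_le_sum hfr
    rw [Finset.sum_const, nsmul_eq_mul, Finset.sum_add_distrib, Finset.sum_add_distrib,
      Finset.sum_const, nsmul_eq_mul, ← Finset.mul_sum, ← Finset.mul_sum, ← hSR, ← hSS, hcard,
      ← hn] at h1
    linarith
  -- the combination
  have hden : (m : ℝ) ^ 2 - 2 * m + 3 = n ^ 2 + 4 * n + 6 := by rw [hn]; ring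
  have hnum : 2 * ((m : ℝ) - 2) = 2 * (n + 1) := by rw [hn]; ring
  rw [hden, hnum] at hθ
  have hD : 0 < n ^ 2 + 4 * n + 6 := by positivity
  have hθ0 : 0 < θ := by rw [hθ]; positivity
  obtain ⟨p, hp⟩ : ∃ p : ℝ, p = θ * (n + 2) / (2 * (n + 1)) := ⟨_, rfl⟩
  have hp0 : 0 < p := by rw [hp]; positivity
  have k1 := mul_lt_mul_of_pos_left hsp hp0
  have k2 := mul_le_mul_of_nonneg_left hfrs (by positivity : 0 ≤ θ / 6)
  have k3 : p * (ST + SR) + θ / 6 * ((3 - 2 * s) * SR + 2 * s * n * ST + 3 * SS) =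
      θ * (ST + SR + SS / 2) := by
    rw [hp, hs]
    field_simp
    ring
  have k4 : p * (3 * (θ * L)) + θ / 6 * (3 * n * (θ * L)) = θ * L := by
    have h1 : 3 * p + n / 2 * θ = 1 := by
      rw [hp, hθ]
      field_simp
      ring
    calc p * (3 * (θ * L)) + θ / 6 * (3 * n * (θ * L)) = (3 * p + n / 2 * θ) * (θ * L) := by ring
      _ = _ := by rw [h1, one_mul]
  have k5 : θ * (ST + SR + SS / 2) ≤ θ * L := mul_le_mul_of_nonneg_left (by linarith) hθ0.le
  linarith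

end Pool.Agent.H583.PD
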