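import Pool.Agent.H583.PD.K

/-!
Configurations of integers: those with an exceptional triple, and those all of whose triples are
exceptional.
-/

set_option autoImplicit false

namespace Pool.Agent.H583.PD

open Finset Pool.Agent.T2H20.ABC Pool.Agent.T2H20.AH Pool.Agent.H785R2.ABC Pool.Agent.H583.SF
  Pool.Agent.H583.WT Pool.Agent.H583.AL Pool.Agent.H583.AR Pool.Agent.H583.GD

variable {m : ℕ}

/-- the number of the exceptional ratios in a class -/
lemma ratios (ε : ℝ) (hε : 0 < ε) : ∃ M : ℕ, ∃ C : ℝ, 1 ≤ M ∧ 0 < C ∧ ∀ X : ℕ, 1 ≤ X →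
    ∀ z : Fin m → ℤ, Cf z → ∀ i j k, i ≠ j → i ≠ k → j ≠ k → ∀ R : Finset (Fin m → ℤ),
    (∀ x ∈ R, Cf x ∧ pr x ≤ X ∧ lr x = lr z ∧ Et M x i j k) →
    ((R.image (yy i j k)).card : ℝ) ≤ C * (X : ℝ) ^ ε *
      (2 : ℝ) ^ ((lr z i j k : ℝ) / 2 + min (lr z i k j : ℝ) (lr z j k i) / 2) := by
  classical
  obtain ⟨M, C, hM, hC, h⟩ := exc2 ε hε
  refine ⟨M, 2 * C, hM, by positivity, ?_⟩
  intro X hX z cz i j k hij hik hjk R hR
  have h1 := h X (2 ^ (lr z i j k + 1)) (2 ^ (min (lr z i k j) (lr z j k i) + 1)) hX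
    Nat.one_le_two_pow Nat.one_le_two_pow (R.image (yy i j k)) (by
      intro y hy
      rw [mem_image] at hy
      obtain ⟨x, hx, rfl⟩ := hy
      obtain ⟨cx, px, lx, ex⟩ := hR x hx
      have hl : ∀ a b c : Fin m, rd a b c x ≤ 2 ^ (lr z a b c + 1) := by
        intro a b c
        rw [← lx]
        exact (Nat.lt_pow_succ_log_self (by norm_num) _).le
      refine ⟨yy_ne0 cx hij hik.symm, yy_ne1 cx hij hjk.symm, ?_, hl i j k, ?_, ex⟩
      · exact (yy_facts cx hij hik.symm hjk.symm).2.2.2.trans ((three_le_pr x hij hik hjk).trans px)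
      · rcases le_total (lr z i k j) (lr z j k i) with hle | hle
        · left
          rw [min_eq_left hle, ← rd_num cx hij hik]
          exact hl i k j
        · right
          rw [min_eq_right hle, ← rd_sum cx hij hjk]
          exact hl j k i)
  refine h1.trans (le_of_eq ?_)
  have h2 : Real.sqrt (((2 ^ (lr z i j k + 1) : ℕ) : ℝ) *
      ((2 ^ (min (lr z i k j) (lr z j k i) + 1) : ℕ) : ℝ)) =
      2 * (2 : ℝ) ^ ((lr z i j k : ℝ) / 2 + min (lr z i k j : ℝ) (lr z j k i) / 2) := by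
    rw [← Nat.cast_min]
    obtain ⟨a, ha⟩ : ∃ a, a = lr z i j k := ⟨_, rfl⟩
    obtain ⟨b, hb⟩ : ∃ b, b = min (lr z i k j) (lr z j k i) := ⟨_, rfl⟩
    rw [← ha, ← hb]
    push_cast
    rw [Real.sqrt_eq_rpow, ← pow_add, ← Real.rpow_natCast, ← Real.rpow_mul (by norm_num)]
    have h3 : ((a + 1 + (b + 1) : ℕ) : ℝ) * (1 / 2) = 1 + ((a : ℝ) / 2 + (b : ℝ) / 2) := by
      push_cast
      ring
    rw [h3, Real.rpow_add (by norm_num), Real.rpow_one]
  rw [h2]
  ring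

/-- **a class with an exceptional triple** -/
lemma spe (hm : 3 ≤ m) (ε : ℝ) (hε : 0 < ε) : ∃ M : ℕ, ∃ C : ℝ, 1 ≤ M ∧ 0 < C ∧ ∀ X : ℕ, 1 ≤ X →
    ∀ z : Fin m → ℤ, Cf z → pr z ≤ X → ∀ i j k, i ≠ j → i ≠ k → j ≠ k → ∀ R : Finset (Fin m → ℤ),
    (∀ x ∈ R, Cf x ∧ pr x ≤ X ∧ ex x = ex z ∧ lr x = lr z ∧ Et M x i j k) →
    (R.card : ℝ) ≤ C * (X : ℝ) ^ ε *
      (2 : ℝ) ^ ((ex z i j : ℝ) - (lr z i j k : ℝ) / 2 + min (lr z i k j : ℝ) (lr z j k i) / 2 +
        ∑ l ∈ univ.filter (fun l => l ≠ i ∧ l ≠ j ∧ l ≠ k), min (ex z i l : ℝ) (ex z j l)) := by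
  obtain ⟨M, C, hM, hC, h⟩ := ratios (m := m) (ε / 2) (by positivity)
  obtain ⟨C₁, hC₁, h₁⟩ := spc m (ε / 2) (by positivity)
  refine ⟨M, C₁ * C, hM, by positivity, ?_⟩
  intro X hX z cz pz i j k hij hik hjk R hR
  have hX0 : (0 : ℝ) < X := by exact_mod_cast hX
  have h2 := h X hX z cz i j k hij hik hjk R (fun x hx =>
    ⟨(hR x hx).1, (hR x hx).2.1, (hR x hx).2.2.2.1, (hR x hx).2.2.2.2⟩)
  have h3 := h₁ X hX z pz i j k hij hik.symm hjk.symm R (by
    intro x hx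
    obtain ⟨k1, k2, k3, k4, -⟩ := hR x hx
    refine ⟨k1, k3, ?_⟩
    have := congrFun (congrFun (congrFun k4 i) j) k
    exact this) _ h2
  refine h3.trans (le_of_eq ?_)
  have h4 : (Nat.log 2 (rd i j k z) : ℝ) = lr z i j k := rfl
  rw [h4]
  calc C₁ * (X : ℝ) ^ (ε / 2) * (C * (X : ℝ) ^ (ε / 2) *
      (2 : ℝ) ^ ((lr z i j k : ℝ) / 2 + min (lr z i k j : ℝ) (lr z j k i) / 2)) *
      (2 : ℝ) ^ ((ex z i j : ℝ) - lr z i j k +
        ∑ l ∈ univ.filter (fun l => l ≠ i ∧ l ≠ j ∧ l ≠ k), min (ex z i l : ℝ) (ex z j l)) =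
      C₁ * C * ((X : ℝ) ^ (ε / 2) * (X : ℝ) ^ (ε / 2)) *
      ((2 : ℝ) ^ ((lr z i j k : ℝ) / 2 + min (lr z i k j : ℝ) (lr z j k i) / 2) *
      (2 : ℝ) ^ ((ex z i j : ℝ) - lr z i j k +
        ∑ l ∈ univ.filter (fun l => l ≠ i ∧ l ≠ j ∧ l ≠ k), min (ex z i l : ℝ) (ex z j l))) := by
        ring
    _ = _ := by
        rw [← Real.rpow_add hX0, add_halves, ← Real.rpow_add (by norm_num)]
        congr 2
        ring

open Classical in
/-- **the configurations with an exceptional triple** -/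
theorem one_exc (hm : 3 ≤ m) (θ ε : ℝ) (hε : 0 < ε)
    (hθ : θ = 1 / 3 ∨ θ = 2 * ((m : ℝ) - 2) / (m ^ 2 - 2 * m + 3)) :
    ∃ M : ℕ, ∃ C : ℝ, 1 ≤ M ∧ 0 < C ∧
    ∀ X : ℕ, 1 ≤ X → ∀ Q : Finset (Fin m → ℤ), (∀ x ∈ Q, Cf x ∧ pr x ≤ X ∧
      ∃ i j k, i ≠ j ∧ i ≠ k ∧ j ≠ k ∧ Et M x i j k) →
    (Q.card : ℝ) ≤ C * (X : ℝ) ^ (θ + ε) := by
  obtain ⟨M, C₁, hM, hC₁, h₁⟩ := spe hm (ε / 2) (by positivity)
  obtain ⟨C₂, hC₂, h₂⟩ := gen m (ε / 2) (by positivity)
  obtain ⟨D, hD, hcl⟩ := classes m (ε / 2) (by positivity)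
  refine ⟨M, D * (C₁ + C₂), hM, by positivity, ?_⟩
  intro X hX Q hQ
  have hX1 : (1 : ℝ) ≤ X := by exact_mod_cast hX
  have hX0 : (0 : ℝ) < X := by linarith
  obtain ⟨L, hL⟩ : ∃ L, L = Real.logb 2 X := ⟨_, rfl⟩
  have hL0 : 0 ≤ L := by
    rw [hL]
    exact Real.logb_nonneg (by norm_num) hX1
  have hXL : ∀ a : ℝ, (2 : ℝ) ^ (a * L) = (X : ℝ) ^ a := by
    intro a
    rw [hL]
    exact X_rpow hX a
  have h3 := hcl X hX Q (fun x hx => ⟨(hQ x hx).1, (hQ x hx).2.1⟩)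
    (fun x => univ.filter fun t => Et M x t.1 t.2.1 t.2.2)
    ((C₁ + C₂) * (X : ℝ) ^ (ε / 2) * (X : ℝ) ^ θ) (by positivity) (by
    intro z hz
    obtain ⟨cz, pz, i, j, k, hij, hik, hjk, ez⟩ := hQ z hz
    obtain ⟨R, hR⟩ : ∃ R, R = Q.filter fun x => ex x = ex z ∧ lr x = lr z ∧
      (univ.filter fun t : Fin m × Fin m × Fin m => Et M x t.1 t.2.1 t.2.2) =
      univ.filter fun t : Fin m × Fin m × Fin m => Et M z t.1 t.2.1 t.2.2 := ⟨_, rfl⟩
    rw [← hR]
    have hRQ : ∀ x ∈ R, Cf x ∧ pr x ≤ X ∧ ex x = ex z ∧ lr x = lr z ∧ Et M x i j k := by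
      intro x hx
      rw [hR, mem_filter] at hx
      obtain ⟨a1, a2, a3, a4⟩ := hx
      refine ⟨(hQ x a1).1, (hQ x a1).2.1, a2, a3, ?_⟩
      have h2 : (i, j, k) ∈ univ.filter fun t : Fin m × Fin m × Fin m =>
          Et M z t.1 t.2.1 t.2.2 := mem_filter.2 ⟨mem_univ _, ez⟩
      rw [← a4, mem_filter] at h2
      exact h2.2
    have fin : ∀ (K c cost : ℝ), 0 ≤ c → c ≤ C₁ + C₂ → K ≤ c * (X : ℝ) ^ (ε / 2) * (2 : ℝ) ^ cost →
        cost ≤ θ * L → K ≤ (C₁ + C₂) * (X : ℝ) ^ (ε / 2) * (X : ℝ) ^ θ := by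
      intro K c cost hc0 hc hK hcost
      calc K ≤ c * (X : ℝ) ^ (ε / 2) * (2 : ℝ) ^ cost := hK
        _ ≤ c * (X : ℝ) ^ (ε / 2) * (2 : ℝ) ^ (θ * L) := by
            apply mul_le_mul_of_nonneg_left _ (by positivity)
            exact Real.rpow_le_rpow_of_exponent_le (by norm_num) hcost
        _ = c * (X : ℝ) ^ (ε / 2) * (X : ℝ) ^ θ := by rw [hXL]
        _ ≤ _ := by
            apply mul_le_mul_of_nonneg_right _ (by positivity)
            exact mul_le_mul_of_nonneg_right hc (by positivity)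
    rcases lp2 hm (fun a b => (ex z a b : ℝ)) (fun _ _ => Nat.cast_nonneg _)
      (fun a b => by rw [ex_symm]) (fun a => by rw [ex_diag]; norm_num) L hL0
      (by rw [hL]; exact ex_sum2 hX pz) hij hik hjk (lr z i j k) (lr z i k j) (lr z j k i) θ hθ with
      ⟨a, b, hab, hcost⟩ | hcost | hcost | hcost
    · exact fin _ C₂ _ hC₂.le (by linarith)
        (h₂ X hX z pz a b hab R fun x hx => ⟨(hRQ x hx).1, (hRQ x hx).2.2.1⟩) hcost
    · exact fin _ C₁ _ hC₁.le (by linarith) (h₁ X hX z cz pz i j k hij hik hjk R hRQ) hcost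
    · refine fin _ C₁ _ hC₁.le (by linarith) (h₁ X hX z cz pz i k j hik hij hjk.symm R (by
        intro x hx
        obtain ⟨a1, a2, a3, a4, a5⟩ := hRQ x hx
        exact ⟨a1, a2, a3, a4, (Et_swap' a1 hij hik).1 a5⟩)) ?_
      rw [lr_swap cz i hjk]
      exact hcost
    · refine fin _ C₁ _ hC₁.le (by linarith) (h₁ X hX z cz pz j k i hjk hij.symm hik.symm R (by
        intro x hx
        obtain ⟨a1, a2, a3, a4, a5⟩ := hRQ x hx
        exact ⟨a1, a2, a3, a4, (Et_swap' a1 hij.symm hjk).1 ((Et_swap a1 hij).1 a5)⟩)) ?_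
      rw [lr_swap cz k hij, lr_swap cz j hik]
      exact hcost)
  refine h3.trans (le_of_eq ?_)
  calc D * (X : ℝ) ^ (ε / 2) * ((C₁ + C₂) * (X : ℝ) ^ (ε / 2) * (X : ℝ) ^ θ) =
      D * (C₁ + C₂) * ((X : ℝ) ^ (ε / 2) * (X : ℝ) ^ (ε / 2) * (X : ℝ) ^ θ) := by ring
    _ = _ := by
        rw [← Real.rpow_add hX0, add_halves, ← Real.rpow_add hX0]
        congr 2
        ring

/-- **a class all of whose triples are exceptional** -/
lemma spa (hm : 3 ≤ m) (ε : ℝ) (hε : 0 < ε) : ∃ M : ℕ, ∃ C : ℝ, 1 ≤ M ∧ 0 < C ∧ ∀ X : ℕ, 1 ≤ X →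
    ∀ z : Fin m → ℤ, Cf z → pr z ≤ X → ∀ i j k, i ≠ j → i ≠ k → j ≠ k → ∀ R : Finset (Fin m → ℤ),
    (∀ x ∈ R, Cf x ∧ pr x ≤ X ∧ ex x = ex z ∧ lr x = lr z ∧
      ∀ a b c, a ≠ b → a ≠ c → b ≠ c → Et M x a b c) →
    (R.card : ℝ) ≤ C * (X : ℝ) ^ ε *
      (2 : ℝ) ^ ((ex z i j : ℝ) - (lr z i j k : ℝ) / 2 + min (lr z i k j : ℝ) (lr z j k i) / 2 +
        (∑ l ∈ univ.filter (fun l => l ≠ i ∧ l ≠ j ∧ l ≠ k), min (ex z i l : ℝ) (ex z j l)) / 2) := by
  classical
  obtain ⟨M₁, C₁, hM₁, hC₁, h₁⟩ := ratios (m := m) (ε / 2) (by positivity)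
  obtain ⟨M₂, C₂, hM₂, hC₂, h₂⟩ := box2 m (ε / 2) (by positivity)
  have hmono : ∀ (N : ℕ) (x : Fin m → ℤ) (a b c : Fin m), N ≤ M₁ + M₂ → Et (M₁ + M₂) x a b c →
      Et N x a b c := by
    intro N x a b c hN h
    unfold Et at h ⊢
    exact (Nat.pow_le_pow_right (zr_pos _) hN).trans h
  refine ⟨M₁ + M₂, C₂ * 8 ^ (ε / 2) * (2 * 2 ^ m) * C₁, by omega, by positivity, ?_⟩
  intro X hX z cz pz i j k hij hik hjk R hR
  have hX0 : (0 : ℝ) < X := by exact_mod_cast hX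
  have h3 := h₁ X hX z cz i j k hij hik hjk R (fun x hx =>
    ⟨(hR x hx).1, (hR x hx).2.1, (hR x hx).2.2.2.1,
      hmono M₁ x i j k (by omega) ((hR x hx).2.2.2.2 i j k hij hik hjk)⟩)
  obtain ⟨N, hN⟩ : ∃ N : ℝ, N = C₁ * (X : ℝ) ^ (ε / 2) *
      (2 : ℝ) ^ ((lr z i j k : ℝ) / 2 + min (lr z i k j : ℝ) (lr z j k i) / 2) := ⟨_, rfl⟩
  rw [← hN] at h3
  have hN0 : 0 ≤ N := by rw [hN]; positivity
  have h4 := h₂ (8 * X) (by omega) (fun a b => 2 ^ (ex z a b + 1)) (fun _ _ => Nat.one_le_two_pow)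
    i j k hij hik.symm hjk.symm (ex_box z pz hij) (fun k hki hkj => ex_box3 z pz hij hki hkj) univ
    (2 ^ lr z i j k) Nat.one_le_two_pow N R (by
      intro x hx
      obtain ⟨k1, k2, k3, k4, k5⟩ := hR x hx
      refine ⟨k1, ?_, ?_, ?_⟩
      · intro a b
        have := ex_lt x a b
        rw [k3] at this
        exact this
      · rw [← k4]
        exact Nat.pow_log_le_self 2 (rd_pos i j k x).ne'
      · intro l _ hli hlj
        exact hmono M₂ x i j l (by omega) (k5 i j l hij hli.symm hlj.symm)) h3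
  refine h4.trans ?_
  have h5 : ∏ l ∈ univ.filter (fun l => l ≠ i ∧ l ≠ j ∧ l ≠ k),
      bd (l ∈ (univ : Finset (Fin m))) (min (2 ^ (ex z i l + 1)) (2 ^ (ex z j l + 1))) ≤
      2 ^ m * (2 : ℝ) ^ ((∑ l ∈ univ.filter (fun l => l ≠ i ∧ l ≠ j ∧ l ≠ k),
        min (ex z i l : ℝ) (ex z j l)) / 2) := by
    obtain ⟨s, hs⟩ : ∃ s : Finset (Fin m), s = univ.filter (fun l => l ≠ i ∧ l ≠ j ∧ l ≠ k) := ⟨_, rfl⟩
    rw [← hs]
    have h6 : ∀ l ∈ s, bd (l ∈ (univ : Finset (Fin m)))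
        (min (2 ^ (ex z i l + 1)) (2 ^ (ex z j l + 1))) ≤
        2 * (2 : ℝ) ^ (min (ex z i l : ℝ) (ex z j l) / 2) := by
      intro l _
      have h1 := bd_le (l ∈ (univ : Finset (Fin m)))
        (min (2 ^ (ex z i l + 1)) (2 ^ (ex z j l + 1))) (min (ex z i l) (ex z j l)) (by
          rcases le_total (ex z i l) (ex z j l) with h | h
          · rw [min_eq_left h]
            exact min_le_left _ _
          · rw [min_eq_right h]
            exact min_le_right _ _)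
      rw [if_pos (mem_univ l)] at h1
      refine h1.trans (le_of_eq ?_)
      push_cast
      congr 2
      ring
    refine (Finset.prod_le_prod (fun l _ => ?_) h6).trans ?_
    · unfold bd
      split_ifs <;> positivity
    rw [Finset.prod_mul_distrib, Finset.prod_const, ← Real.rpow_sum_of_pos (by norm_num),
      Finset.sum_div]
    apply mul_le_mul_of_nonneg_right _ (by positivity)
    apply pow_le_pow_right₀ (by norm_num)
    have := card_le_card (Finset.subset_univ s)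
    rwa [Finset.card_univ, Fintype.card_fin] at this
  calc C₂ * ((8 * X : ℕ) : ℝ) ^ (ε / 2) * (N * ((2 ^ (ex z i j + 1) : ℕ) : ℝ) /
      ((2 ^ lr z i j k : ℕ) : ℝ) *
      ∏ l ∈ univ.filter (fun l => l ≠ i ∧ l ≠ j ∧ l ≠ k),
        bd (l ∈ (univ : Finset (Fin m))) (min (2 ^ (ex z i l + 1)) (2 ^ (ex z j l + 1))))
      ≤ C₂ * ((8 * X : ℕ) : ℝ) ^ (ε / 2) * (N * ((2 ^ (ex z i j + 1) : ℕ) : ℝ) /
        ((2 ^ lr z i j k : ℕ) : ℝ) *
        (2 ^ m * (2 : ℝ) ^ ((∑ l ∈ univ.filter (fun l => l ≠ i ∧ l ≠ j ∧ l ≠ k),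
        min (ex z i l : ℝ) (ex z j l)) / 2))) := by
        apply mul_le_mul_of_nonneg_left _ (by positivity)
        exact mul_le_mul_of_nonneg_left h5 (by positivity)
    _ = C₂ * 8 ^ (ε / 2) * (2 * 2 ^ m) * C₁ * ((X : ℝ) ^ (ε / 2) * (X : ℝ) ^ (ε / 2)) *
        ((2 : ℝ) ^ ((lr z i j k : ℝ) / 2 + min (lr z i k j : ℝ) (lr z j k i) / 2) *
        ((2 : ℝ) ^ (ex z i j : ℝ) / (2 : ℝ) ^ (lr z i j k : ℝ)) *
        (2 : ℝ) ^ ((∑ l ∈ univ.filter (fun l => l ≠ i ∧ l ≠ j ∧ l ≠ k),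
        min (ex z i l : ℝ) (ex z j l)) / 2)) := by
        rw [const_X, hN, Real.rpow_natCast, Real.rpow_natCast]
        push_cast
        ring
    _ = _ := by
        rw [← Real.rpow_add hX0, add_halves, ← Real.rpow_sub (by norm_num),
          ← Real.rpow_add (by norm_num), ← Real.rpow_add (by norm_num)]
        congr 2
        ring

/-- **a linear programme**, all triples exceptional -/
theorem lp3 (hm : 3 ≤ m) (u : Fin m → Fin m → ℝ) (hu0 : ∀ i j, 0 ≤ u i j)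
    (hus : ∀ i j, u i j = u j i) (hud : ∀ i, u i i = 0) (L : ℝ)
    (hL : ∑ i, ∑ j, u i j ≤ 2 * L) (r : Fin m → Fin m → Fin m → ℝ)
    (hr : ∀ i j k, i ≠ j → r j i k = r i j k) :
    ∃ i j k, i ≠ j ∧ i ≠ k ∧ j ≠ k ∧ u i j - r i j k / 2 + min (r i k j) (r j k i) / 2 +
      (∑ l ∈ univ.filter (fun l => l ≠ i ∧ l ≠ j ∧ l ≠ k), min (u i l) (u j l)) / 2 ≤
      1 / (m : ℝ) * L := by
  classical
  by_contra hcon
  push Not at hcon
  have hm3 : (3 : ℝ) ≤ m := by exact_mod_cast hm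
  have hm0 : (m : ℝ) ≠ 0 := by linarith
  obtain ⟨D, hD⟩ : ∃ D, D = ∑ i, ∑ j, u i j := ⟨_, rfl⟩
  rw [← hD] at hL
  obtain ⟨w, hw⟩ : ∃ w : Fin m → Fin m → Fin m → ℝ,
      w = fun i j k => if i ≠ j ∧ i ≠ k ∧ j ≠ k then 1 else 0 := ⟨_, rfl⟩
  have hw0 : ∀ i j k, 0 ≤ w i j k := by
    intro i j k
    rw [hw]
    simp only
    split_ifs <;> norm_num
  have hw23 : ∀ i j k, w i k j = w i j k := by
    intro i j k
    rw [hw]
    simp only
    by_cases h : i ≠ j ∧ i ≠ k ∧ j ≠ k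
    · rw [if_pos h, if_pos ⟨h.2.1, h.1, h.2.2.symm⟩]
    · rw [if_neg h, if_neg fun h' => h ⟨h'.2.1, h'.1, h'.2.2.symm⟩]
  have hw12 : ∀ i j k, w j i k = w i j k := by
    intro i j k
    rw [hw]
    simp only
    by_cases h : i ≠ j ∧ i ≠ k ∧ j ≠ k
    · rw [if_pos h, if_pos ⟨h.1.symm, h.2.2, h.2.1⟩]
    · rw [if_neg h, if_neg fun h' => h ⟨h'.1.symm, h'.2.2, h'.2.1⟩]
  have hwsum : ∀ i j, i ≠ j → ∑ k, w i j k = (m : ℝ) - 2 := by
    intro i j hij
    have h1 : ∀ k, w i j k = 1 - (if k = i then 1 else 0) - (if k = j then 1 else 0) := by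
      intro k
      rw [hw]
      simp only
      by_cases hki : k = i
      · rw [if_neg (by rw [hki]; exact fun h => h.2.1 rfl), if_pos hki,
          if_neg (fun h => hij (hki.symm.trans h))]
        norm_num
      by_cases hkj : k = j
      · rw [if_neg (by rw [hkj]; exact fun h => h.2.2 rfl), if_neg hki, if_pos hkj]
        norm_num
      rw [if_pos ⟨hij, Ne.symm hki, Ne.symm hkj⟩, if_neg hki, if_neg hkj]
      norm_num
    rw [Finset.sum_congr rfl fun k _ => h1 k, Finset.sum_sub_distrib, Finset.sum_sub_distrib]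
    simp only [Finset.sum_const, Finset.card_univ, Fintype.card_fin, nsmul_eq_mul, mul_one,
      Finset.sum_ite_eq', Finset.mem_univ, if_true]
    ring
  have hwii : ∀ i k, w i i k = 0 := by
    intro i k
    rw [hw]
    simp
  -- the sum of the weights times a function of the first two indices
  have hfst : ∀ f : Fin m → Fin m → ℝ, (∀ i, f i i = 0) →
      ∑ i, ∑ j, ∑ k, w i j k * f i j = ((m : ℝ) - 2) * ∑ i, ∑ j, f i j := by
    intro f hf
    rw [Finset.mul_sum]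
    apply Finset.sum_congr rfl
    intro i _
    rw [Finset.mul_sum]
    apply Finset.sum_congr rfl
    intro j _
    rw [← Finset.sum_mul]
    by_cases hij : i = j
    · rw [hij, hf, mul_zero, mul_zero]
    · rw [hwsum i j hij]
  -- the radicals of the reduced differences cancel
  obtain ⟨T, hT⟩ : ∃ T, T = ∑ i, ∑ j, ∑ k, w i j k * r i j k := ⟨_, rfl⟩
  have hT2 : ∑ i, ∑ j, ∑ k, w i j k * r i k j = T := by
    rw [hT]
    apply Finset.sum_congr rfl
    intro i _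
    rw [Finset.sum_comm]
    apply Finset.sum_congr rfl
    intro k _
    apply Finset.sum_congr rfl
    intro j _
    rw [hw23 i k j]
  have hT3 : ∑ i, ∑ j, ∑ k, w i j k * r j k i = T := by
    rw [← hT2, Finset.sum_comm]
    apply Finset.sum_congr rfl
    intro i _
    apply Finset.sum_congr rfl
    intro j _
    apply Finset.sum_congr rfl
    intro k _
    rw [hw12 i j k]
  -- the rest
  obtain ⟨F, hF⟩ : ∃ F : Fin m → Fin m → ℝ, F = fun i j => ∑ l, w i j l * min (u i l) (u j l) :=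
    ⟨_, rfl⟩
  have hFii : ∀ i, F i i = 0 := by
    intro i
    rw [hF]
    simp only [hwii, zero_mul, Finset.sum_const_zero]
  have hFsum : ∑ i, ∑ j, F i j ≤ ((m : ℝ) - 2) * D := by
    have h1 : ∑ i, ∑ j, F i j ≤ (∑ i, ∑ j, ∑ k, w i j k * u i k +
        ∑ i, ∑ j, ∑ k, w i j k * u j k) / 2 := by
      rw [hF, ← Finset.sum_add_distrib, Finset.sum_div]
      apply Finset.sum_le_sum
      intro i _
      rw [← Finset.sum_add_distrib, Finset.sum_div]
      apply Finset.sum_le_sum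
      intro j _
      rw [← Finset.sum_add_distrib, Finset.sum_div]
      apply Finset.sum_le_sum
      intro k _
      have h2 : min (u i k) (u j k) ≤ (u i k + u j k) / 2 := by
        rcases le_total (u i k) (u j k) with h | h
        · rw [min_eq_left h]; linarith
        · rw [min_eq_right h]; linarith
      have h3 := mul_le_mul_of_nonneg_left h2 (hw0 i j k)
      linarith
    have h2 : ∑ i, ∑ j, ∑ k, w i j k * u i k = ((m : ℝ) - 2) * D := by
      rw [hD, ← hfst u hud]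
      apply Finset.sum_congr rfl
      intro i _
      rw [Finset.sum_comm]
      apply Finset.sum_congr rfl
      intro k _
      apply Finset.sum_congr rfl
      intro j _
      rw [hw23 i k j]
    have h3 : ∑ i, ∑ j, ∑ k, w i j k * u j k = ((m : ℝ) - 2) * D := by
      rw [← h2, Finset.sum_comm]
      apply Finset.sum_congr rfl
      intro i _
      apply Finset.sum_congr rfl
      intro j _
      apply Finset.sum_congr rfl
      intro k _
      rw [hw12 i j k]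
    rw [h2, h3] at h1
    linarith
  -- the inner sum
  have hin : ∀ i j, i ≠ j → ∑ k, w i j k *
      ∑ l ∈ univ.filter (fun l => l ≠ i ∧ l ≠ j ∧ l ≠ k), min (u i l) (u j l) =
      ((m : ℝ) - 3) * F i j := by
    intro i j hij
    have h1 : ∀ k, w i j k * ∑ l ∈ univ.filter (fun l => l ≠ i ∧ l ≠ j ∧ l ≠ k),
        min (u i l) (u j l) = w i j k * F i j - w i j k * min (u i k) (u j k) := by
      intro k
      by_cases hk : i ≠ k ∧ j ≠ k
      · have hw1 : w i j k = 1 := by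
          rw [hw]
          simp only
          rw [if_pos ⟨hij, hk⟩]
        rw [hw1, one_mul, one_mul, one_mul, hF]
        simp only
        rw [Finset.sum_filter, eq_sub_iff_add_eq]
        have h2 : min (u i k) (u j k) = ∑ l, if l = k then min (u i l) (u j l) else 0 := by
          rw [Finset.sum_ite_eq' univ k (fun l => min (u i l) (u j l)), if_pos (mem_univ k)]
        rw [h2, ← Finset.sum_add_distrib]
        apply Finset.sum_congr rfl
        intro l _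
        rw [hw]
        simp only
        by_cases hlk : l = k
        · rw [if_pos hlk, if_neg (fun h => h.2.2 hlk), if_pos ⟨hij, by rw [hlk]; exact hk.1, by
            rw [hlk]; exact hk.2⟩]
          ring
        · rw [if_neg hlk]
          by_cases hl : i ≠ l ∧ j ≠ l
          · rw [if_pos ⟨Ne.symm hl.1, Ne.symm hl.2, hlk⟩, if_pos ⟨hij, hl⟩]
            ring
          · rw [if_neg (fun h => hl ⟨Ne.symm h.1, Ne.symm h.2.1⟩), if_neg (fun h => hl h.2)]
            ring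
      · have hw1 : w i j k = 0 := by
          rw [hw]
          simp only
          rw [if_neg fun h => hk h.2]
        rw [hw1]
        ring
    rw [Finset.sum_congr rfl fun k _ => h1 k, Finset.sum_sub_distrib, ← Finset.sum_mul,
      hwsum i j hij]
    have h2 : ∑ k, w i j k * min (u i k) (u j k) = F i j := by rw [hF]
    rw [h2]
    ring
  -- all the costs
  obtain ⟨c, hc⟩ : ∃ c : Fin m → Fin m → Fin m → ℝ, c = fun i j k =>
      u i j - r i j k / 2 + min (r i k j) (r j k i) / 2 +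
      (∑ l ∈ univ.filter (fun l => l ≠ i ∧ l ≠ j ∧ l ≠ k), min (u i l) (u j l)) / 2 := ⟨_, rfl⟩
  have hup : ∑ i, ∑ j, ∑ k, w i j k * c i j k ≤ ((m : ℝ) - 2) * D + (m - 3) * ((m - 2) * D) / 2 := by
    have h1 : ∑ i, ∑ j, ∑ k, w i j k * c i j k ≤ ∑ i, ∑ j, ∑ k, (w i j k * u i j -
        w i j k * r i j k / 2 + w i j k * r i k j / 4 + w i j k * r j k i / 4 +
        (w i j k * ∑ l ∈ univ.filter (fun l => l ≠ i ∧ l ≠ j ∧ l ≠ k), min (u i l) (u j l)) / 2) := by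
      apply Finset.sum_le_sum
      intro i _
      apply Finset.sum_le_sum
      intro j _
      apply Finset.sum_le_sum
      intro k _
      rw [hc]
      simp only
      have h2 : min (r i k j) (r j k i) ≤ (r i k j + r j k i) / 2 := by
        rcases le_total (r i k j) (r j k i) with h | h
        · rw [min_eq_left h]; linarith
        · rw [min_eq_right h]; linarith
      have h3 := mul_le_mul_of_nonneg_left h2 (hw0 i j k)
      linarith
    refine h1.trans ?_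
    simp only [Finset.sum_add_distrib, Finset.sum_sub_distrib, ← Finset.sum_div]
    rw [hfst u hud, ← hD, ← hT, hT2, hT3]
    have h4 : ∑ i, ∑ j, ∑ k, w i j k *
        ∑ l ∈ univ.filter (fun l => l ≠ i ∧ l ≠ j ∧ l ≠ k), min (u i l) (u j l) =
        ((m : ℝ) - 3) * ∑ i, ∑ j, F i j := by
      rw [Finset.mul_sum]
      apply Finset.sum_congr rfl
      intro i _
      rw [Finset.mul_sum]
      apply Finset.sum_congr rfl
      intro j _
      by_cases hij : i = j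
      · rw [hij, hFii, mul_zero]
        apply Finset.sum_eq_zero
        intro k _
        rw [hwii, zero_mul]
      · exact hin i j hij
    rw [h4]
    have h5 := mul_le_mul_of_nonneg_left hFsum (by linarith : (0 : ℝ) ≤ m - 3)
    linarith
  have hlow : ∑ i, ∑ j, ∑ k, w i j k * (1 / (m : ℝ) * L) < ∑ i, ∑ j, ∑ k, w i j k * c i j k := by
    obtain ⟨i₀, hi₀⟩ : ∃ i₀ : Fin m, i₀ = ⟨0, by omega⟩ := ⟨_, rfl⟩
    obtain ⟨j₀, hj₀⟩ : ∃ j₀ : Fin m, j₀ = ⟨1, by omega⟩ := ⟨_, rfl⟩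
    obtain ⟨k₀, hk₀⟩ : ∃ k₀ : Fin m, k₀ = ⟨2, by omega⟩ := ⟨_, rfl⟩
    have n1 : i₀ ≠ j₀ := by
      rw [hi₀, hj₀]
      intro h
      have := congrArg Fin.val h
      simp at this
    have n2 : i₀ ≠ k₀ := by
      rw [hi₀, hk₀]
      intro h
      have := congrArg Fin.val h
      simp at this
    have n3 : j₀ ≠ k₀ := by
      rw [hj₀, hk₀]
      intro h
      have := congrArg Fin.val h
      simp at this
    have hle : ∀ i j k, w i j k * (1 / (m : ℝ) * L) ≤ w i j k * c i j k := by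
      intro i j k
      by_cases h : i ≠ j ∧ i ≠ k ∧ j ≠ k
      · apply mul_le_mul_of_nonneg_left _ (hw0 i j k)
        rw [hc]
        exact (hcon i j k h.1 h.2.1 h.2.2).le
      · have : w i j k = 0 := by
          rw [hw]
          simp only
          rw [if_neg h]
        rw [this, zero_mul, zero_mul]
    apply Finset.sum_lt_sum (fun i _ => Finset.sum_le_sum fun j _ => Finset.sum_le_sum fun k _ =>
      hle i j k)
    refine ⟨i₀, mem_univ _, ?_⟩
    apply Finset.sum_lt_sum (fun j _ => Finset.sum_le_sum fun k _ => hle i₀ j k)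
    refine ⟨j₀, mem_univ _, ?_⟩
    apply Finset.sum_lt_sum (fun k _ => hle i₀ j₀ k)
    refine ⟨k₀, mem_univ _, ?_⟩
    have hw1 : w i₀ j₀ k₀ = 1 := by
      rw [hw]
      simp only
      rw [if_pos ⟨n1, n2, n3⟩]
    rw [hw1, one_mul, one_mul, hc]
    exact hcon i₀ j₀ k₀ n1 n2 n3
  have htot : ∑ i, ∑ j, ∑ k, w i j k * (1 / (m : ℝ) * L) =
      ((m : ℝ) - 2) * (m * (m - 1)) * (1 / (m : ℝ) * L) := by
    have h1 : ∀ i j, ∑ k, w i j k * (1 / (m : ℝ) * L) =
        (if i = j then 0 else ((m : ℝ) - 2) * (1 / (m : ℝ) * L)) := by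
      intro i j
      rw [← Finset.sum_mul]
      by_cases hij : i = j
      · rw [if_pos hij, hij, Finset.sum_eq_zero fun k _ => hwii j k, zero_mul]
      · rw [if_neg hij, hwsum i j hij]
    rw [Finset.sum_congr rfl fun i _ => Finset.sum_congr rfl fun j _ => h1 i j]
    have h2 : ∀ i : Fin m, ∑ j, (if i = j then 0 else ((m : ℝ) - 2) * (1 / (m : ℝ) * L)) =
        ((m : ℝ) - 1) * (((m : ℝ) - 2) * (1 / (m : ℝ) * L)) := by
      intro i
      have h3 : ∀ j, (if i = j then 0 else ((m : ℝ) - 2) * (1 / (m : ℝ) * L)) =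
          ((m : ℝ) - 2) * (1 / (m : ℝ) * L) -
          (if i = j then ((m : ℝ) - 2) * (1 / (m : ℝ) * L) else 0) := by
        intro j
        split_ifs <;> ring
      rw [Finset.sum_congr rfl fun j _ => h3 j, Finset.sum_sub_distrib, Finset.sum_ite_eq,
        if_pos (mem_univ i), Finset.sum_const, Finset.card_univ, Fintype.card_fin, nsmul_eq_mul]
      ring
    rw [Finset.sum_congr rfl fun i _ => h2 i, Finset.sum_const, Finset.card_univ,
      Fintype.card_fin, nsmul_eq_mul]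
    ring
  rw [htot] at hlow
  have h6 : ((m : ℝ) - 2) * (m * (m - 1)) * (1 / (m : ℝ) * L) = (m - 2) * (m - 1) * L := by
    field_simp
  rw [h6] at hlow
  have h7 : ((m : ℝ) - 2) * D + (m - 3) * ((m - 2) * D) / 2 = (m - 2) * (m - 1) / 2 * D := by ring
  rw [h7] at hup
  have h8 : ((m : ℝ) - 2) * (m - 1) / 2 * D ≤ (m - 2) * (m - 1) / 2 * (2 * L) := by
    apply mul_le_mul_of_nonneg_left hL
    have : (0 : ℝ) ≤ m - 1 := by linarith
    have : (0 : ℝ) ≤ m - 2 := by linarith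
    positivity
  linarith

open Classical in
/-- **the configurations all of whose triples are exceptional** -/
theorem all_exc (hm : 3 ≤ m) (ε : ℝ) (hε : 0 < ε) :
    ∃ M : ℕ, ∃ C : ℝ, 1 ≤ M ∧ 0 < C ∧
    ∀ X : ℕ, 1 ≤ X → ∀ Q : Finset (Fin m → ℤ), (∀ x ∈ Q, Cf x ∧ pr x ≤ X ∧
      ∀ i j k, i ≠ j → i ≠ k → j ≠ k → Et M x i j k) →
    (Q.card : ℝ) ≤ C * (X : ℝ) ^ (1 / (m : ℝ) + ε) := by
  obtain ⟨M, C₁, hM, hC₁, h₁⟩ := spa hm (ε / 2) (by positivity)
  obtain ⟨D, hD, hcl⟩ := classes m (ε / 2) (by positivity)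
  refine ⟨M, D * C₁, hM, by positivity, ?_⟩
  intro X hX Q hQ
  have hX1 : (1 : ℝ) ≤ X := by exact_mod_cast hX
  have hX0 : (0 : ℝ) < X := by linarith
  have h3 := hcl X hX Q (fun x hx => ⟨(hQ x hx).1, (hQ x hx).2.1⟩) (fun _ => ∅)
    (C₁ * (X : ℝ) ^ (ε / 2) * (X : ℝ) ^ (1 / (m : ℝ))) (by positivity) (by
    intro z hz
    obtain ⟨cz, pz, ez⟩ := hQ z hz
    obtain ⟨i, j, k, hij, hik, hjk, hcost⟩ := lp3 hm (fun a b => (ex z a b : ℝ))
      (fun _ _ => Nat.cast_nonneg _) (fun a b => by rw [ex_symm])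
      (fun a => by rw [ex_diag]; norm_num) (Real.logb 2 X) (ex_sum2 hX pz)
      (fun a b c => (lr z a b c : ℝ)) (fun a b c hab => by
        rw [lr_swap cz c hab])
    have h4 := h₁ X hX z cz pz i j k hij hik hjk (Q.filter fun x => ex x = ex z ∧ lr x = lr z ∧
      (∅ : Finset (Fin m × Fin m × Fin m)) = ∅) (by
      intro x hx
      rw [mem_filter] at hx
      exact ⟨(hQ x hx.1).1, (hQ x hx.1).2.1, hx.2.1, hx.2.2.1, (hQ x hx.1).2.2⟩)
    refine h4.trans ?_
    apply mul_le_mul_of_nonneg_left _ (by positivity)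
    rw [← X_rpow hX]
    exact Real.rpow_le_rpow_of_exponent_le (by norm_num) hcost)
  refine h3.trans (le_of_eq ?_)
  calc D * (X : ℝ) ^ (ε / 2) * (C₁ * (X : ℝ) ^ (ε / 2) * (X : ℝ) ^ (1 / (m : ℝ))) =
      D * C₁ * ((X : ℝ) ^ (ε / 2) * (X : ℝ) ^ (ε / 2) * (X : ℝ) ^ (1 / (m : ℝ))) := by ring
    _ = _ := by
        rw [← Real.rpow_add hX0, add_halves, ← Real.rpow_add hX0]
        congr 2
        ring

end Pool.Agent.H583.PD
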